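import Pool.Agent.helper4.QX.SpecD
import Pool.Agent.helper62.QU.All
import Pool.Agent.helper68.QX.SEC

set_option autoImplicit false

/-! # Row GKL of project QX: kernels of total mass `m` and the Laplace operator -/

open scoped MatrixGroups ContDiff Topology UpperHalfPlane
open UpperHalfPlane MeasureTheory ProbabilityTheory Filter Set Polynomial
open Pool.Agent.QU Pool.Agent.RP

namespace Pool.Agent.QX

theorem GKL_low (κ₁ : ℝ → ℝ) (hc : Continuous κ₁) (hn : ∀ t, 0 ≤ κ₁ t)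
    (hpos : ∀ t, 0 ≤ t → t < 1 → 0 < κ₁ t) :
    ∃ a : ℝ, 0 < a ∧ ∀ x, 0 ≤ x → x ≤ 1 → a * x ≤ SEC_Q κ₁ x := by
  obtain ⟨x₀, hx₀, hmin⟩ := (isCompact_Icc (a := (0 : ℝ)) (b := 1 / 2)).exists_isMinOn
    ⟨0, by norm_num, by norm_num⟩ hc.continuousOn
  have ha₀ : 0 < κ₁ x₀ := hpos x₀ hx₀.1 (by linarith [hx₀.2])
  have h1 : ∀ x, 0 ≤ x → x ≤ 1 / 2 → κ₁ x₀ * x ≤ SEC_Q κ₁ x := by
    intro x hx hx2
    have h2 : ∫ _r in (0 : ℝ)..x, κ₁ x₀ ≤ ∫ r in (0 : ℝ)..x, κ₁ r := by
      apply intervalIntegral.integral_mono_on hx intervalIntegrable_const (hc.intervalIntegrable _ _)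
      intro r hr
      exact hmin ⟨hr.1, hr.2.trans hx2⟩
    rw [intervalIntegral.integral_const, smul_eq_mul] at h2
    unfold SEC_Q
    linarith
  refine ⟨κ₁ x₀ / 2, by positivity, fun x hx hx1 => ?_⟩
  rcases le_total x (1 / 2) with h | h
  · have := h1 x hx h
    nlinarith
  · have h2 := h1 (1 / 2) (by norm_num) le_rfl
    have h3 := SEC_Qmono κ₁ hc hn h
    nlinarith

theorem GKL_lapc {V : Type} [NormedAddCommGroup V] [NormedSpace ℝ V] {u : ℍ → V} (hu : CD 2 u) :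
    Continuous (lap u) := by
  have h1 : ContDiffOn ℝ 1 (fderiv ℝ (onC u)) CA1_U := by
    refine ContDiffOn.fderiv_of_isOpen (n := 2) hu CA1_open ?_
    norm_num
  have h2 : ContDiffOn ℝ 0 (fderiv ℝ (fderiv ℝ (onC u))) CA1_U := by
    refine ContDiffOn.fderiv_of_isOpen (n := 1) h1 CA1_open ?_
    norm_num
  have h3 : ContinuousOn (fderiv ℝ (fderiv ℝ (onC u))) CA1_U := h2.continuousOn
  have h4 : Continuous fun z : ℍ => fderiv ℝ (fderiv ℝ (onC u)) (z : ℂ) :=
    h3.comp_continuous UpperHalfPlane.continuous_coe (fun z => CA1_mem z)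
  have h5 : ∀ v v' : ℂ, Continuous fun z : ℍ => fderiv ℝ (fderiv ℝ (onC u)) (z : ℂ) v v' := by
    intro v v'
    exact (h4.clm_apply continuous_const).clm_apply continuous_const
  unfold lap
  exact ((UpperHalfPlane.continuous_im.pow 2).neg).smul ((h5 1 1).add (h5 Complex.I Complex.I))

theorem GKL (hYNM : YNM_stmt) (_hCVI : CVI_stmt) : GKL_stmt := by
  intro κ₁ C hBF Γ F V _ _ _ ρ κ φ m s hΓ hF hs hκ hκ0 hκs hmass hsec hφ
  obtain ⟨c₀, hc₀, hmas⟩ := A_MAS
  have hc : Continuous κ₁ := hBF.smooth.continuous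
  have hn := hBF.nonneg
  have hz := hBF.supp
  have hfam := hBF.fam
  have hq : SEC_Q κ₁ 1 = 1 / c₀ := by
    have h1 := hfam.mass 1 one_pos UpperHalfPlane.I
    have h2 := hmas (fm κ₁ 1) 1 (hfam.rk 1 one_pos).smooth one_pos (hfam.supp 1 one_pos)
      UpperHalfPlane.I
    rw [h1, SEC_fint κ₁ 1 one_pos, div_one] at h2
    rw [eq_div_iff hc₀.ne', mul_comm]
    exact h2.symm
  have hpos : ∀ t, 0 ≤ t → t < 1 → 0 < κ₁ t := by
    intro t ht ht1
    have := hfam.pos 1 one_pos t ht ht1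
    simpa [fm] using this
  obtain ⟨a, ha, hlow⟩ := GKL_low κ₁ hc hn hpos
  have hκc : Continuous κ := hκ.smooth.continuous
  have hκi : ∀ x y, IntervalIntegrable κ volume x y := fun x y => hκc.intervalIntegrable x y
  have hmκ : m = c₀ * ∫ t in (0 : ℝ)..s, κ t := by
    rw [← hmass UpperHalfPlane.I]
    exact hmas κ s hκ.smooth hs hκs UpperHalfPlane.I
  have hκm : ∀ x y, 0 ≤ x → x ≤ y → ∫ t in (0 : ℝ)..x, κ t ≤ ∫ t in (0 : ℝ)..y, κ t := by
    intro x y hx hxy
    rw [← intervalIntegral.integral_add_adjacent_intervals (hκi 0 x) (hκi x y)]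
    have := intervalIntegral.integral_nonneg (f := κ) (μ := volume) hxy
      (fun u hu => hκ0 u (hx.trans hu.1))
    linarith
  have hκb : ∀ x, 0 ≤ x → ∫ t in (0 : ℝ)..x, κ t ≤ m / c₀ := by
    intro x hx
    have e : m / c₀ = ∫ t in (0 : ℝ)..s, κ t := by
      rw [hmκ]; field_simp
    rw [e]
    rcases le_total x s with h | h
    · exact hκm x s hx h
    · rw [← intervalIntegral.integral_add_adjacent_intervals (hκi 0 s) (hκi s x)]
      have h3 : ∫ r in s..x, κ r = ∫ r in s..x, (0 : ℝ) := by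
        refine intervalIntegral.integral_congr fun r hr => ?_
        rw [uIcc_of_le h] at hr
        exact hκs r hr.1
      rw [h3, intervalIntegral.integral_zero, add_zero]
  have hm0 : 0 ≤ m := by
    have := hκb 0 le_rfl
    rw [intervalIntegral.integral_same] at this
    have h2 := mul_nonneg hc₀.le this
    rwa [mul_div_cancel₀ _ hc₀.ne'] at h2
  -- a bound for κ
  obtain ⟨B, hB0, hB⟩ : ∃ B : ℝ, 0 < B ∧ ∀ t, 0 ≤ t → κ t ≤ B := by
    obtain ⟨B, hB⟩ := (isCompact_Icc (a := (0 : ℝ)) (b := s)).exists_bound_of_continuousOn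
      hκc.continuousOn
    refine ⟨|B| + 1, by positivity, fun t ht => ?_⟩
    rcases le_total t s with h | h
    · have := hB t ⟨ht, h⟩
      rw [Real.norm_eq_abs] at this
      linarith [le_abs_self (κ t), le_abs_self B]
    · rw [hκs t h]
      positivity
  have hφc : Continuous φ := hsec.cont
  have hlc : Continuous (lap φ) := GKL_lapc hφ
  have hlsec : SecC ρ (lap φ) := ⟨hlc, SEC_eqv Γ V ρ (fm κ₁) hfam φ hφ hlc hsec.eqv⟩
  obtain ⟨K, hK, hFK⟩ := hF.rel
  obtain ⟨-, -, -, hfin, -, -⟩ := A_DOB Γ F hΓ hF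
  obtain ⟨-, -, c3, c4, -, c6, -, -⟩ := A_CVB V
  have hlB : SecB ρ (lap φ) := by
    refine ⟨hlc.stronglyMeasurable, ?_, hlsec.eqv⟩
    obtain ⟨B, hB⟩ := hK.exists_bound_of_continuousOn hlc.continuousOn
    refine ⟨B, fun z => ?_⟩
    obtain ⟨γ, hγ, -⟩ := hF.uniq z
    have h1 := hB (γ • z) (hFK hγ)
    rwa [hlsec.eqv, LinearIsometryEquiv.norm_map] at h1
  have hM : 0 ≤ (m * s / 2) ^ 2 * ∫ z in F, ‖lap φ z‖ ^ 2 :=
    mul_nonneg (sq_nonneg _) (integral_nonneg fun z => sq_nonneg _)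
  apply EIG_lim _ _ (volume F).toReal hM ENNReal.toReal_nonneg
  intro ε hε
  obtain ⟨η₀, hη₀, hap⟩ := (A_APX (fm κ₁) hfam).1 V φ hφc K hK (ε / (m + 1)) (by positivity)
  obtain ⟨η, hη, hle, hle', hle''⟩ : ∃ η : ℝ, 0 < η ∧ η ≤ s ∧ η ≤ η₀ ∧ (0 < m → B * η ≤ m * a) := by
    rcases eq_or_lt_of_le hm0 with h | h
    · exact ⟨min s η₀, lt_min hs hη₀, min_le_left _ _, min_le_right _ _, fun h' => by
        rw [← h] at h'; exact absurd h' (lt_irrefl _)⟩
    · refine ⟨min (min s η₀) (m * a / B), lt_min (lt_min hs hη₀) (by positivity), ?_, ?_, ?_⟩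
      · exact le_trans (min_le_left _ _) (min_le_left _ _)
      · exact le_trans (min_le_left _ _) (min_le_right _ _)
      · intro _
        calc B * min (min s η₀) (m * a / B) ≤ B * (m * a / B) :=
              mul_le_mul_of_nonneg_left (min_le_right _ _) hB0.le
          _ = m * a := by field_simp
  have hkη : RK (fm κ₁ η) := hfam.rk η hη
  have hfi : ∀ t, IntervalIntegrable (fm κ₁ η) volume 0 t :=
    fun t => hkη.smooth.continuous.intervalIntegrable _ _
  have hθ : ∀ t, ∫ r in (0 : ℝ)..t, (κ r - m * fm κ₁ η r) =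
      (∫ r in (0 : ℝ)..t, κ r) - m * SEC_Q κ₁ (t / η) := by
    intro t
    rw [intervalIntegral.integral_sub (hκi 0 t) ((hfi t).const_mul m),
      intervalIntegral.integral_const_mul, SEC_fint κ₁ η hη]
  obtain ⟨ψ, hψ, hψs, hψL, hψc⟩ := A_ROD (fun t => κ t - m * fm κ₁ η t) s
    (hκ.smooth.sub (contDiff_const.mul hkη.smooth)) hs (fun t ht => by
      show κ t - m * fm κ₁ η t = 0
      rw [hκs t ht, hfam.supp η hη t (hle.trans ht), mul_zero, sub_zero]) (by
      rw [hθ, SEC_Qbig κ₁ hc hz _ ((one_le_div hη).2 hle), hq, hmκ]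
      field_simp
      ring)
  obtain ⟨hψ0, hψm⟩ := hψc (m / c₀) (fun t ht => by
    rw [hθ]
    have ha : 0 ≤ t / η := div_nonneg ht hη.le
    have b1 : 0 ≤ ∫ r in (0 : ℝ)..t, κ r := by
      have := hκm 0 t le_rfl ht
      rwa [intervalIntegral.integral_same] at this
    have b2 : SEC_Q κ₁ (t / η) ≤ 1 / c₀ := by
      rcases le_total (t / η) 1 with h | h
      · rw [← hq]; exact SEC_Qmono κ₁ hc hn h
      · rw [SEC_Qbig κ₁ hc hz _ h, hq]
    have b3 : m * SEC_Q κ₁ (t / η) ≤ m / c₀ := by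
      calc m * SEC_Q κ₁ (t / η) ≤ m * (1 / c₀) := mul_le_mul_of_nonneg_left b2 hm0
        _ = m / c₀ := by ring
    refine ⟨by linarith, ?_⟩
    rcases eq_or_lt_of_le hm0 with h | h
    · have := hκb t ht
      rw [← h] at this ⊢
      simpa using this
    rcases le_total (t / η) 1 with h1 | h1
    · have d1 := hlow (t / η) ha h1
      have d2 : ∫ r in (0 : ℝ)..t, κ r ≤ ∫ _r in (0 : ℝ)..t, B := by
        apply intervalIntegral.integral_mono_on ht (hκi _ _) intervalIntegrable_const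
        intro r hr
        exact hB r hr.1
      rw [intervalIntegral.integral_const, smul_eq_mul, sub_zero] at d2
      have d3 := hle'' h
      have d4 : t * B ≤ m * (a * (t / η)) := by
        have : t * B = (B * η) * (t / η) := by field_simp
        rw [this]
        calc (B * η) * (t / η) ≤ (m * a) * (t / η) := mul_le_mul_of_nonneg_right d3 ha
          _ = _ := by ring
      have d5 := mul_le_mul_of_nonneg_left d1 hm0
      linarith
    · rw [SEC_Qbig κ₁ hc hz _ h1, hq]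
      have := hκb t ht
      have e : m * (1 / c₀) = m / c₀ := by ring
      linarith)
  have hψmass : ∀ z : ℍ, ∫ w : ℍ, |ψ (tt z w)| ≤ m * s / 2 := by
    intro z
    have e1 : ∀ w : ℍ, |ψ (tt z w)| = ψ (tt z w) := fun w => by
      refine abs_of_nonneg (hψ0 _ ?_)
      unfold tt
      positivity
    simp only [e1]
    rw [hmas ψ s hψ.smooth hs hψs z]
    calc c₀ * ∫ t in (0 : ℝ)..s, ψ t ≤ c₀ * (m / c₀ * s / 2) := mul_le_mul_of_nonneg_left hψm hc₀.le
      _ = m * s / 2 := by field_simp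
  have e1 : ∀ z, conv ψ (lap φ) z = m • conv (fm κ₁ η) φ z - conv κ φ z := by
    intro z
    have a1 := c3 (fm κ₁ η) κ φ m (-1) z hkη hκ hφc
    have a2 := c4 (LL ψ) (fun t => m * fm κ₁ η t + (-1) * κ t) φ z
      (fun t ht => by rw [hψL t ht]; ring)
    have a3 := A_COM V ψ φ hψ hφ z
    rw [a3, a2, a1, neg_one_smul, sub_eq_add_neg]
  have e2 : ∀ z ∈ F, ‖conv κ φ z - m • φ z‖ ^ 2 ≤
      (1 + ε) * ‖conv ψ (lap φ) z‖ ^ 2 + (ε ^ 2 + ε) := by
    intro z hz
    have b1 := hap η hη hle' z (hFK hz)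
    have b2 : conv κ φ z - m • φ z =
        m • (conv (fm κ₁ η) φ z - φ z) - conv ψ (lap φ) z := by
      rw [e1, smul_sub]
      abel
    have b3 : ‖m • (conv (fm κ₁ η) φ z - φ z)‖ ≤ ε := by
      rw [norm_smul, Real.norm_eq_abs, abs_of_nonneg hm0]
      calc m * ‖conv (fm κ₁ η) φ z - φ z‖ ≤ m * (ε / (m + 1)) := mul_le_mul_of_nonneg_left b1 hm0
        _ ≤ (m + 1) * (ε / (m + 1)) := mul_le_mul_of_nonneg_right (by linarith) (by positivity)
        _ = ε := by field_simp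
    have b6 : ‖conv κ φ z - m • φ z‖ ≤ ‖conv ψ (lap φ) z‖ + ε := by
      rw [b2]
      have b7 := norm_sub_le (m • (conv (fm κ₁ η) φ z - φ z)) (conv ψ (lap φ) z)
      linarith
    exact EIG_sq _ _ ε (norm_nonneg _) b6 hε
  have hcc : Continuous fun z => conv κ φ z - m • φ z :=
    (c6 _ φ hκ hφc).sub (hφc.const_smul _)
  have hcc2 : Continuous fun z => conv ψ (lap φ) z := c6 _ _ hψ hlc
  have i1 : IntegrableOn (fun z => ‖conv κ φ z - m • φ z‖ ^ 2)
      F volume := EIG_int hK hFK hF.meas hfin _ (hcc.norm.pow 2)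
  have i2 : IntegrableOn (fun z => (1 + ε) * ‖conv ψ (lap φ) z‖ ^ 2) F volume :=
    EIG_int hK hFK hF.meas hfin _ (continuous_const.mul (hcc2.norm.pow 2))
  have i3 : IntegrableOn (fun _ : ℍ => ε ^ 2 + ε) F volume :=
    EIG_int hK hFK hF.meas hfin _ continuous_const
  have e5 := (hYNM Γ F V ρ ψ (lap φ) (m * s / 2) hΓ hF hψ hlB hψmass).2
  calc ∫ z in F, ‖conv κ φ z - m • φ z‖ ^ 2
      ≤ ∫ z in F, ((1 + ε) * ‖conv ψ (lap φ) z‖ ^ 2 + (ε ^ 2 + ε)) :=
        setIntegral_mono_on i1 (i2.add i3) hF.meas e2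
    _ = (1 + ε) * (∫ z in F, ‖conv ψ (lap φ) z‖ ^ 2) +
        (ε ^ 2 + ε) * (volume F).toReal := by
        rw [integral_add i2 i3, integral_const_mul, setIntegral_const,
          smul_eq_mul, mul_comm (ε ^ 2 + ε)]
        rfl
    _ ≤ (1 + ε) * ((m * s / 2) ^ 2 * ∫ z in F, ‖lap φ z‖ ^ 2) +
        (ε ^ 2 + ε) * (volume F).toReal := by
        have := mul_le_mul_of_nonneg_left e5 (by linarith : (0 : ℝ) ≤ 1 + ε)
        linarith

end Pool.Agent.QX
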