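import Pool.Agent.helper4.QX.SpecD
import Pool.Agent.helper74.QX.AKR
import Pool.Agent.helper62.QU.All

set_option autoImplicit false

/-! # Row NEG of project QX: the kernel is almost negative -/

open scoped MatrixGroups ContDiff Topology UpperHalfPlane
open UpperHalfPlane MeasureTheory ProbabilityTheory Filter Set Polynomial
open Pool.Agent.QU Pool.Agent.RP

namespace Pool.Agent.QX

theorem NEG_pint (a : ℍ → ℍ → ℝ) (ha : Continuous (Function.uncurry a)) (f : ℍ → ℝ)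
    (hf : StronglyMeasurable f) (m : ℝ) (hm : ∀ z, |f z| ≤ m) (hs : HasCompactSupport f) :
    Integrable (fun p : ℍ × ℍ => a p.1 p.2 * (f p.1 * f p.2))
      ((volume : Measure ℍ).prod (volume : Measure ℍ)) := by
  have hK : IsCompact (tsupport f ×ˢ tsupport f) := hs.isCompact.prod hs.isCompact
  obtain ⟨C, hC0, hC⟩ := AKR_bound (Function.uncurry a) ha _ hK
  refine AKR_integrable _ _ ?_ (tsupport f ×ˢ tsupport f) hK (C * (m * m)) ?_ ?_
  · exact (ha.stronglyMeasurable.mul ((hf.comp_measurable measurable_fst).mul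
      (hf.comp_measurable measurable_snd))).aestronglyMeasurable
  · intro p hp
    by_contra hne
    have h1 : f p.1 * f p.2 ≠ 0 := right_ne_zero_of_mul hne
    exact hp ⟨subset_tsupport _ (Function.mem_support.2 (left_ne_zero_of_mul h1)),
      subset_tsupport _ (Function.mem_support.2 (right_ne_zero_of_mul h1))⟩
  · intro p hp
    rw [norm_mul, norm_mul]
    have hm0 : 0 ≤ m := (abs_nonneg _).trans (hm p.1)
    exact mul_le_mul (hC p hp) (mul_le_mul (hm p.1) (hm p.2) (norm_nonneg _) hm0)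
      (by positivity) hC0

theorem NEG_dz (κ : ℝ → ℝ) (hκ : ContDiff ℝ ∞ κ) (η : ℝ) (h : ∀ t, η ≤ t → κ t = 0) :
    ∀ t, η ≤ t → deriv κ t = 0 := by
  have hc : Continuous (deriv κ) := hκ.continuous_deriv (by simp)
  have h1 : ∀ t, η < t → deriv κ t = 0 := by
    intro t ht
    have : κ =ᶠ[𝓝 t] fun _ => (0 : ℝ) := by
      filter_upwards [lt_mem_nhds ht] with x hx
      exact h x hx.le
    rw [this.deriv_eq]
    simp
  intro t ht
  rcases eq_or_lt_of_le ht with h2 | h2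
  · subst h2
    have h3 : Tendsto (deriv κ) (𝓝[>] η) (𝓝 (deriv κ η)) := hc.continuousAt.mono_left nhdsWithin_le_nhds
    have h4 : Tendsto (deriv κ) (𝓝[>] η) (𝓝 0) := by
      refine tendsto_const_nhds.congr' ?_
      filter_upwards [self_mem_nhdsWithin] with x hx
      exact (h1 x hx).symm
    exact tendsto_nhds_unique h3 h4
  · exact h1 t h2

theorem NEG_LL (κ : ℝ → ℝ) (hκ : ContDiff ℝ ∞ κ) (η : ℝ) (h : ∀ t, η ≤ t → κ t = 0) :
    ∀ t, η ≤ t → LL κ t = 0 := by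
  intro t ht
  have h1 := NEG_dz κ hκ η h
  have hd : ContDiff ℝ ∞ (deriv κ) := by
    have := hκ.iterate_deriv 1
    simpa using this
  have h2 := NEG_dz (deriv κ) hd η h1
  unfold LL
  rw [h1 t ht, h2 t ht]
  ring

theorem NEG (hKLU : KLU_stmt) (hSRK : SRK_stmt) (hLPA : LPA_stmt) (hAKR : AKR_stmt) : NEG_stmt := by
  intro κ₁ C₁ hB Γ F h hS hF hh h0 δ hδ
  obtain ⟨C, hC0, hC⟩ := hKLU Γ F h hS hF hh h0 δ hδ
  refine ⟨C, hC0, ?_⟩
  intro μ₀ τ η p hμ₀ hτ hτ1 hη hη1 f hf hfb hfs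
  obtain ⟨m, hm⟩ := hfb
  have hrkκ : RK (fm κ₁ τ) := hB.fam.rk τ hτ
  have hrka : RK (fm κ₁ η) := hB.fam.rk η hη
  obtain ⟨-, -, -, hrkL, hrkc⟩ := Pool.Agent.QU.A_LAK
  have hrkl : RK (fun t => LL (fm κ₁ η) t - μ₀ * fm κ₁ η t) := by
    have h1 := hrkc (LL (fm κ₁ η)) (fm κ₁ η) 1 (-μ₀) (hrkL _ hrka) hrka
    have h2 : (fun t => 1 * LL (fm κ₁ η) t + (-μ₀) * fm κ₁ η t) =
        fun t => LL (fm κ₁ η) t - μ₀ * fm κ₁ η t := by
      funext t; ring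
    rwa [h2] at h1
  obtain ⟨hS1c, hS1i, hS1s, hS1r⟩ := hSRK (fm κ₁ τ) (fm κ₁ η) (fm κ₁ η) p hrkκ hrka hrka
  obtain ⟨hS2c, hS2i, hS2s, hS2r⟩ := hSRK (fm κ₁ τ) (fun t => LL (fm κ₁ η) t - μ₀ * fm κ₁ η t)
    (fm κ₁ η) p hrkκ hrkl hrka
  have hz : ∀ t, η ≤ t → fm κ₁ η t = 0 := fun t ht => hB.fam.supp η hη t ht
  have hzl : ∀ t, η ≤ t → LL (fm κ₁ η) t - μ₀ * fm κ₁ η t = 0 := by
    intro t ht
    rw [NEG_LL _ hrka.smooth η hz t ht, hz t ht]
    ring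
  set S₁ := Sk (fm κ₁ τ) p (fm κ₁ η) (fm κ₁ η) with hS₁
  set S₂ := Sk (fm κ₁ τ) p (fun t => LL (fm κ₁ η) t - μ₀ * fm κ₁ η t) (fm κ₁ η) with hS₂
  set R : ℝ := 2 * (p.natDegree * Real.sqrt τ + 2) with hR
  have hp1 := hS1s τ η hτ.le hτ1 hη.le hη1 (fun t ht => hB.fam.supp τ hτ t ht) hz hz
  have hp2 := hS2s τ η hτ.le hτ1 hη.le hη1 (fun t ht => hB.fam.supp τ hτ t ht) hzl hz
  have hInvH : Inv Γ (fun v => h v - δ) := ⟨hh.1.sub continuous_const, fun γ z => by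
    simp only [hh.2 γ z]⟩
  have hInv1 : Inv Γ (fun _ => (1 : ℝ)) := ⟨continuous_const, fun _ _ => rfl⟩
  obtain ⟨hPa, -, -, hfa⟩ := hAKR Γ F (fun v => h v - δ) S₁ R hS hF hInvH hS1c
    (fun γ z v => hS1i (γ : SL(2, ℝ)) z v) hp1
  obtain ⟨hPb, -, -, hfb⟩ := hAKR Γ F (fun _ => (1 : ℝ)) S₂ R hS hF hInv1 hS2c
    (fun γ z v => hS2i (γ : SL(2, ℝ)) z v) hp2
  -- the function u
  have hfm' : ∃ m : ℝ, ∀ z, ‖f z‖ ≤ m := ⟨m, hm⟩
  obtain ⟨hQc, hrep1⟩ := hS1r ℝ f hf hfm'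
  obtain ⟨-, hrep2⟩ := hS2r ℝ f hf hfm'
  set χ : ℍ → ℝ := conv (fm κ₁ η) f with hχ
  have hχs : HasCompactSupport χ := (Pool.Agent.QU.A_CVB ℝ).2.2.2.2.1 _ f hrka hfs
  obtain ⟨hCD, hcs, hlap⟩ := hLPA ℝ (fm κ₁ τ) (fm κ₁ η) p μ₀ χ hrkκ hrka hQc
  set u : ℍ → ℝ := pA (fm κ₁ τ) p (conv (fm κ₁ η) χ) with hu
  have hcu := hcs hχs
  have hKL := hC μ₀ u hμ₀ hCD hcu
  have hpa := NEG_pint _ hPa.cont f hf m hm hfs
  have hpb := NEG_pint _ hPb.cont f hf m hm hfs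
  have hsplit : (∫ z : ℍ, ∫ w : ℍ, (aS (fun v => h v - δ) S₁ z w -
      C * wt μ₀ * aS (fun _ => 1) S₂ z w) * (f z * f w)) =
      (∫ z : ℍ, ∫ w : ℍ, aS (fun v => h v - δ) S₁ z w * (f z * f w)) -
      C * wt μ₀ * ∫ z : ℍ, ∫ w : ℍ, aS (fun _ => 1) S₂ z w * (f z * f w) := by
    have h1 := integral_integral_sub hpa (hpb.const_mul (C * wt μ₀))
    have h2 : (∫ z : ℍ, ∫ w : ℍ, C * wt μ₀ * (aS (fun _ => 1) S₂ z w * (f z * f w))) =
        C * wt μ₀ * ∫ z : ℍ, ∫ w : ℍ, aS (fun _ => 1) S₂ z w * (f z * f w) := by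
      rw [← integral_const_mul]
      congr 1
      funext z
      rw [integral_const_mul]
    simp only at h1
    rw [h2] at h1
    rw [← h1]
    congr 1
    funext z
    congr 1
    funext w
    ring
  rw [hsplit, hfa f hf ⟨m, hm⟩ hfs, hfb f hf ⟨m, hm⟩ hfs]
  have e1 : ∀ v, (∫ z : ℍ, S₁ z v * f z) = u v := fun v => by
    rw [hrep1 v]; rfl
  have e2 : ∀ v, (∫ z : ℍ, S₂ z v * f z) = lap u v - μ₀ * u v := fun v => by
    have h1 := hlap v
    rw [hrep2 v] at h1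
    simp only [smul_eq_mul] at h1
    rw [h1]
  simp only [e1, e2, one_mul]
  have hcont : Continuous u := by
    obtain ⟨c0, c1, -⟩ := Pool.Agent.QU.A_CA1 ℝ
    exact (c0 u).1 (c1 u 0 ∞ (by simp) hCD)
  have hi1 : Integrable (fun v => h v * u v ^ 2) := by
    refine Continuous.integrable_of_hasCompactSupport (hh.1.mul (hcont.pow 2)) ?_
    refine HasCompactSupport.mul_left ?_
    exact hcu.comp_left (g := fun x : ℝ => x ^ 2) (by simp)
  have hi2 : Integrable (fun v => δ * u v ^ 2) := by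
    refine Continuous.integrable_of_hasCompactSupport (continuous_const.mul (hcont.pow 2)) ?_
    refine HasCompactSupport.mul_left ?_
    exact hcu.comp_left (g := fun x : ℝ => x ^ 2) (by simp)
  have e3 : (∫ v : ℍ, (h v - δ) * u v ^ 2) = (∫ v : ℍ, h v * u v ^ 2) - δ * ∫ v : ℍ, u v ^ 2 := by
    rw [← integral_const_mul, ← integral_sub hi1 hi2]
    congr 1
    funext v
    ring
  rw [e3]
  have e4 : C * wt μ₀ = C * (Real.log (2 + μ₀)) ^ 2 / (1 + μ₀) := by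
    unfold wt
    ring
  rw [e4]
  linarith

end Pool.Agent.QX
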