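import Pool.Agent.helper4.QX.SpecD
import Pool.Agent.helper62.QU.All

set_option autoImplicit false

/-! # Row SVM of project QX: the lemma of Svarc and Milnor for cocompact groups of isometries of the half-plane -/

open scoped MatrixGroups ContDiff Topology UpperHalfPlane
open UpperHalfPlane MeasureTheory ProbabilityTheory Filter Set Polynomial
open Pool.Agent.QU Pool.Agent.RP

namespace Pool.Agent.QX

/-- the hyperbolic plane is a geodesic space: hyperbolic balls are Euclidean discs, and two balls whose radii add up to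
the distance of their centres are tangent discs -/
theorem SVM_mid (z w : ℍ) (t s : ℝ) (ht : 0 < t) (hs : 0 < s) (h : dist z w ≤ t + s) :
    ∃ v : ℍ, dist z v ≤ t ∧ dist v w ≤ s := by
  set c₁ : ℂ := (z.center t : ℂ) with hc₁
  set c₂ : ℂ := (w.center s : ℂ) with hc₂
  set r₁ : ℝ := z.im * Real.sinh t with hr₁
  set r₂ : ℝ := w.im * Real.sinh s with hr₂
  have hr₁p : 0 < r₁ := mul_pos z.im_pos (Real.sinh_pos_iff.2 ht)
  have hr₂p : 0 < r₂ := mul_pos w.im_pos (Real.sinh_pos_iff.2 hs)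
  have hcosh : Real.cosh (dist z w) ≤ Real.cosh (t + s) :=
    Real.cosh_le_cosh.2 (by rw [abs_of_nonneg dist_nonneg, abs_of_nonneg (by positivity)]; exact h)
  rw [cosh_dist', div_le_iff₀ (by positivity), Real.cosh_add] at hcosh
  have hd : dist c₁ c₂ ^ 2 ≤ (r₁ + r₂) ^ 2 := by
    rw [Complex.dist_eq, Complex.sq_norm, Complex.normSq_apply]
    have e1 : (c₁ - c₂).re = z.re - w.re := by
      simp [hc₁, hc₂]
    have e2 : (c₁ - c₂).im = z.im * Real.cosh t - w.im * Real.cosh s := by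
      simp [hc₁, hc₂]
    rw [e1, e2, hr₁, hr₂]
    have h1 := Real.cosh_sq t
    have h2 := Real.cosh_sq s
    nlinarith [hcosh, h1, h2]
  have hd' : dist c₁ c₂ ≤ r₁ + r₂ := by
    exact (pow_le_pow_iff_left₀ dist_nonneg (by positivity) two_ne_zero).1 hd
  set p : ℂ := c₁ + ((r₁ / (r₁ + r₂) : ℝ) : ℂ) * (c₂ - c₁) with hp
  have hp1 : dist p c₁ ≤ r₁ := by
    rw [Complex.dist_eq, hp, add_sub_cancel_left, norm_mul, Complex.norm_real, Real.norm_eq_abs,
      abs_of_pos (by positivity), ← Complex.dist_eq, dist_comm, div_mul_eq_mul_div,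
      div_le_iff₀ (by positivity)]
    exact mul_le_mul_of_nonneg_left hd' hr₁p.le
  have hp2 : dist p c₂ ≤ r₂ := by
    have e : p - c₂ = ((r₂ / (r₁ + r₂) : ℝ) : ℂ) * (c₁ - c₂) := by
      have h1 : ((r₁ / (r₁ + r₂) : ℝ) : ℂ) + ((r₂ / (r₁ + r₂) : ℝ) : ℂ) = 1 := by
        rw [← Complex.ofReal_add, ← add_div, div_self (by positivity)]
        simp
      have h2 : ((r₂ / (r₁ + r₂) : ℝ) : ℂ) = 1 - ((r₁ / (r₁ + r₂) : ℝ) : ℂ) := by
        rw [← h1]; ring
      rw [h2, hp]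
      ring
    rw [Complex.dist_eq, e, norm_mul, Complex.norm_real, Real.norm_eq_abs,
      abs_of_pos (by positivity), ← Complex.dist_eq, div_mul_eq_mul_div,
      div_le_iff₀ (by positivity)]
    exact mul_le_mul_of_nonneg_left hd' hr₂p.le
  have hpi : 0 < p.im := im_pos_of_dist_center_le hp1
  refine ⟨⟨p, hpi⟩, ?_, ?_⟩
  · rw [dist_comm]
    exact dist_le_iff_dist_coe_center_le.2 hp1
  · exact dist_le_iff_dist_coe_center_le.2 hp2

theorem SVM_mono {g m n : ℕ} (h : m ≤ n) {γ : SurfGrp g} (hγ : γ ∈ SLen g m) : γ ∈ SLen g n := by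
  obtain ⟨l, hl, he⟩ := hγ
  exact ⟨l, hl.trans h, he⟩

theorem SVM_mul {g m n : ℕ} {γ γ' : SurfGrp g} (hγ : γ ∈ SLen g m) (hγ' : γ' ∈ SLen g n) :
    γ * γ' ∈ SLen g (m + n) := by
  obtain ⟨l, hl, he⟩ := hγ
  obtain ⟨l', hl', he'⟩ := hγ'
  refine ⟨l ++ l', by rw [List.length_append]; omega, ?_⟩
  rw [List.map_append, List.prod_append, ← he, ← he']

theorem SVM_inv {g m : ℕ} {γ : SurfGrp g} (hγ : γ ∈ SLen g m) : γ⁻¹ ∈ SLen g m := by
  obtain ⟨l, hl, he⟩ := hγ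
  refine ⟨(l.map fun t => (t.1, !t.2)).reverse, by simpa using hl, ?_⟩
  rw [he, List.prod_inv_reverse]
  congr 1
  rw [List.map_reverse, List.map_map, List.map_map]
  congr 1
  refine List.map_congr_left fun t _ => ?_
  rcases t with ⟨a, b⟩
  cases b <;> simp

theorem SVM_exists {g : ℕ} (γ : SurfGrp g) : ∃ n, γ ∈ SLen g n := by
  have h1 : γ ∈ Subgroup.closure (Set.range (PresentedGroup.of (rels := {surfRel g}))) := by
    rw [PresentedGroup.closure_range_of]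
    exact Subgroup.mem_top γ
  refine Subgroup.closure_induction (p := fun γ _ => ∃ n, γ ∈ SLen g n) ?_ ?_ ?_ ?_ h1
  · rintro x ⟨a, rfl⟩
    exact ⟨1, [(a, true)], by simp, by simp⟩
  · exact ⟨0, [], by simp, by simp⟩
  · rintro x y - - ⟨m, hm⟩ ⟨n, hn⟩
    exact ⟨m + n, SVM_mul hm hn⟩
  · rintro x - ⟨m, hm⟩
    exact ⟨m, SVM_inv hm⟩

theorem SVM : SVM_stmt := by
  intro Γ F g e hS hF
  obtain ⟨-, -, -, -, -, hfin⟩ := Pool.Agent.QU.A_DOB Γ F hS hF
  obtain ⟨K, hK, hFK⟩ := hF.rel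
  set S₀ : Set Γ := {γ : Γ | ∃ z ∈ F, ∃ w ∈ F, dist z (γ • w) ≤ 1} with hS₀
  have hS₀f : S₀.Finite := by
    refine (hfin K (Metric.cthickening 1 K) hK ?_).subset ?_
    · exact hK.cthickening
    · rintro γ ⟨z, hz, w, hw, hd⟩
      refine ⟨w, hFK hw, ?_⟩
      refine Metric.mem_cthickening_of_dist_le _ z 1 K (hFK hz) ?_
      rw [dist_comm]
      exact hd
  have hA : ∃ A : ℕ, ∀ γ ∈ S₀, e γ ∈ SLen g A := by
    choose f hf using fun γ : Γ => SVM_exists (e γ)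
    refine ⟨hS₀f.toFinset.sup f, fun γ hγ => SVM_mono ?_ (hf γ)⟩
    exact Finset.le_sup (f := f) (hS₀f.mem_toFinset.2 hγ)
  obtain ⟨A, hA⟩ := hA
  refine ⟨A + 1, by omega, ?_⟩
  have key : ∀ n : ℕ, ∀ γ : Γ, (∃ z ∈ F, ∃ w ∈ F, dist z (γ • w) ≤ n) →
      e γ ∈ SLen g (A * (n + 1)) := by
    intro n
    induction n with
    | zero =>
      rintro γ ⟨z, hz, w, hw, hd⟩
      rw [zero_add, mul_one]
      refine hA γ ⟨z, hz, w, hw, hd.trans ?_⟩
      norm_num
    | succ n ih =>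
      rintro γ ⟨z, hz, w, hw, hd⟩
      rcases Nat.eq_zero_or_pos n with hn | hn
      · subst hn
        refine SVM_mono ?_ (hA γ ⟨z, hz, w, hw, hd.trans (by norm_num)⟩)
        nlinarith
      obtain ⟨v, hv1, hv2⟩ := SVM_mid z (γ • w) n 1 (by exact_mod_cast hn) one_pos
        (by push_cast at hd; exact hd)
      obtain ⟨γ₁, hγ₁, -⟩ := hF.uniq v
      have h1 : e γ₁⁻¹ ∈ SLen g (A * (n + 1)) := by
        refine ih γ₁⁻¹ ⟨z, hz, γ₁ • v, hγ₁, ?_⟩
        rw [inv_smul_smul]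
        exact hv1
      have h2 : e (γ₁ * γ) ∈ SLen g A := by
        refine hA _ ⟨γ₁ • v, hγ₁, w, hw, ?_⟩
        rw [mul_smul]
        have : dist (γ₁ • v) (γ₁ • (γ • w)) = dist v (γ • w) := dist_smul ((γ₁ : SL(2, ℝ))) v (γ • w)
        rw [this]
        exact hv2
      have h3 := SVM_mul h1 h2
      rw [← map_mul, inv_mul_cancel_left] at h3
      refine SVM_mono ?_ h3
      exact le_of_eq (by ring)
  intro R n hR hRn γ ⟨z, hz, w, hw, hd⟩
  refine SVM_mono ?_ (key n γ ⟨z, hz, w, hw, hd.trans hRn⟩)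
  gcongr
  omega

end Pool.Agent.QX
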