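import Pool.Agent.helper4.QX.SpecM
import Pool.Agent.helper62.RP.All
import Pool.Agent.helper62.QU.All
import Pool.Agent.helper11.QX.HAL
import Pool.Agent.helper11.QX.PVL
import Pool.Agent.helper11.QX.SWP
import Pool.Agent.helper11.QX.UZE
import Pool.Agent.helper13.QX.PRB
import Pool.Agent.helper17.QX.ALT
import Pool.Agent.helper17.QX.SPC
import Pool.Agent.helper27.QX.YNM
import Pool.Agent.helper28.QX.SP1
import Pool.Agent.helper30.QX.PNJ
import Pool.Agent.helper30.QX.PTN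
import Pool.Agent.helper31.QX.CHG
import Pool.Agent.helper31.QX.EXH
import Pool.Agent.helper32.QX.EXL
import Pool.Agent.helper32.QX.REM
import Pool.Agent.helper33.QX.KLF
import Pool.Agent.helper37.QX.GEN
import Pool.Agent.helper37.QX.PDX
import Pool.Agent.helper37.QX.SDE
import Pool.Agent.helper37.QX.SHF
import Pool.Agent.helper37.QX.VAN0
import Pool.Agent.helper4.QX.GKL
import Pool.Agent.helper4.QX.NEG
import Pool.Agent.helper4.QX.SVM
import Pool.Agent.helper40.QX.MRA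
import Pool.Agent.helper41.QX.WBA
import Pool.Agent.helper45.QX.SEP
import Pool.Agent.helper48.QX.FEP
import Pool.Agent.helper48.QX.NUM
import Pool.Agent.helper49.QX.EXW
import Pool.Agent.helper49.QX.LIQ
import Pool.Agent.helper5.QX.FEJ
import Pool.Agent.helper52.QX.FBE
import Pool.Agent.helper53.QX.SRK
import Pool.Agent.helper54.QX.PAN
import Pool.Agent.helper54.QX.TSF
import Pool.Agent.helper55.QX.TS1
import Pool.Agent.helper56.QX.COO
import Pool.Agent.helper56.QX.DFC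
import Pool.Agent.helper56.QX.IDS
import Pool.Agent.helper62.QX.GEX
import Pool.Agent.helper62.QX.LMQ
import Pool.Agent.helper62.QX.NTP
import Pool.Agent.helper62.QX.SCA
import Pool.Agent.helper63.QX.LPN
import Pool.Agent.helper63.QX.SF1
import Pool.Agent.helper63.QX.SUP
import Pool.Agent.helper64.QX.HV1
import Pool.Agent.helper64.QX.PLY
import Pool.Agent.helper64.QX.TTS
import Pool.Agent.helper68.QX.SEC
import Pool.Agent.helper68.QX.UTR
import Pool.Agent.helper70.QX.FRA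
import Pool.Agent.helper70.QX.HSN
import Pool.Agent.helper70.QX.ULP
import Pool.Agent.helper70.QX.XLP
import Pool.Agent.helper71.QX.DET
import Pool.Agent.helper72.QX.JZ
import Pool.Agent.helper72.QX.MRB
import Pool.Agent.helper72.QX.MRC
import Pool.Agent.helper72.QX.MUL
import Pool.Agent.helper72.QX.TCH
import Pool.Agent.helper74.QX.AKR
import Pool.Agent.helper74.QX.FEN
import Pool.Agent.helper75.QX.TAU
import Pool.Agent.helper78.QX.CVI
import Pool.Agent.helper8.QX.DSC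
import Pool.Agent.helper80.QX.EXS
import Pool.Agent.helper80.QX.GMO
import Pool.Agent.helper80.QX.INX
import Pool.Agent.helper80.QX.STN
import Pool.Agent.helper82.QX.LPA
import Pool.Agent.helper82.QX.ODE
import Pool.Agent.helper83.QX.MRD
import Pool.Agent.helper89.QX.HV0
import Pool.Agent.helper89.QX.HV2
import Pool.Agent.helper90.QX.BMP
import Pool.Agent.helper90.QX.DSQ
import Pool.Agent.helper92.QX.ULW
import Pool.Agent.helper97.QX.ALG
import Pool.Agent.helper98.QX.CONC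
import Pool.Agent.helper99.QX.CTJ
import Pool.Agent.helper99.QX.VAN
import Pool.Agent.helper99.QX.VRC

set_option autoImplicit false

/-! # Assembly of project QX (MP_07c750), theorem T2 -/

namespace Pool.Agent.QX

theorem A_ALT : ALT_stmt := ALT

theorem A_BMP : BMP_stmt := BMP

theorem A_CHG : CHG_stmt := CHG

theorem A_CON : CON_stmt := CON

theorem A_COO : COO_stmt := COO

theorem A_CVI : CVI_stmt := CVI

theorem A_DFC : DFC_stmt := DFC

theorem A_DSQ : DSQ_stmt := DSQ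

theorem A_FEJ : FEJ_stmt := FEJ

theorem A_FRA : FRA_stmt := FRA

theorem A_GMO : GMO_stmt := GMO

theorem A_HAL : HAL_stmt := HAL A_COO

theorem A_HSN : HSN_stmt := HSN A_FRA

theorem A_HV0 : HV0_stmt := HV0

theorem A_HV1 : HV1_stmt := HV1

theorem A_HV2 : HV2_stmt := HV2

theorem A_IDS : IDS_stmt := IDS

theorem A_INX : INX_stmt := INX

theorem A_JZ : JZ_stmt := JZ

theorem A_LIQ : LIQ_stmt := LIQ

theorem A_LMQ : LMQ_stmt := LMQ

theorem A_LPA : LPA_stmt := LPA A_CVI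

theorem A_MRA : MRA_stmt := MRA

theorem A_MRB : MRB_stmt := MRB

theorem A_MRC : MRC_stmt := MRC

theorem A_MRD : MRD_stmt := MRD

theorem A_MUL : MUL_stmt := MUL

theorem A_NTP : NTP_stmt := NTP A_MRA A_MRB A_MRC

theorem A_NUM : NUM_stmt := NUM

theorem A_ODE : ODE_stmt := ODE

theorem A_PDX : PDX_stmt := PDX

theorem A_PLY : PLY_stmt := PLY A_FEJ

theorem A_PNJ : PNJ_stmt := PNJ

theorem A_PTN : PTN_stmt := PTN

theorem A_PVL : PVL_stmt := PVL

theorem A_REM : REM_stmt := REM A_DSQ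

theorem A_SEP : SEP_stmt := SEP

theorem A_SHF : SHF_stmt := SHF

theorem A_SP1 : SP1_stmt := SP1

theorem A_SPC : SPC_stmt := SPC A_SP1

theorem A_STN : STN_stmt := STN A_GMO

theorem A_SVM : SVM_stmt := SVM

theorem A_SWP : SWP_stmt := SWP A_PVL

theorem A_TAU : TAU_stmt := TAU

theorem A_TCH : TCH_stmt := TCH

theorem A_TS1 : TS1_stmt := TS1

theorem A_TSF : TSF_stmt := TSF A_TS1

theorem A_TTS : TTS_stmt := TTS

theorem A_ULW : ULW_stmt := ULW

theorem A_UTR : UTR_stmt := UTR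

theorem A_VAN : VAN_stmt := VAN

theorem A_VRC : VRC_stmt := VRC

theorem A_XLP : XLP_stmt := XLP

theorem A_YNM : YNM_stmt := YNM

theorem A_CTJ : CTJ_stmt := CTJ A_TAU

theorem A_DSC : DSC_stmt := DSC A_UTR

theorem A_EXH : EXH_stmt := EXH Pool.Agent.RP.A_BAL A_MRA A_MRD

theorem A_EXS : EXS_stmt := EXS A_HSN A_INX

theorem A_FEP : FEP_stmt := FEP A_MUL A_ODE A_SWP A_SHF A_DFC

theorem A_GEX : GEX_stmt := GEX A_REM A_EXH A_TCH A_NTP

theorem A_GKL : GKL_stmt := GKL A_YNM A_CVI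

theorem A_PAN : PAN_stmt := PAN A_SPC A_YNM A_CVI

theorem A_SDE : SDE_stmt := SDE A_STN A_FRA A_PDX

theorem A_SEC : SEC_stmt := SEC A_GKL

theorem A_SF1 : SF1_stmt := SF1 Pool.Agent.RP.A_TST A_REM A_EXH A_TCH A_NTP A_MRB

theorem A_SRK : SRK_stmt := SRK A_YNM A_CVI

theorem A_ULP : ULP_stmt := ULP A_HSN A_XLP

theorem A_VAN0 : VAN0_stmt := VAN0 A_PNJ A_CTJ A_VRC

theorem A_WBA : WBA_stmt := WBA A_BMP A_YNM A_GKL A_SEC A_PAN A_PLY

theorem A_AKR : AKR_stmt := AKR A_SRK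

theorem A_FEN : FEN_stmt := FEN A_FEP A_COO A_CHG A_HV1

theorem A_GEN : GEN_stmt := GEN A_SDE A_TAU

theorem A_LPN : LPN_stmt := LPN A_MRB A_ULP

theorem A_SUP : SUP_stmt := SUP A_CON A_SF1 A_LPN

theorem A_UZE : UZE_stmt := UZE A_FEN A_HV0 A_HV1 A_HV2 A_HAL

theorem A_ALG : ALG_stmt := ALG A_UZE A_IDS

theorem A_EXL : EXL_stmt := EXL A_GEN A_TTS A_EXS A_VRC

theorem A_EXW : EXW_stmt := EXW A_EXL A_TTS A_JZ A_VAN0 A_ULW A_ALT

theorem A_KLU : KLU_stmt := KLF A_ALG

theorem A_NEG : NEG_stmt := NEG A_KLU A_SRK A_LPA A_AKR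

theorem A_SCU : SCU_stmt := SCA A_EXW A_TSF A_MRB A_NTP A_SUP A_GEX A_VAN A_NUM

theorem A_DET : DET_stmt := DET A_BMP A_YNM A_GKL A_WBA A_SRK A_LPA A_AKR A_DSC A_UTR A_NEG A_PTN A_LIQ

theorem A_PRB : PRB_stmt := PRB A_SCU A_LMQ A_DET A_SVM

theorem A_FBE : FBE_stmt := FBE A_PRB A_SEP

end Pool.Agent.QX
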