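import Pool.Agent.helper4.QX.SpecF
import Pool.Agent.helper71.QX.DETb

set_option autoImplicit false

/-! # Row EBF of project QX: finite dimensional approximation of the Lipschitz functions -/

open scoped MatrixGroups ContDiff Topology UpperHalfPlane
open UpperHalfPlane MeasureTheory ProbabilityTheory Filter Set Polynomial
open Pool.Agent.QU Pool.Agent.RP

namespace Pool.Agent.QX

theorem EBF_cosh {d : ℝ} (hd : 0 ≤ d) : d ^ 2 / 2 ≤ Real.cosh d - 1 := by
  have h1 : Real.cosh d = Real.cosh (d / 2) ^ 2 + Real.sinh (d / 2) ^ 2 := by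
    rw [← Real.cosh_two_mul]
    congr 1
    ring
  have h2 : Real.cosh (d / 2) ^ 2 = 1 + Real.sinh (d / 2) ^ 2 := Real.cosh_sq' _
  have h3 : d / 2 ≤ Real.sinh (d / 2) := Real.self_le_sinh_iff.2 (by linarith)
  have h4 : (d / 2) ^ 2 ≤ Real.sinh (d / 2) ^ 2 := pow_le_pow_left₀ (by linarith) h3 2
  have h5 : (d / 2) ^ 2 = d ^ 2 / 4 := by ring
  linarith

/-- the support of the kernel -/
theorem EBF_supp {κ₁ : ℝ → ℝ} {C : ℝ} (hB : BF κ₁ C) {η : ℝ} (hη : 0 < η) {z w : ℍ}
    (h : fm κ₁ η (tt z w) ≠ 0) : dist z w ≤ Real.sqrt (2 * η) := by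
  apply Real.le_sqrt_of_sq_le
  have h1 : tt z w < η := by
    by_contra hc
    exact h (hB.fam.supp η hη _ (not_lt.1 hc))
  rw [A_TTT.1] at h1
  have h2 := EBF_cosh (dist_nonneg (x := z) (y := w))
  linarith

section

variable {E : Type} [NormedAddCommGroup E] [NormedSpace ℝ E]

/-- integrability of the convolution integrand -/
theorem EBF_int {κ₁ : ℝ → ℝ} {C : ℝ} (hB : BF κ₁ C) {η : ℝ} (hη : 0 < η) (z : ℍ) {f : ℍ → E}
    (hf : StronglyMeasurable f) {m : ℝ} (hm : ∀ z, ‖f z‖ ≤ m) :
    Integrable fun w => fm κ₁ η (tt z w) • f w := by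
  have i1 : Integrable fun w => fm κ₁ η (tt z w) := by
    by_contra hn
    have h1 := hB.fam.mass η hη z
    rw [integral_undef hn] at h1
    exact zero_ne_one h1
  refine (i1.norm.mul_const m).mono' ?_ (Eventually.of_forall fun w => ?_)
  · exact i1.aestronglyMeasurable.smul hf.aestronglyMeasurable
  · rw [norm_smul]
    exact mul_le_mul_of_nonneg_left (hm w) (norm_nonneg _)

/-- the convolution against the mass one kernel as a mean -/
theorem EBF_mean [CompleteSpace E] {κ₁ : ℝ → ℝ} {C : ℝ} (hB : BF κ₁ C) {η : ℝ} (hη : 0 < η) (z : ℍ) {f : ℍ → E}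
    (hf : StronglyMeasurable f) {m : ℝ} (hm : ∀ z, ‖f z‖ ≤ m) (x : E) {e : ℝ}
    (he : ∀ w, fm κ₁ η (tt z w) ≠ 0 → ‖x - f w‖ ≤ e) : ‖x - conv (fm κ₁ η) f z‖ ≤ e := by
  have i1 : Integrable fun w => fm κ₁ η (tt z w) := by
    by_contra hn
    have h1 := hB.fam.mass η hη z
    rw [integral_undef hn] at h1
    exact zero_ne_one h1
  have i2 := EBF_int hB hη z hf hm
  have e1 : x - conv (fm κ₁ η) f z = ∫ w : ℍ, fm κ₁ η (tt z w) • (x - f w) := by
    have h1 : x = ∫ w : ℍ, fm κ₁ η (tt z w) • x := by
      rw [integral_smul_const, hB.fam.mass η hη z, one_smul]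
    conv_lhs => rw [h1]
    unfold conv
    rw [← integral_sub (i1.smul_const x) i2]
    refine integral_congr_ae (Eventually.of_forall fun w => ?_)
    simp only [smul_sub]
  rw [e1]
  have h2 : ∀ w, ‖fm κ₁ η (tt z w) • (x - f w)‖ ≤ fm κ₁ η (tt z w) * e := by
    intro w
    have h0 : 0 ≤ fm κ₁ η (tt z w) := hB.fam.nonneg η hη _
    rw [norm_smul, Real.norm_eq_abs, abs_of_nonneg h0]
    by_cases hz : fm κ₁ η (tt z w) = 0
    · rw [hz, zero_mul, zero_mul]
    · exact mul_le_mul_of_nonneg_left (he w hz) h0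
  refine (norm_integral_le_of_norm_le (i1.mul_const e) (Eventually.of_forall h2)).trans (le_of_eq ?_)
  rw [integral_mul_const, hB.fam.mass η hη z, one_mul]

end

theorem EBF (hBMP : BMP_stmt) (hPTN : PTN_stmt) (hLIQ : LIQ_stmt) (hEDM : EDM_stmt) : EBF_stmt := by
  classical
  intro Γ F hΓ hF
  obtain ⟨κ₁, C₁, hB⟩ := hBMP
  obtain ⟨AP, hAP, hpt⟩ := hPTN Γ F hF
  obtain ⟨AL, hAL, hli⟩ := hLIQ κ₁ C₁ hB Γ F hΓ hF
  obtain ⟨m, hm1, hm⟩ := hEDM Γ F hΓ hF
  obtain ⟨hct, -, hvol0, hvol, -, -⟩ := A_DOB Γ F hΓ hF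
  set V : ℝ := (volume F).toReal with hV
  have hV0 : 0 < V := ENNReal.toReal_pos hvol0.ne' hvol.ne
  set A : ℝ := AP + m * (AL * Real.sqrt V + 2) + 6 with hA
  have hs0 : 0 ≤ Real.sqrt V := Real.sqrt_nonneg _
  have hmA : 0 ≤ m * (AL * Real.sqrt V + 2) := by positivity
  refine ⟨A, by rw [hA]; linarith, fun r hr hr1 => ?_⟩
  obtain ⟨k, c, pt, hk, hcm, hpc, hcu, hcd, hdiam⟩ := hpt r hr hr1
  set η : ℝ := r ^ 2 with hη
  have hη0 : 0 < η := by positivity
  have hη1 : η ≤ 1 := pow_le_one₀ hr.le hr1
  -- the cell indicators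
  have hE : ∀ i : Fin k, ∃ E : ℍ → ℂ, SecB (1 : Γ →* (ℂ ≃ₗᵢ[ℂ] ℂ)) E ∧
      ∀ j, ∀ z ∈ c j, E z = (if j = i then 1 else 0 : ℂ) := by
    intro i
    exact DET_cell hF hct 1 c hcm hcu hcd (fun j => (if j = i then 1 else 0 : ℂ))
  choose E hEB hEc using hE
  have hEinv : ∀ i (γ : Γ) z, E i (γ • z) = E i z := fun i γ z => by
    rw [(hEB i).eqv γ z]
    rfl
  -- values
  have hval : ∀ z : ℍ, ∃ j : Fin k, (∀ i, E i z = (if j = i then 1 else 0 : ℂ)) ∧ ∃ γ : Γ, γ • z ∈ c j := by
    intro z
    obtain ⟨γ, hγ, -⟩ := hF.uniq z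
    have h1 : γ • z ∈ F := hγ
    rw [← hcu] at h1
    obtain ⟨j, hj⟩ := mem_iUnion.1 h1
    refine ⟨j, fun i => ?_, γ, hj⟩
    rw [← hEinv i γ z]
    exact hEc i j _ hj
  have hEn : ∀ i z, ‖E i z‖ ≤ 1 := by
    intro i z
    obtain ⟨j, hj, -⟩ := hval z
    rw [hj i]
    split_ifs <;> simp
  have hEI : ∀ i, ∫ z in F, ‖E i z‖ ^ 2 ≤ V := by
    intro i
    have h1 : ∫ z in F, ‖E i z‖ ^ 2 ≤ ∫ z in F, (1 : ℝ) := by
      refine setIntegral_mono_on ?_ (integrableOn_const hvol.ne) hF.meas fun z _ => ?_
      · refine Measure.integrableOn_of_bounded (M := 1) hvol.ne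
          ((hEB i).meas.norm.pow 2).aestronglyMeasurable (Eventually.of_forall fun z => ?_)
        rw [Real.norm_eq_abs, abs_of_nonneg (by positivity)]
        exact pow_le_one₀ (norm_nonneg _) (hEn i z)
      · exact pow_le_one₀ (norm_nonneg _) (hEn i z)
    refine h1.trans (le_of_eq ?_)
    rw [setIntegral_const, smul_eq_mul, mul_one]
    rfl
  set L : ℝ := AL / η ^ 2 * Real.sqrt V + 2 with hL
  have hL2 : 2 ≤ L := by
    rw [hL]
    have : 0 ≤ AL / η ^ 2 * Real.sqrt V := by positivity
    linarith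
  have hL0 : 0 < L := by linarith
  -- the smooth functions
  set X : Fin k → ℍ → ℝ := fun i z => (conv (fm κ₁ η) (E i) z).re with hX
  have hXn : ∀ i z, ‖conv (fm κ₁ η) (E i) z‖ ≤ 1 := by
    intro i z
    have := EBF_mean hB hη0 z (hEB i).meas (hEn i) 0 (e := 1) (fun w _ => by
      rw [zero_sub, norm_neg]
      exact hEn i w)
    rwa [zero_sub, norm_neg] at this
  have hXlip : ∀ i z w, |X i z - X i w| ≤ L * dist z w := by
    intro i z w
    have h1 : |X i z - X i w| ≤ ‖conv (fm κ₁ η) (E i) z - conv (fm κ₁ η) (E i) w‖ := by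
      rw [hX]
      simp only
      rw [← Complex.sub_re]
      exact Complex.abs_re_le_norm _
    rcases le_total (dist z w) 1 with hd | hd
    · refine h1.trans ((hli ℂ 1 (E i) η z w hη0 hη1 (hEB i) hd).trans ?_)
      have h2 : Real.sqrt (∫ z in F, ‖E i z‖ ^ 2) ≤ Real.sqrt V := Real.sqrt_le_sqrt (hEI i)
      have h3 : AL / η ^ 2 * dist z w * Real.sqrt (∫ z in F, ‖E i z‖ ^ 2) ≤
          AL / η ^ 2 * dist z w * Real.sqrt V := mul_le_mul_of_nonneg_left h2 (by positivity)
      refine h3.trans ?_
      rw [hL]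
      have : 0 ≤ dist z w := dist_nonneg
      nlinarith
    · refine h1.trans ((norm_sub_le _ _).trans ?_)
      have h2 := hXn i z
      have h3 := hXn i w
      have h4 : 2 * 1 ≤ L * dist z w := mul_le_mul hL2 hd zero_le_one hL0.le
      linarith
  have hXinv : ∀ i (γ : Γ) z, X i (γ • z) = X i z := by
    intro i γ z
    rw [hX]
    simp only
    rw [A_EQV Γ ℂ 1 (fm κ₁ η) (E i) (hEB i).eqv γ z]
    rfl
  have hXc : ∀ i, Continuous (X i) := by
    intro i
    have h1 : LipschitzWith (Real.toNNReal L) (X i) := LipschitzWith.of_dist_le_mul fun z w => by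
      rw [Real.dist_eq, Real.coe_toNNReal _ hL0.le]
      exact hXlip i z w
    exact h1.continuous
  have hXi : ∀ i, IntegrableOn (X i) F := by
    intro i
    refine Measure.integrableOn_of_bounded (M := 1) hvol.ne (hXc i).aestronglyMeasurable
      (Eventually.of_forall fun z => ?_)
    rw [Real.norm_eq_abs]
    exact (Complex.abs_re_le_norm _).trans (hXn i z)
  set M : Fin k → ℝ := fun i => (∫ z in F, X i z) / V with hM
  refine ⟨k, fun i z => (X i z - M i) / L, ?_, fun i => ⟨?_, ?_, ?_⟩, fun h hh => ?_⟩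
  · refine hk.trans ?_
    refine div_le_div_of_nonneg_right ?_ (by positivity)
    rw [hA]
    linarith
  · intro γ z
    simp only [hXinv i γ z]
  · intro z w
    have e : (X i z - M i) / L - (X i w - M i) / L = (X i z - X i w) / L := by ring
    rw [e, abs_div, abs_of_pos hL0, div_le_iff₀ hL0, mul_comm]
    exact hXlip i z w
  · rw [integral_div, integral_sub (hXi i) (integrableOn_const hvol.ne), setIntegral_const, smul_eq_mul]
    have : (volume.real F) * M i = ∫ z in F, X i z := by
      show V * ((∫ z in F, X i z) / V) = _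
      field_simp
    rw [this, sub_self, zero_div]
  · have hmh : ∀ z, |h z| ≤ m := hm h hh
    refine ⟨fun i => L * h (pt i), fun i => ?_, fun z => ?_⟩
    · rw [abs_mul, abs_of_pos hL0]
      have h1 : L ≤ (AL * Real.sqrt V + 2) / r ^ 6 := by
        rw [hL, hη, add_div]
        refine add_le_add ?_ ?_
        · rw [div_mul_eq_mul_div]
          refine div_le_div_of_nonneg_left (by positivity) (by positivity) ?_
          rw [← pow_mul]
          exact pow_le_pow_of_le_one hr.le hr1 (by norm_num)
        · rw [le_div_iff₀ (by positivity)]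
          have : r ^ 6 ≤ 1 := pow_le_one₀ hr.le hr1
          linarith
      have h2 : L * |h (pt i)| ≤ (AL * Real.sqrt V + 2) / r ^ 6 * m :=
        mul_le_mul h1 (hmh _) (abs_nonneg _) (by positivity)
      refine h2.trans ?_
      rw [div_mul_eq_mul_div]
      refine div_le_div_of_nonneg_right ?_ (by positivity)
      rw [hA]
      linarith
    · -- the approximation
      set H : ℍ → ℝ := fun z => ∑ i, h (pt i) * X i z with hH
      set e : ℝ := Real.sqrt (2 * η) + r with he
      have happ : ∀ z, |h z - H z| ≤ e := by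
        intro z
        have hf : StronglyMeasurable fun w => ∑ i, (h (pt i) : ℂ) * E i w := by
          exact Finset.stronglyMeasurable_fun_sum Finset.univ fun i _ =>
            (stronglyMeasurable_const (b := (h (pt i) : ℂ))).mul (hEB i).meas
        have hfb : ∀ w, ‖∑ i, (h (pt i) : ℂ) * E i w‖ ≤ ∑ _i : Fin k, m := by
          intro w
          refine (norm_sum_le _ _).trans (Finset.sum_le_sum fun i _ => ?_)
          rw [norm_mul, Complex.norm_real, Real.norm_eq_abs]
          have := mul_le_mul (hmh (pt i)) (hEn i w) (norm_nonneg _) (by linarith)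
          linarith
        have h1 := EBF_mean hB hη0 z hf hfb (h z : ℂ) (e := e) (fun w hw => by
          obtain ⟨j, hj, γ, hγ⟩ := hval w
          have e1 : ∑ i, (h (pt i) : ℂ) * E i w = (h (pt j) : ℂ) := by
            simp only [hj]
            simp
          rw [e1, ← Complex.ofReal_sub, Complex.norm_real, Real.norm_eq_abs]
          have h2 : |h z - h w| ≤ Real.sqrt (2 * η) := (hh.lip z w).trans (EBF_supp hB hη0 hw)
          have h3 : |h w - h (pt j)| ≤ r := by
            rw [← hh.inv γ w]
            exact (hh.lip _ _).trans (hdiam j _ hγ _ (hpc j))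
          have h4 := abs_sub_le (h z) (h w) (h (pt j))
          rw [he]
          linarith)
        have e2 : conv (fm κ₁ η) (fun w => ∑ i, (h (pt i) : ℂ) * E i w) z =
            ∑ i, (h (pt i) : ℂ) * conv (fm κ₁ η) (E i) z := by
          unfold conv
          have e3 : ∀ w, fm κ₁ η (tt z w) • ∑ i, (h (pt i) : ℂ) * E i w =
              ∑ i, (h (pt i) : ℂ) * (fm κ₁ η (tt z w) • E i w) := by
            intro w
            rw [Finset.smul_sum]
            refine Finset.sum_congr rfl fun i _ => ?_
            rw [mul_smul_comm]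
          simp only [e3]
          rw [integral_finsetSum _ fun i _ => (EBF_int hB hη0 z (hEB i).meas (hEn i)).const_mul _]
          refine Finset.sum_congr rfl fun i _ => ?_
          rw [integral_const_mul]
        rw [e2] at h1
        have e4 : h z - H z = ((h z : ℂ) - ∑ i, (h (pt i) : ℂ) * conv (fm κ₁ η) (E i) z).re := by
          rw [Complex.sub_re, Complex.re_sum, Complex.ofReal_re]
          congr 1
          refine Finset.sum_congr rfl fun i _ => ?_
          rw [Complex.re_ofReal_mul]
        rw [e4]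
        exact (Complex.abs_re_le_norm _).trans h1
      have hHi : IntegrableOn H F := by
        rw [hH]
        exact integrable_finsetSum _ fun i _ => (hXi i).const_mul _
      have hhi : IntegrableOn h F := by
        refine Measure.integrableOn_of_bounded (M := m) hvol.ne hh.Inv.1.aestronglyMeasurable
          (Eventually.of_forall fun z => ?_)
        rw [Real.norm_eq_abs]
        exact hmh z
      have hmean : |∑ i, h (pt i) * M i| ≤ e := by
        have e1 : ∑ i, h (pt i) * M i = (∫ z in F, (H z - h z)) / V := by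
          rw [integral_sub hHi hhi, hh.mean, sub_zero, hH]
          simp only
          rw [integral_finsetSum _ fun i _ => (hXi i).const_mul _, Finset.sum_div]
          refine Finset.sum_congr rfl fun i _ => ?_
          rw [integral_const_mul, hM]
          simp only
          ring
        rw [e1, abs_div, abs_of_pos hV0, div_le_iff₀ hV0]
        have h1 : ‖∫ z in F, (H z - h z)‖ ≤ e * volume.real F := by
          refine norm_setIntegral_le_of_norm_le_const hvol (fun z _ => ?_)
          rw [Real.norm_eq_abs, abs_sub_comm]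
          exact happ z
        exact h1
      have e5 : h z - ∑ i, L * h (pt i) * ((X i z - M i) / L) = (h z - H z) + ∑ i, h (pt i) * M i := by
        have e6 : ∀ i, L * h (pt i) * ((X i z - M i) / L) = h (pt i) * X i z - h (pt i) * M i := by
          intro i
          field_simp
        simp only [e6]
        rw [Finset.sum_sub_distrib, hH]
        simp only
        ring
      rw [e5]
      have h7 := abs_add_le (h z - H z) (∑ i, h (pt i) * M i)
      have h8 : e ≤ 3 * r := by
        have h9 : Real.sqrt (2 * η) ≤ 2 * r := by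
          apply Real.sqrt_le_iff.2
          refine ⟨by positivity, ?_⟩
          rw [hη]
          nlinarith [sq_nonneg r]
        rw [he]
        linarith
      have h10 : 6 * r ≤ A * r := by
        refine mul_le_mul_of_nonneg_right ?_ hr.le
        rw [hA]
        linarith
      have := happ z
      linarith

end Pool.Agent.QX
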