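import Pool.Agent.helper4.QX.SpecF
import Pool.Agent.helper4.QX.NEG

set_option autoImplicit false

/-! # Row ENG of project QX: the kernel is almost negative, explicit constant -/

open scoped MatrixGroups ContDiff Topology UpperHalfPlane
open UpperHalfPlane MeasureTheory ProbabilityTheory Filter Set Polynomial
open Pool.Agent.QU Pool.Agent.RP

namespace Pool.Agent.QX

theorem ENG_core (hSRK : SRK_stmt) (hLPA : LPA_stmt) (hAKR : AKR_stmt) {κ₁ : ℝ → ℝ} {C₁ : ℝ} (hB : BF κ₁ C₁)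
    {Γ : Subgroup SL(2, ℝ)} {F : Set ℍ} {h : ℍ → ℝ} (hS : SurfaceGroup Γ) (hF : NiceDom Γ F) (hh : Inv Γ h)
    {δ C : ℝ}
    (hC : ∀ (μ : ℝ) (u : ℍ → ℝ), 0 ≤ μ → CD ∞ u → HasCompactSupport u →
      ∫ z : ℍ, h z * u z ^ 2 ≤ δ * (∫ z : ℍ, u z ^ 2) +
        C * wt μ * ∫ z : ℍ, (lap u z - μ * u z) ^ 2) :
    ∀ (μ₀ τ η : ℝ) (p : ℝ[X]), 0 ≤ μ₀ → 0 < τ → τ ≤ 1 → 0 < η → η ≤ 1 →
    ∀ f : ℍ → ℝ, StronglyMeasurable f → (∃ m : ℝ, ∀ z, |f z| ≤ m) → HasCompactSupport f →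
      (∫ z : ℍ, ∫ w : ℍ, (aS (fun v => h v - δ) (Sk (fm κ₁ τ) p (fm κ₁ η) (fm κ₁ η)) z w -
        C * wt μ₀ * aS (fun _ => 1)
          (Sk (fm κ₁ τ) p (fun t => LL (fm κ₁ η) t - μ₀ * fm κ₁ η t) (fm κ₁ η)) z w) * (f z * f w)) ≤ 0 := by
  intro μ₀ τ η p hμ₀ hτ hτ1 hη hη1 f hf hfb hfs
  obtain ⟨m, hm⟩ := hfb
  have hrkκ : RK (fm κ₁ τ) := hB.fam.rk τ hτ
  have hrka : RK (fm κ₁ η) := hB.fam.rk η hη
  obtain ⟨-, -, -, hrkL, hrkc⟩ := Pool.Agent.QU.A_LAK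
  have hrkl : RK (fun t => LL (fm κ₁ η) t - μ₀ * fm κ₁ η t) := by
    have h1 := hrkc (LL (fm κ₁ η)) (fm κ₁ η) 1 (-μ₀) (hrkL _ hrka) hrka
    have h2 : (fun t => 1 * LL (fm κ₁ η) t + (-μ₀) * fm κ₁ η t) =
        fun t => LL (fm κ₁ η) t - μ₀ * fm κ₁ η t := by
      funext t; ring
    rwa [h2] at h1
  obtain ⟨hS1c, hS1i, hS1s, hS1r⟩ := hSRK (fm κ₁ τ) (fm κ₁ η) (fm κ₁ η) p hrkκ hrka hrka
  obtain ⟨hS2c, hS2i, hS2s, hS2r⟩ := hSRK (fm κ₁ τ) (fun t => LL (fm κ₁ η) t - μ₀ * fm κ₁ η t)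
    (fm κ₁ η) p hrkκ hrkl hrka
  have hz : ∀ t, η ≤ t → fm κ₁ η t = 0 := fun t ht => hB.fam.supp η hη t ht
  have hzl : ∀ t, η ≤ t → LL (fm κ₁ η) t - μ₀ * fm κ₁ η t = 0 := by
    intro t ht
    rw [NEG_LL _ hrka.smooth η hz t ht, hz t ht]
    ring
  set S₁ := Sk (fm κ₁ τ) p (fm κ₁ η) (fm κ₁ η) with hS₁
  set S₂ := Sk (fm κ₁ τ) p (fun t => LL (fm κ₁ η) t - μ₀ * fm κ₁ η t) (fm κ₁ η) with hS₂
  set R : ℝ := 2 * (p.natDegree * Real.sqrt τ + 2) with hR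
  have hp1 := hS1s τ η hτ.le hτ1 hη.le hη1 (fun t ht => hB.fam.supp τ hτ t ht) hz hz
  have hp2 := hS2s τ η hτ.le hτ1 hη.le hη1 (fun t ht => hB.fam.supp τ hτ t ht) hzl hz
  have hInvH : Inv Γ (fun v => h v - δ) := ⟨hh.1.sub continuous_const, fun γ z => by
    simp only [hh.2 γ z]⟩
  have hInv1 : Inv Γ (fun _ => (1 : ℝ)) := ⟨continuous_const, fun _ _ => rfl⟩
  obtain ⟨hPa, -, -, hfa⟩ := hAKR Γ F (fun v => h v - δ) S₁ R hS hF hInvH hS1c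
    (fun γ z v => hS1i (γ : SL(2, ℝ)) z v) hp1
  obtain ⟨hPb, -, -, hfb⟩ := hAKR Γ F (fun _ => (1 : ℝ)) S₂ R hS hF hInv1 hS2c
    (fun γ z v => hS2i (γ : SL(2, ℝ)) z v) hp2
  -- the function u
  have hfm' : ∃ m : ℝ, ∀ z, ‖f z‖ ≤ m := ⟨m, hm⟩
  obtain ⟨hQc, hrep1⟩ := hS1r ℝ f hf hfm'
  obtain ⟨-, hrep2⟩ := hS2r ℝ f hf hfm'
  set χ : ℍ → ℝ := conv (fm κ₁ η) f with hχ
  have hχs : HasCompactSupport χ := (Pool.Agent.QU.A_CVB ℝ).2.2.2.2.1 _ f hrka hfs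
  obtain ⟨hCD, hcs, hlap⟩ := hLPA ℝ (fm κ₁ τ) (fm κ₁ η) p μ₀ χ hrkκ hrka hQc
  set u : ℍ → ℝ := pA (fm κ₁ τ) p (conv (fm κ₁ η) χ) with hu
  have hcu := hcs hχs
  have hKL := hC μ₀ u hμ₀ hCD hcu
  have hpa := NEG_pint _ hPa.cont f hf m hm hfs
  have hpb := NEG_pint _ hPb.cont f hf m hm hfs
  have hsplit : (∫ z : ℍ, ∫ w : ℍ, (aS (fun v => h v - δ) S₁ z w -
      C * wt μ₀ * aS (fun _ => 1) S₂ z w) * (f z * f w)) =
      (∫ z : ℍ, ∫ w : ℍ, aS (fun v => h v - δ) S₁ z w * (f z * f w)) -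
      C * wt μ₀ * ∫ z : ℍ, ∫ w : ℍ, aS (fun _ => 1) S₂ z w * (f z * f w) := by
    have h1 := integral_integral_sub hpa (hpb.const_mul (C * wt μ₀))
    have h2 : (∫ z : ℍ, ∫ w : ℍ, C * wt μ₀ * (aS (fun _ => 1) S₂ z w * (f z * f w))) =
        C * wt μ₀ * ∫ z : ℍ, ∫ w : ℍ, aS (fun _ => 1) S₂ z w * (f z * f w) := by
      rw [← integral_const_mul]
      congr 1
      funext z
      rw [integral_const_mul]
    simp only at h1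
    rw [h2] at h1
    rw [← h1]
    congr 1
    funext z
    congr 1
    funext w
    ring
  rw [hsplit, hfa f hf ⟨m, hm⟩ hfs, hfb f hf ⟨m, hm⟩ hfs]
  have e1 : ∀ v, (∫ z : ℍ, S₁ z v * f z) = u v := fun v => by
    rw [hrep1 v]; rfl
  have e2 : ∀ v, (∫ z : ℍ, S₂ z v * f z) = lap u v - μ₀ * u v := fun v => by
    have h1 := hlap v
    rw [hrep2 v] at h1
    simp only [smul_eq_mul] at h1
    rw [h1]
  simp only [e1, e2, one_mul]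
  have hcont : Continuous u := by
    obtain ⟨c0, c1, -⟩ := Pool.Agent.QU.A_CA1 ℝ
    exact (c0 u).1 (c1 u 0 ∞ (by simp) hCD)
  have hi1 : Integrable (fun v => h v * u v ^ 2) := by
    refine Continuous.integrable_of_hasCompactSupport (hh.1.mul (hcont.pow 2)) ?_
    refine HasCompactSupport.mul_left ?_
    exact hcu.comp_left (g := fun x : ℝ => x ^ 2) (by simp)
  have hi2 : Integrable (fun v => δ * u v ^ 2) := by
    refine Continuous.integrable_of_hasCompactSupport (continuous_const.mul (hcont.pow 2)) ?_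
    refine HasCompactSupport.mul_left ?_
    exact hcu.comp_left (g := fun x : ℝ => x ^ 2) (by simp)
  have e3 : (∫ v : ℍ, (h v - δ) * u v ^ 2) = (∫ v : ℍ, h v * u v ^ 2) - δ * ∫ v : ℍ, u v ^ 2 := by
    rw [← integral_const_mul, ← integral_sub hi1 hi2]
    congr 1
    funext v
    ring
  rw [e3]
  linarith

theorem ENG (hSRK : SRK_stmt) (hLPA : LPA_stmt) (hAKR : AKR_stmt) (hEKY : EKY_stmt) : ENG_stmt := by
  obtain ⟨K, hK⟩ := hEKY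
  refine ⟨K, fun κ₁ C₁ hB Γ F hS hF => ?_⟩
  obtain ⟨A, hA, hA'⟩ := hK Γ F hS hF
  refine ⟨A, hA, fun h hh δ hδ hδ1 => ?_⟩
  exact ENG_core hSRK hLPA hAKR hB hS hF hh.Inv (hA' h hh δ hδ hδ1)

end Pool.Agent.QX
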