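import Pool.Agent.helper4.QX.SpecE
import Pool.Agent.helper33.QX.SpecA
import Pool.Agent.helper62.QU.All

set_option autoImplicit false

/-!
# Project QX (MP_07c750), part F: rates of equidistribution. Rows `qf:X`

Prove `X_stmt` in `Pool/Agent/<seat>/QX/X.lean` (import this file), namespace `Pool.Agent.QX`, auxiliary lemmas prefixed `X_`.
The theorem has the rows listed after the word from as hypotheses, in this order. All theorems `Pool.Agent.QU.A_XXX` of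
`Pool.Agent.helper62.QU.All` (imported here) and `Pool.Agent.RP.A_XXX` of `Pool.Agent.helper62.RP.All` may be used freely.
Theorems whose proof is to be adapted are named in the comments (copy the file, rename the lemmas).

Aim: power savings. For the flat bundles resp. covers of theorems T2, T1 ALL (new) eigensections satisfy
`|∫ h ‖φ‖² - mean(h) ∫ ‖φ‖²| ≤ n^(-c) ∫ ‖φ‖²` for ALL invariant `h` with `|h z - h w| ≤ dist z w` at once, i.e. the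
Wasserstein distance `W₁` of `‖φ‖²` to the uniform measure is `≤ n^(-c)`. So the key inequality is needed with the
constant `A/δ^K` where `K` is universal (independent of `Γ`, `F`, `h`) and `A` independent of `h`, and all the
rows after it have polynomial constants. NOTE THE ORDER OF THE QUANTIFIERS (`∃ K, ∀ Γ F, ∃ A, ∀ h ...`).
-/

open scoped MatrixGroups ContDiff Topology UpperHalfPlane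
open UpperHalfPlane MeasureTheory ProbabilityTheory Filter Set Polynomial
open Pool.Agent.QU Pool.Agent.RP

namespace Pool.Agent.QX

/-- invariant functions with Lipschitz constant `1` and mean zero -/
structure Lip1 (Γ : Subgroup SL(2, ℝ)) (F : Set ℍ) (h : ℍ → ℝ) : Prop where
  inv : ∀ (γ : Γ) (z : ℍ), h (γ • z) = h z
  lip : ∀ z w : ℍ, |h z - h w| ≤ dist z w
  mean : ∫ z in F, h z = 0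

theorem Lip1.Inv {Γ : Subgroup SL(2, ℝ)} {F : Set ℍ} {h : ℍ → ℝ} (hh : Lip1 Γ F h) : Inv Γ h := by
  refine ⟨?_, hh.inv⟩
  have h1 : LipschitzWith 1 h := LipschitzWith.of_dist_le_mul fun z w => by
    rw [Real.dist_eq, NNReal.coe_one, one_mul]
    exact hh.lip z w
  exact h1.continuous

theorem Lip1.neg {Γ : Subgroup SL(2, ℝ)} {F : Set ℍ} {h : ℍ → ℝ} (hh : Lip1 Γ F h) :
    Lip1 Γ F (fun z => -h z) := by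
  refine ⟨fun γ z => by rw [hh.inv γ z], fun z w => ?_, ?_⟩
  · have e : -h z - -h w = -(h z - h w) := by ring
    rw [e, abs_neg]
    exact hh.lip z w
  · rw [integral_neg, hh.mean, neg_zero]

/-- `conv (fm η) (conv (fm η) f)` -/
noncomputable def BB (κ₁ : ℝ → ℝ) (η : ℝ) (f : ℍ → ℝ) : ℍ → ℝ := conv (fm κ₁ η) (conv (fm κ₁ η) f)

/-! ### The Poisson equation with bounds -/

/-- **Row EDM** (short). `F ⊆ K` compact, `D = diam K`; `F` is not empty, `0 < vol F < ∞` (A_DOB). For `z` in `F`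
`vol(F) h(z) = ∫_F (h(z) - h(w)) dw`, so `|h z| ≤ D`; other `z` by invariance (`NiceDom.uniq`). -/
def EDM_stmt : Prop := ∀ (Γ : Subgroup SL(2, ℝ)) (F : Set ℍ), SurfaceGroup Γ → NiceDom Γ F →
  ∃ m : ℝ, 1 ≤ m ∧ ∀ h : ℍ → ℝ, Lip1 Γ F h → ∀ z, |h z| ≤ m

/-- **Row EMX** (medium; Doeblin). `P = conv (fm κ₁ 1)`, a Markov operator (`Fam.mass`, `Fam.nonneg`), maps `Inv` to `Inv` (A_CVB) and
preserves `∫_F` (A_SYC with `g = 1`). `fm κ₁ 1 ≥ c₁ > 0` on `t ≤ 1/2` (`Fam.pos`, continuity), so there is `r > 0` with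
`P u(z) ≥ c₁ ∫_{B(z,r)} u` for `u ≥ 0` in `Inv` (A_TTT: `t = cosh d - 1`). Claim: for all `i` there is `c_i > 0` with `P^(2^i) u(z) ≥ c_i ∫_{B(z,R_i)} u`,
`R_i = (2^i + 1) r/2`: `P^(2^(i+1)) u(z) ≥ c_i² ∫_{w ∈ B(z,R_i)} ∫_{v ∈ B(w,R_i)} u(v) = c_i² ∫ u(v) vol(B(z,R_i) ∩ B(v,R_i)) dv`, and if
`d(z,v) ≤ 2R_i - r/2 = R_(i+1)`, then the intersection contains the ball of radius `r/4` around a midpoint of `z`, `v`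
(`SVM_mid` of Pool/Agent/helper4/QX/SVM.lean; closed balls have finite positive volume independent of the centre: A_TTT
last clause, A_INV). For large `i` `F ⊆ B(z,R_i)` for all `z ∈ F`: `P^M u ≥ c ∫_F u` everywhere, `M = 2^i`, `0 < c vol(F) < 1`. Apply to
`m - f` and `m + f`: `|P^M f| ≤ (1 - c vol F) m` if `|f| ≤ m`, `∫_F f = 0`. Iterate; `θ = (1 - c vol F)^(1/M)`, `A = 1/(1 - c vol F)`. -/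
def EMX_stmt : Prop := ∀ (κ₁ : ℝ → ℝ) (C : ℝ), BF κ₁ C → ∀ (Γ : Subgroup SL(2, ℝ)) (F : Set ℍ),
  SurfaceGroup Γ → NiceDom Γ F → ∃ A θ : ℝ, 1 ≤ A ∧ 0 < θ ∧ θ < 1 ∧ ∀ (f : ℍ → ℝ) (m : ℝ), Inv Γ f →
  (∫ z in F, f z) = 0 → (∀ z, |f z| ≤ m) → ∀ j : ℕ, Inv Γ ((conv (fm κ₁ 1))^[j] f) ∧
    ∀ z, |(conv (fm κ₁ 1))^[j] f z| ≤ A * θ ^ j * m

/-- **Row EDC** (medium), from LIQ, EDM, EMX. `P = conv (fm κ₁ 1)`, `B = conv (fm κ₁ η)`. For `η > 1/4` take `g₀ = 0`, `|h| ≤ m ≤ 2m√η`. Let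
`η ≤ 1/4`. `ψ` of `Fam.psi` (`η := 1`, `η' := η`): `Δ conv ψ f = conv (LL ψ) f = B f - P f` (A_CVS, A_CVB (4)), `|conv ψ f| ≤ sup|f|/2`.
`f_J = ∑_{i<J} P^i h`, `g₀ = conv ψ f_J`. Then `f_J - P f_J = h - P^J h`, `Δ(B(B g₀)) = B(B(Δ g₀)) = B(B(B f_J - P f_J))` (A_CVS, A_COM), so
`h - Δ(BBg₀) = (h - BBh) + BB((f_J - B f_J) + P^J h)`. Here `|h - Bh| ≤ √(2η)`, as `fm κ₁ η (t(z,w)) ≠ 0` implies `d²/2 ≤ cosh d - 1 < η`;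
`|P^J h| ≤ A' θ^J m ≤ √η` for some `J` (EMX, EDM); `|f_J| ≤ A' m/(1-θ)` uniformly in `J`; LIQ (trivial representation on `V = ℂ`) for the bounded
functions `P^(i-1) h`: `|P^i h(z) - P^i h(w)| ≤ A'' dist z w · √vol(F) · A' θ^(i-1) m` if `dist z w ≤ 1`, so `|f_J - B f_J| ≤ L √(2η)`. -/
def EDC_stmt : Prop := ∀ (κ₁ : ℝ → ℝ) (C : ℝ), BF κ₁ C → ∀ (Γ : Subgroup SL(2, ℝ)) (F : Set ℍ),
  SurfaceGroup Γ → NiceDom Γ F → ∃ A : ℝ, 1 ≤ A ∧ ∀ h : ℍ → ℝ, Lip1 Γ F h → ∀ η : ℝ, 0 < η → η ≤ 1 →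
  ∃ g₀ : ℍ → ℝ, Inv Γ g₀ ∧ (∀ z, |g₀ z| ≤ A) ∧ ∀ z, |h z - lap (BB κ₁ η g₀) z| ≤ A * Real.sqrt η

/-- **Row EKF** (medium; explicit form of FRB of QU, adapt Pool/Agent/helper48/QU/FRB.lean). At `z₀ = i` (reduction by affine maps as
in FRB): the frame derivatives of order `≤ 2` of `z ↦ κ(t(z,w))` at `i` are `κ'(t)`, `κ''(t)` times functions of `w` which are
continuous, hence bounded on the compact set `{t(i,w) ≤ 1}`, outside which `κ`, `κ'`, `κ''` vanish. -/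
def EKF_stmt : Prop := ∃ A : ℝ, 1 ≤ A ∧ ∀ (κ : ℝ → ℝ) (M : ℝ), RK κ → (∀ t, 1 ≤ t → κ t = 0) →
  (∀ t, 0 ≤ t → |κ t| ≤ M ∧ |deriv κ t| ≤ M ∧ |deriv (deriv κ) t| ≤ M) →
  ∀ (g : ℍ → ℝ) (m : ℝ), Continuous g → (∀ z, |g z| ≤ m) → FB (conv κ g) (A * M * m)

/-- **Row EGB** (short-medium), from EKF. `κ = fm κ₁ η` and `LL κ` vanish on `[η,∞)` and they and their derivatives of order `≤ 2` are
`≤ A/η³` resp. `≤ A/η⁵` on `[0,∞)` (`κ₁` and its derivatives of order `≤ 4` are bounded on `[0,1]`). `|conv κ f| ≤ m`, and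
`lap (BB f) = conv (LL κ) (conv κ f)` (A_CVS). -/
def EGB_stmt : Prop := ∀ (κ₁ : ℝ → ℝ) (C : ℝ), BF κ₁ C → ∃ A : ℝ, 1 ≤ A ∧ ∀ (η : ℝ) (f : ℍ → ℝ) (m : ℝ), 0 < η →
  η ≤ 1 → Continuous f → (∀ z, |f z| ≤ m) →
    (∀ z, |BB κ₁ η f z| ≤ m) ∧ FB (BB κ₁ η f) (A / η ^ 5 * m) ∧ FB (lap (BB κ₁ η f)) (A / η ^ 5 * m)

/-! ### The key inequality with a polynomial constant -/

/-- **Row EHI** (short-medium), from UZE, IDS (of SpecA). This is what Pool/Agent/helper97/QX/ALG.lean proves (constant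
`11 C₀ (3(K+1))²`, linear in the `FB` constant `C₀`), for a function `g` instead of `conv κ f`. -/
def EHI_stmt : Prop := ∃ C₀ : ℝ, 0 ≤ C₀ ∧ ∀ (g : ℍ → ℝ) (C : ℝ), FB g C → FB (lap g) C →
  ∀ (u : ℍ → ℝ) (μ : ℝ), 5 / 4 ≤ μ → CD ∞ u → HasCompactSupport u →
  let a := ∫ z : ℍ, u z ^ 2
  let η := Real.sqrt (∫ z : ℍ, (lap u z - μ * u z) ^ 2)
  |∫ z : ℍ, lap g z * u z ^ 2| ≤
    C₀ * C * (Real.sqrt (Real.log (2 + μ) / Real.sqrt μ * (η * Real.sqrt a)) * Real.sqrt a + a / Real.sqrt μ)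

/-- **Row ESB** (short-medium; compare LIQ, Pool/Agent/helper49/QX/LIQ.lean). `|conv κ g z| ≤ M ∫_{t(z,w) ≤ 1} |g(w)| dw ≤
M √vol √(∫_{t(z,w) ≤ 1} g²)`, for `z ∈ F` the ball meets only boundedly many translates of `F` (A_DOB). Other `z`: invariance. -/
def ESB_stmt : Prop := ∀ (Γ : Subgroup SL(2, ℝ)) (F : Set ℍ), SurfaceGroup Γ → NiceDom Γ F → ∃ A : ℝ, 1 ≤ A ∧
  ∀ (κ : ℝ → ℝ) (g : ℍ → ℝ) (M : ℝ), RK κ → (∀ t, 1 ≤ t → κ t = 0) → (∀ t, 0 ≤ t → |κ t| ≤ M) → Inv Γ g →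
    ∀ z, |conv κ g z| ≤ A * M * Real.sqrt (∫ w in F, g w ^ 2)

/-- **Row EAB** (medium), from ESB. Quantitative form of ABS of QU (Pool/Agent/helper56/QU/ABS.lean). `k = fm κ₁ η`, `B = conv k`,
`A = conv (LL k)`; `p`, `q` of A_FUB: `δ(B g) = ∫_F p g`, `κ'(B g) = ∫_F q g` on `Inv`. `lap (BB f) = B(A f)` (A_CVS, A_COM), so
`δ(lap (BB f)) = ∫ (A p) f`, `δ(BB f) = ∫ (B p) f` (A_SYC), etc. The approximate relations at `f = B q` (first) and `f = B p` (second), and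
`∫ (Ap)(Bq) = ∫ (Bp)(Aq)`, give `∫ (Bp)² + 4R ∫ (Bq)² ≤ E (sup|Bp| + sup|Bq|)`. By ESB (`M = C'/η`, `C' = sup κ₁`)
`sup|Bp|² ≤ (A₁ M)² ∫ p² = (A₁ M)² δ(B p) ≤ (A₁ M)² N sup|Bp|`, so `sup|Bp| ≤ (A₁ M)² N`, the same for `q` (`κ'`). Finally
`|δ(BB f)| = |∫ (Bp) f| ≤ √(∫ (Bp)²) √vol(F)` for `|f| ≤ 1`, the same for `κ'`. Result: `≤ 2 vol(F) (A₁ C')² E N/η²`. -/
def EAB_stmt : Prop := ∀ (κ₁ : ℝ → ℝ) (C : ℝ), BF κ₁ C → ∀ (Γ : Subgroup SL(2, ℝ)) (F : Set ℍ),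
  SurfaceGroup Γ → NiceDom Γ F → ∃ A : ℝ, 1 ≤ A ∧ ∀ (η R N E : ℝ) (δ κ' : (ℍ → ℝ) → ℝ), 0 < η → η ≤ 1 → 0 ≤ R →
  0 ≤ N → 0 ≤ E → BFun Γ δ → BFun Γ κ' →
  (∀ (f : ℍ → ℝ) (m : ℝ), Inv Γ f → (∀ z, |f z| ≤ m) → |δ f| ≤ N * m ∧ |κ' f| ≤ N * m) →
  (∀ (f : ℍ → ℝ) (m : ℝ), Inv Γ f → (∀ z, |f z| ≤ m) →
    |δ (lap (BB κ₁ η f)) - (4 * R * κ' (BB κ₁ η f) + 4 * R * δ (BB κ₁ η f))| ≤ E * m ∧
    |κ' (lap (BB κ₁ η f)) - (4 * R * κ' (BB κ₁ η f) - δ (BB κ₁ η f))| ≤ E * m) →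
  ∀ f : ℍ → ℝ, Inv Γ f → (∀ z, |f z| ≤ 1) →
    δ (BB κ₁ η f) ^ 2 + 4 * R * κ' (BB κ₁ η f) ^ 2 ≤ A / η ^ 4 * (E * N)

/-- **Row ELO** (medium-long), from EGB, EAB. (`u` of class `CD ∞` is of class `CD 2`; A_IDN, A_REL.) `a = ∫u² > 0`, `N_f² = ∫(Δu-μu)²`, `R = μ - 1/4`,
`ε = N_f/√a`. If `ε² > t₀` the claim is trivial: `|∫ lap g u²| ≤ (A₁/η⁵) a ≤ (A₁/η⁵) N_f²/t₀` (`A₁` of EGB). Let `ε² ≤ t₀ ≤ 1`,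
`s = ε^(1/8)`, and suppose `s ≤ θη⁵/(C(1+μ)³)`, i.e. `t₀ = (θη⁵/(C(1+μ)³))^16`, `C` a large constant depending on `A₁` and the `A` of EAB only. IDN: `ND² + NX² ≤ (R+ε) a`,
`NX² ≤ N_f ND`; so `R ≥ -ε`, `ND² ≤ (1+μ) a`, `N_f + NX ≤ 2 s⁴ (1+μ) √a`. REL for `g = BB f`, `|f| ≤ m` (so `FB g (A₁ m/η⁵)`): the three
functionals `α(g) = ∫gu²/a`, `κ'(g) = ∫guDu/a`, `δ(g) = ∫g(Du)²/a - Rα(g)` satisfy `α(lap g) = -2δ(g) - 2κ'(g) + O(E)`,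
`δ(lap g) = 4Rκ'(g) + 4Rδ(g) + O(E)`, `κ'(lap g) = 4Rκ'(g) - δ(g) + O(E)`, `E = C' (A₁ m/η⁵)(1+μ)³ s⁴`; they are in `BFun Γ` with the bound `N = 2(1+μ)`.
Case `R ≥ s²`: EAB: `δ(g)² ≤ C''η⁻⁹(1+μ)⁴s⁴`, `κ'(g)² ≤` the same divided by `4R ≥ 4s²`; so `|α(lap g)| ≤ C η⁻⁵ (1+μ)³ s ≤ θ`. Case `-ε ≤ R < s²`:
`|∫g(Du)²/a| ≤ R + ε ≤ 2s²` (`|g| ≤ 1`), `|κ'(g)| ≤ √(R+ε) ≤ 2s`, `|Rα(g)| ≤ s²`: again `|α(lap g)| ≤ E + 10 s ≤ θ`. (Exponents `≤ 100`: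
`η^(-5-80)`, `θ^(-16)`, `(1+μ)^48`; `ηθ/(1+μ) ≤ 1`.) -/
def ELO_stmt : Prop := ∀ (κ₁ : ℝ → ℝ) (C : ℝ), BF κ₁ C → ∀ (Γ : Subgroup SL(2, ℝ)) (F : Set ℍ),
  SurfaceGroup Γ → NiceDom Γ F → ∃ A : ℝ, 1 ≤ A ∧ ∀ (η θ μ : ℝ) (g₀ u : ℍ → ℝ), 0 < η → η ≤ 1 → 0 < θ → θ ≤ 1 → 0 ≤ μ →
  Inv Γ g₀ → (∀ z, |g₀ z| ≤ 1) → CD ∞ u → HasCompactSupport u →
    |∫ z : ℍ, lap (BB κ₁ η g₀) z * u z ^ 2| ≤ θ * (∫ z : ℍ, u z ^ 2) +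
      A * ((1 + μ) / (η * θ)) ^ 100 * ∫ z : ℍ, (lap u z - μ * u z) ^ 2

/-- **Row EKY** (medium), from BMP, EGB, EDC, EHI, ELO. `A₁` of EDC, `η = (δ/(4A₁))²`, `g₀` of EDC: `|h - lap (BB g₀)| ≤ δ/4`, `|g₀| ≤ A₁`, so
`g = BB g₀` and `lap g` are `FB C_g`, `C_g = A₂A₁/η⁵` (EGB). `M₁ = 5/4 + (8C₀C_g/δ)²`. `x = log²(2+μ) N_f²/μ`. If `μ ≥ M₁`: EHI, where the square root term is
`x^(1/4) a^(3/4) ≤ t a + t⁻³ x` (`t = δ/(8(C₀C_g+1))`; two cases `x ≤ t⁴a`, `x ≥ t⁴a`), `x ≤ 2 wt(μ) N_f²`, and `C₀C_g/√μ ≤ δ/8`. If `μ ≤ M₁`: ELO for `g₀/A₁`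
with `θ = δ/(4A₁)`, and `wt μ ≥ log²2/(1+M₁)`. All constants are of the form `A/δ^K` with `K` universal (`K = 3000`). -/
def EKY_stmt : Prop := ∃ K : ℕ, ∀ (Γ : Subgroup SL(2, ℝ)) (F : Set ℍ), SurfaceGroup Γ → NiceDom Γ F →
  ∃ A : ℝ, 1 ≤ A ∧ ∀ h : ℍ → ℝ, Lip1 Γ F h → ∀ δ : ℝ, 0 < δ → δ ≤ 1 → ∀ (μ : ℝ) (u : ℍ → ℝ), 0 ≤ μ → CD ∞ u →
  HasCompactSupport u →
    ∫ z : ℍ, h z * u z ^ 2 ≤ δ * (∫ z : ℍ, u z ^ 2) + A / δ ^ K * wt μ * ∫ z : ℍ, (lap u z - μ * u z) ^ 2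

/-- **Row ENG** (short), from SRK, LPA, AKR, EKY. NEG with the constant of EKY (helper4). -/
def ENG_stmt : Prop := ∃ K : ℕ, ∀ (κ₁ : ℝ → ℝ) (C₁ : ℝ), BF κ₁ C₁ → ∀ (Γ : Subgroup SL(2, ℝ)) (F : Set ℍ),
  SurfaceGroup Γ → NiceDom Γ F → ∃ A : ℝ, 1 ≤ A ∧ ∀ h : ℍ → ℝ, Lip1 Γ F h → ∀ δ : ℝ, 0 < δ → δ ≤ 1 →
  ∀ (μ₀ τ η : ℝ) (p : ℝ[X]), 0 ≤ μ₀ → 0 < τ → τ ≤ 1 → 0 < η → η ≤ 1 →
  ∀ f : ℍ → ℝ, StronglyMeasurable f → (∃ m : ℝ, ∀ z, |f z| ≤ m) → HasCompactSupport f →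
    (∫ z : ℍ, ∫ w : ℍ, (aS (fun v => h v - δ) (Sk (fm κ₁ τ) p (fm κ₁ η) (fm κ₁ η)) z w -
      A / δ ^ K * wt μ₀ * aS (fun _ => 1)
        (Sk (fm κ₁ τ) p (fun t => LL (fm κ₁ η) t - μ₀ * fm κ₁ η t) (fm κ₁ η)) z w) * (f z * f w)) ≤ 0

/-- **Row EDT** (medium), from BMP, YNM, GKL, WBA, SRK, LPA, AKR, DSC, UTR, PTN, LIQ, EDM, ENG. DET (Pool/Agent/helper71/QX/DET.lean) with explicit
constants: there `m` is uniform (EDM), `D = 10 C²(1+m)`, `δ₁ = ε/D`, `C' = A'/δ₁^K'` (ENG), `d = δ₁/(C²(C'+1))`, `K = (m+1)C² + C'C² + 1`,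
`A₀ = AP E₀²/(δ₁² d⁴)`, all `≤ A/ε^K` resp. `≥ ε^K/A`; the constant in the propagation is `4C + 12`, it does not depend on `ε`. (The `K` of ENG and
the constants `C`, `κ₁` of BMP, WBA are chosen before `Γ`, so `K` is universal.) -/
def EDT_stmt : Prop := ∃ K : ℕ, ∀ (Γ : Subgroup SL(2, ℝ)) (F : Set ℍ), SurfaceGroup Γ → NiceDom Γ F →
  ∃ A : ℝ, 1 ≤ A ∧ ∀ h : ℍ → ℝ, Lip1 Γ F h → ∀ ε : ℝ, 0 < ε → ε ≤ 1 → ∃ Q δ : ℝ, 1 ≤ Q ∧ Q ≤ A / ε ^ K ∧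
  ε ^ K / A ≤ δ ∧ δ ≤ 1 ∧ ∀ b μ₀ : ℝ, 0 ≤ b → 0 ≤ μ₀ → μ₀ ≤ b → ∃ (k : ℕ) (P : Mat k Γ), 1 ≤ k ∧
    (k : ℝ) ≤ A / ε ^ K * (2 + b) ^ 8 ∧ SA P ∧ UnB P (2 * Q) ∧ RegB P Q ∧
    Sup P {γ : Γ | ∃ z ∈ F, ∃ w ∈ F, dist z (γ • w) ≤ A * Real.log (2 + b)} ∧
    ∀ (V : Type) [NormedAddCommGroup V] [InnerProductSpace ℂ V] [CompleteSpace V]
      (ρ : Γ →* (V ≃ₗᵢ[ℂ] V)), RepB ρ P (Q + δ) →
      ∀ (φ : ℍ → V) (μ : ℝ), IsEigensection ρ μ φ → 0 ≤ μ → μ ≤ b →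
        |μ - μ₀| ≤ δ / (Real.log (2 + b)) ^ 2 →
        ∫ z in F, h z * ‖φ z‖ ^ 2 ≤ ε * ∫ z in F, ‖φ z‖ ^ 2

/-! ### The theorems -/

/-- **Row EBF** (medium), from BMP, PTN, LIQ, EDM. `c_i`, `p_i`, `i < k`, of PTN for `ζ = ρ` (`k ≤ A/ρ²`), `η = ρ²`. `χ̃_i = conv (fm κ₁ η) 1_{Γ c_i}`
(`1_{Γ c_i}(z) = 1` iff some `γ z ∈ c_i`): invariant, `0 ≤ χ̃_i ≤ 1`, by LIQ (trivial representation on `ℂ`) `|χ̃_i z - χ̃_i w| ≤ L dist z w`, `L = A'√(vol F)/η² + 1`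
(for `dist z w ≥ 1` trivially). `χ_i = (χ̃_i - mean)/L`. For `h` in `Lip1`: `|h - conv (fm κ₁ η) h| ≤ √(2η)` (`fm κ₁ η (t(z,w)) ≠ 0` implies `d²/2 ≤ cosh d - 1 < η`),
`|h - ∑ h(p_i) 1_{Γ c_i}| ≤ ζ`, so `h' = ∑ h(p_i) χ̃_i` satisfies `|h - h'| ≤ √(2η) + ζ ≤ 3ρ`, hence `|mean h'| ≤ 3ρ` and with `c_i = L h(p_i)`
`|h - ∑ c_i χ_i| = |h - h' + mean h'| ≤ 6ρ`; `|c_i| ≤ L m` (EDM). -/
def EBF_stmt : Prop := ∀ (Γ : Subgroup SL(2, ℝ)) (F : Set ℍ), SurfaceGroup Γ → NiceDom Γ F →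
  ∃ A : ℝ, 1 ≤ A ∧ ∀ ρ : ℝ, 0 < ρ → ρ ≤ 1 → ∃ (k : ℕ) (χ : Fin k → ℍ → ℝ), (k : ℝ) ≤ A / ρ ^ 2 ∧
    (∀ i, Lip1 Γ F (χ i)) ∧ ∀ h : ℍ → ℝ, Lip1 Γ F h → ∃ c : Fin k → ℝ, (∀ i, |c i| ≤ A / ρ ^ 6) ∧
      ∀ z, |h z - ∑ i, c i * χ i z| ≤ A * ρ

/-- **Row EDN** (short), from BMP, LIQ. `h' = conv (fm κ₁ η) h` for small `η` (A_BDD, A_APX: uniform approximation; LIQ with the trivial
representation on `ℂ` for `dist z w ≤ 1`, `|h'| ≤ sup|h|` for `dist z w ≥ 1`). -/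
def EDN_stmt : Prop := ∀ (Γ : Subgroup SL(2, ℝ)) (F : Set ℍ) (h : ℍ → ℝ), SurfaceGroup Γ → NiceDom Γ F → Inv Γ h →
  ∀ ε : ℝ, 0 < ε → ∃ (L : ℝ) (h' : ℍ → ℝ), 1 ≤ L ∧ Inv Γ h' ∧ (∀ z w, |h' z - h' w| ≤ L * dist z w) ∧
    ∀ z, |h z - h' z| ≤ ε

/-- **Row EPB** (medium-long), from SCU, LMQ, SVM, EDT. PRB (Pool/Agent/helper13/QX/PRB.lean) with explicit constants. `s₀` of SCU, `K` of EDT,
`s = s₀/(16(K+2))`, `ε = N^(-s)`, `b = exp(N^s)`, `T = log(2+b) ≤ 2N^s`, `Q/δ ≤ A² N^(2Ks)`. `q = ⌈N^(2s)⌉`, `N^(4s(K+1)) ≤ 2^j ≤ 2 N^(4s(K+1))`; `θ N` of LMQ.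
`k (ℓ+1)² Q^(2^j) ≤ (Q + δ/2)^(2^j)`, since `2^j log(1 + δ/(2Q)) ≥ 2^j N^(-2Ks)/(4A²) ≥ log k + 2 log(ℓ+1)` for large `N` (`k ≤ A N^(Ks)(2+b)^8`,
`ℓ = A''(2^j q + 1) 2^j q`). Degree `≤ A''(2^j q+1) q ≤ N^(s₀)`, `2Q/(δ/2) ≤ N^(s₀)`, `k ≤ exp(N^(s₀))`, at most `exp(4N^s)` grid points `μ₀` (step
`δ/T²`), every bad event has probability `≤ exp(-N^(s₀))`. `N₀` depends only on `Γ`, `F`, `g`, `e` (not on `h`). -/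
def EPB_stmt : Prop := ∃ c s : ℝ, 0 < s ∧ ∀ (Γ : Subgroup SL(2, ℝ)) (g : ℕ) (_ : Γ ≃* SurfGrp g), 2 ≤ g →
  SurfaceGroup Γ → ∃ θ : ℕ → (Γ →* F2), ∀ F : Set ℍ, NiceDom Γ F → ∃ N₀ : ℕ, ∀ N : ℕ, N₀ ≤ N →
  ∀ h : ℍ → ℝ, Lip1 Γ F h → ∃ B : Set (GI N → ℝ),
    (gau (GI N)).real B ≤ Real.exp (-(N : ℝ) ^ s) ∧ ∀ x : GI N → ℝ, x ∉ B →
      Good Γ F h ((N : ℝ) ^ (-s)) s N ((UR c x).comp (θ N))

/-- **The theorem T2\*** (row EFB; medium), from EBF, EDN, EPB. Nice domain `F` (A_DOM). `s₁` of EPB, `ρ = N^(-s₁/16)`, `χ_i` of EBF, `i < k ≤ A/ρ²`.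
The `2k` bad events of EPB for `± χ_i` have total probability `≤ 2k exp(-N^(s₁)) < 1` for large `N`; take `x` outside,
`ρ_N = (UR c x).comp (θ N)`. For all `h` in `Lip1` and eigensections `φ`, `μ ≤ exp(N^(s₁))`: `|∫ h ‖φ‖²| ≤ (k (A/ρ⁶) N^(-s₁) + Aρ) ∫ ‖φ‖² ≤ N^(-s) ∫ ‖φ‖²`,
`s = s₁/32`. General `h`: subtract the mean over `F` (divide nothing: the Lipschitz constant is the same). Other fundamental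
domains: A_DOB (as in Pool/Agent/helper52/QX/FBE.lean). Last clause: EDN (`h'/L` is `1`-Lipschitz) and `L N^(-s) → 0`. -/
def EFB_stmt : Prop := ∃ s : ℝ, 0 < s ∧ ∀ Γ : Subgroup SL(2, ℝ), SurfaceGroup Γ → ∀ g : ℕ, 2 ≤ g →
  Nonempty (Γ ≃* SurfGrp g) →
  ∃ ρ : ∀ n : ℕ, Γ →* (EuclideanSpace ℂ (Fin n) ≃ₗᵢ[ℂ] EuclideanSpace ℂ (Fin n)),
    (∃ n₀ : ℕ, ∀ n : ℕ, n₀ ≤ n → ∀ (μ : ℝ) (φ : ℍ → EuclideanSpace ℂ (Fin n)), 0 ≤ μ →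
      μ ≤ Real.exp ((n : ℝ) ^ s) → IsEigensection (ρ n) μ φ → ∀ h : ℍ → ℝ, (∀ (γ : Γ) (z : ℍ), h (γ • z) = h z) →
        (∀ z w : ℍ, |h z - h w| ≤ dist z w) → Equidist Γ h (fun z => ‖φ z‖ ^ 2) ((n : ℝ) ^ (-s))) ∧
    ∀ h : ℍ → ℝ, IsTest Γ h → ∀ ε : ℝ, 0 < ε → ∀ᶠ n in atTop,
      ∀ (μ : ℝ) (φ : ℍ → EuclideanSpace ℂ (Fin n)), 0 ≤ μ → μ ≤ Real.exp ((n : ℝ) ^ s) →
        IsEigensection (ρ n) μ φ → Equidist Γ h (fun z => ‖φ z‖ ^ 2) ε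

/-- **Row EPT** (medium-long), from SCP (of helper62's SpecT), LMQ, SVM, ZRP, EDT. PRT (Pool/Agent/helper13/QX/PRT.lean) with explicit constants in the
first clause (second clause unchanged, but for the new `θ`). `c = s₀/(16(K+2))`, `b = N^c`, `ε = N^(-c)`, `T ≤ 2N^c`, `q = ⌈N^(2c)⌉`,
`N^(4c(K+1)) ≤ 2^j ≤ 2 N^(4c(K+1))`, `k ≤ A N^(Kc)(2+b)^8 ≤ N^(s₀)`, at most `N^(c(K+4))` grid points, `t = s₀/2`. -/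
def EPT_stmt : Prop := ∃ c t : ℝ, 0 < c ∧ 0 < t ∧ ∀ (Γ : Subgroup SL(2, ℝ)) (g : ℕ) (_ : Γ ≃* SurfGrp g), 2 ≤ g →
  SurfaceGroup Γ → ∃ θ : ℕ → (Γ →* F2),
  (∀ F : Set ℍ, NiceDom Γ F → ∃ N₀ : ℕ, ∀ N : ℕ, N₀ ≤ N → ∀ h : ℍ → ℝ, Lip1 Γ F h →
    ∃ B : Finset (Fin 2 → Equiv.Perm (Fin N)), (B.card : ℝ) ≤ (N : ℝ) ^ (-t) * (N.factorial : ℝ) ^ 2 ∧
      ∀ σ, σ ∉ B → GoodP Γ F h ((N : ℝ) ^ (-c)) c N ((FreeGroup.lift σ).comp (θ N))) ∧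
  ∀ (a : MonoidAlgebra ℂ Γ) (ε : ℝ), adj a = a → 0 < ε → ∃ N₀ : ℕ, ∀ N : ℕ, N₀ ≤ N →
    ∃ B : Finset (Fin 2 → Equiv.Perm (Fin N)), (B.card : ℝ) ≤ (N : ℝ) ^ (-t) * (N.factorial : ℝ) ^ 2 ∧
      ∀ σ, σ ∉ B → ∀ v : EuclideanSpace ℂ (Fin N), ∑ i, v i = 0 →
        ‖rep (permRep ((FreeGroup.lift σ).comp (θ N))) a v‖ ≤ (regNorm a + ε) * ‖v‖

/-- **The theorem T1\*** (row EFV; medium), from EBF, EDN, EPT. As FCV (Pool/Agent/helper62/QX/FCV.lean) and EFB. -/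
def EFV_stmt : Prop := ∃ c : ℝ, 0 < c ∧ ∀ Γ : Subgroup SL(2, ℝ), SurfaceGroup Γ → ∀ g : ℕ, 2 ≤ g →
  Nonempty (Γ ≃* SurfGrp g) →
  ∃ σ : ∀ n : ℕ, Γ →* Equiv.Perm (Fin n), (∀ n i j, ∃ γ, σ n γ i = j) ∧
    StrongLimPerm (fun n => n) σ ∧
    (∃ n₀ : ℕ, ∀ n : ℕ, n₀ ≤ n → ∀ (μ : ℝ) (φ : ℍ → Fin n → ℂ), 0 ≤ μ → μ ≤ (n : ℝ) ^ c →
      IsNewEigenfunction (σ n) μ φ → ∀ h : ℍ → ℝ, (∀ (γ : Γ) (z : ℍ), h (γ • z) = h z) →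
        (∀ z w : ℍ, |h z - h w| ≤ dist z w) → Equidist Γ h (fun z => ∑ i, ‖φ z i‖ ^ 2) ((n : ℝ) ^ (-c))) ∧
    ∀ h : ℍ → ℝ, IsTest Γ h → ∀ ε : ℝ, 0 < ε → ∀ᶠ n in atTop,
      ∀ (μ : ℝ) (φ : ℍ → Fin n → ℂ), 0 ≤ μ → μ ≤ (n : ℝ) ^ c →
        IsNewEigenfunction (σ n) μ φ → Equidist Γ h (fun z => ∑ i, ‖φ z i‖ ^ 2) ε

end Pool.Agent.QX
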