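import Pool.Agent.helper62.RP.Defs
import Pool.Agent.helper62.QU.Spec

set_option autoImplicit false

/-!
# Project QX (MP_07c750): flat bundles of rank polylog of the eigenvalue. Common definitions
-/

open scoped MatrixGroups ContDiff Topology UpperHalfPlane
open UpperHalfPlane MeasureTheory ProbabilityTheory Filter Set Polynomial
open Pool.Agent.QU Pool.Agent.RP

namespace Pool.Agent.QX

/-! ### The Gaussian model -/

/-- index set of the Gaussian variables -/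
abbrev GI (N : ℕ) : Type := Fin 4 × Fin N × Fin N × Bool

/-- the standard Gaussian measure on `ℝ^ι` -/
noncomputable def gau (ι : Type) [Fintype ι] : Measure (ι → ℝ) :=
  Measure.pi (fun _ => gaussianReal 0 1)

/-- `(E_ab + E_ba) / 2` and `i (E_ab - E_ba) / 2` -/
noncomputable def BM {N : ℕ} (p : Fin N × Fin N × Bool) : Matrix (Fin N) (Fin N) ℂ :=
  if p.2.2 then (Complex.I / 2) • (Matrix.single p.1 p.2.1 1 - Matrix.single p.2.1 p.1 1)
  else (1 / 2 : ℂ) • (Matrix.single p.1 p.2.1 1 + Matrix.single p.2.1 p.1 1)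

/-- the four Hermitian matrices `X_i` (under `gau (GI N)`: independent GUE) -/
noncomputable def XM {N : ℕ} (x : GI N → ℝ) (i : Fin 4) : Matrix (Fin N) (Fin N) ℂ :=
  ((Real.sqrt N)⁻¹ : ℂ) • ∑ p : Fin N × Fin N × Bool, (x (i, p) : ℂ) • BM p

theorem BM_herm {N : ℕ} (p : Fin N × Fin N × Bool) : star (BM p) = BM p := by
  unfold BM
  rcases p with ⟨a, b, s⟩
  cases s
  · simp [Matrix.star_eq_conjTranspose, add_comm]
  · simp only [Matrix.star_eq_conjTranspose, if_true, Matrix.conjTranspose_smul,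
      Matrix.conjTranspose_sub, Matrix.conjTranspose_single, star_one]
    have h : star (Complex.I / 2) = -(Complex.I / 2) := by
      rw [star_div₀]
      simp [neg_div]
    rw [h]
    module

theorem XM_herm {N : ℕ} (x : GI N → ℝ) (i : Fin 4) : star (XM x i) = XM x i := by
  unfold XM
  rw [star_smul, star_sum]
  congr 1
  · simp
  · refine Finset.sum_congr rfl fun p _ => ?_
    rw [star_smul, BM_herm]
    simp

/-- `exp(i c X)` -/
noncomputable def EX {N : ℕ} (c : ℝ) (x : GI N → ℝ) (i : Fin 4) : Matrix (Fin N) (Fin N) ℂ :=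
  NormedSpace.exp ((Complex.I * c) • XM x i)

theorem EX_mem {N : ℕ} (c : ℝ) (x : GI N → ℝ) (i : Fin 4) :
    EX c x i ∈ Matrix.unitaryGroup (Fin N) ℂ := by
  rw [Matrix.mem_unitaryGroup_iff]
  have h : star (EX c x i) = NormedSpace.exp (-((Complex.I * c) • XM x i)) := by
    unfold EX
    rw [Matrix.star_eq_conjTranspose, ← Matrix.exp_conjTranspose, ← Matrix.star_eq_conjTranspose,
      star_smul, XM_herm]
    congr 1
    simp
  rw [h]
  unfold EX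
  have hc : Commute ((Complex.I * (c : ℂ)) • XM x i) (-((Complex.I * (c : ℂ)) • XM x i)) :=
    (Commute.refl _).neg_right
  rw [← Matrix.exp_add_of_commute _ _ hc]
  simp

/-- `exp(i c X)` as an element of the unitary group -/
noncomputable def EU {N : ℕ} (c : ℝ) (x : GI N → ℝ) (i : Fin 4) : Matrix.unitaryGroup (Fin N) ℂ :=
  ⟨EX c x i, EX_mem c x i⟩

/-- the representation of `F2` by `U_0 = exp(icX_0) exp(icX_1)`, `U_1 = exp(icX_2) exp(icX_3)` -/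
noncomputable def UG {N : ℕ} (c : ℝ) (x : GI N → ℝ) : F2 →* Matrix.unitaryGroup (Fin N) ℂ :=
  FreeGroup.lift ![EU c x 0 * EU c x 1, EU c x 2 * EU c x 3]

/-- the isometries of `ℂ^N` given by unitary matrices -/
noncomputable def isoU (N : ℕ) : Matrix.unitaryGroup (Fin N) ℂ →*
    (EuclideanSpace ℂ (Fin N) ≃ₗᵢ[ℂ] EuclideanSpace ℂ (Fin N)) where
  toFun u := Unitary.linearIsometryEquiv (𝕜 := ℂ) (H := EuclideanSpace ℂ (Fin N))
    ⟨Matrix.toEuclideanCLM (n := Fin N) (𝕜 := ℂ) (u : Matrix (Fin N) (Fin N) ℂ),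
      Unitary.map_mem _ u.2⟩
  map_one' := by
    have h : (⟨Matrix.toEuclideanCLM (n := Fin N) (𝕜 := ℂ)
        ((1 : Matrix.unitaryGroup (Fin N) ℂ) : Matrix (Fin N) (Fin N) ℂ),
        Unitary.map_mem _ (1 : Matrix.unitaryGroup (Fin N) ℂ).2⟩ :
        unitary (EuclideanSpace ℂ (Fin N) →L[ℂ] EuclideanSpace ℂ (Fin N))) = 1 := by
      ext1
      exact map_one (Matrix.toEuclideanCLM (n := Fin N) (𝕜 := ℂ))
    rw [h, map_one]
  map_mul' u v := by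
    rw [← map_mul]
    congr 1
    ext1
    exact map_mul (Matrix.toEuclideanCLM (n := Fin N) (𝕜 := ℂ)) _ _

theorem isoU_apply (N : ℕ) (u : Matrix.unitaryGroup (Fin N) ℂ) (v : EuclideanSpace ℂ (Fin N))
    (i : Fin N) : isoU N u v i = ∑ j, (u : Matrix (Fin N) (Fin N) ℂ) i j * v j := by
  rfl

/-- the random unitary representation of `F2` on `ℂ^N` -/
noncomputable def UR {N : ℕ} (c : ℝ) (x : GI N → ℝ) :
    F2 →* (EuclideanSpace ℂ (Fin N) ≃ₗᵢ[ℂ] EuclideanSpace ℂ (Fin N)) := (isoU N).comp (UG c x)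

/-! ### Matrices over group algebras -/

section mat

variable {G H : Type} [Group G] [Group H]

/-- matrices over the group algebra -/
abbrev Mat (D : ℕ) (G : Type) [Group G] : Type := Matrix (Fin D) (Fin D) (MonoidAlgebra ℂ G)

/-- self-adjoint -/
def SA {D : ℕ} (P : Mat D G) : Prop := ∀ i j, adj (P i j) = P j i

/-- the quadratic form of `P` in every unitary representation is bounded by `K` -/
def UnB {D : ℕ} (P : Mat D G) (K : ℝ) : Prop :=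
  ∀ (V : Type) [NormedAddCommGroup V] [InnerProductSpace ℂ V] [CompleteSpace V]
    (ρ : G →* (V ≃ₗᵢ[ℂ] V)) (v : Fin D → V),
    |(∑ i, ∑ j, inner ℂ (v i) (rep ρ (P i j) (v j))).re| ≤ K * ∑ i, ‖v i‖ ^ 2

/-- the norm of `P` in the regular representation is at most `r` -/
def RegB {D : ℕ} (P : Mat D G) (r : ℝ) : Prop :=
  ∀ u : Fin D → MonoidAlgebra ℂ G, ∑ i, l2 (∑ j, P i j * u j) ^ 2 ≤ r ^ 2 * ∑ i, l2 (u i) ^ 2

/-- the norm of `P` in the representation `ρ` is at most `r` -/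
def RepB {D : ℕ} {V : Type} [NormedAddCommGroup V] [InnerProductSpace ℂ V]
    (ρ : G →* (V ≃ₗᵢ[ℂ] V)) (P : Mat D G) (r : ℝ) : Prop :=
  ∀ v : Fin D → V, ∑ i, ‖∑ j, rep ρ (P i j) (v j)‖ ^ 2 ≤ r ^ 2 * ∑ i, ‖v i‖ ^ 2

/-- the supports of the entries of `P` lie in `S` -/
def Sup {D : ℕ} (P : Mat D G) (S : Set G) : Prop := ∀ i j, ∀ γ ∈ (P i j).coeff.support, γ ∈ S

/-- image of `P` under a homomorphism of groups -/
noncomputable def pushM {D : ℕ} (f : G →* H) (P : Mat D G) : Mat D H := fun i j => push f (P i j)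

end mat

/-- elements of length at most `n` of the surface group -/
def SLen (g n : ℕ) : Set (SurfGrp g) :=
  {γ | ∃ l : List ((Fin g × Bool) × Bool), l.length ≤ n ∧
    γ = (l.map (fun t => if t.2 then (PresentedGroup.of t.1 : SurfGrp g)
      else (PresentedGroup.of t.1)⁻¹)).prod}

/-! ### Interface statements -/

/-- **EXW** (target of SpecG). The expected traces of words in the random unitaries are convergent power series in
`1/N²` (genus expansion), with an explicit bound for the coefficients and leading term `1_{w = 1}`. -/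
def EXW_stmt : Prop := ∃ c C : ℝ, 0 < c ∧ c ≤ 2 ∧ 1 ≤ C ∧ ∀ w : F2, ∃ f : ℕ → ℂ,
  Summable (fun k => ‖f k‖) ∧ ∑' k, ‖f k‖ ≤ Real.exp (C * ((w.norm : ℝ) + 1) ^ 2) ∧
  f 0 = (if w = 1 then 1 else 0) ∧ ∀ N : ℕ, 1 ≤ N →
    ∫ x, Matrix.trace ((UG c x w : Matrix.unitaryGroup (Fin N) ℂ) : Matrix (Fin N) (Fin N) ℂ)
      ∂(gau (GI N)) = N * ∑' k, f k / (N : ℂ) ^ (2 * k)

/-- **ULP** (target of SpecG). The words are Lipschitz functions of the Gaussian vector. -/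
def ULP_stmt : Prop := ∀ (N : ℕ) (c : ℝ) (x y : GI N → ℝ) (w : F2) (v : EuclideanSpace ℂ (Fin N)),
  1 ≤ N → ‖UR c x w v - UR c y w v‖ ≤
    2 * |c| * w.norm / Real.sqrt N * Real.sqrt (∑ i, (x i - y i) ^ 2) * ‖v‖

/-- **REM** (target of SpecP). Remainder bound to all orders: Markov inequality at the points `1/N²`. -/
def REM_stmt : Prop := ∃ C : ℝ, 1 ≤ C ∧ ∀ (f : ℕ → ℝ) (H : ℝ) (L : ℕ), 1 ≤ L → 0 ≤ H →
  Summable (fun k => |f k|) → ∑' k, |f k| ≤ 4 ^ L * H →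
  (∀ N : ℕ, 1 ≤ N → |∑' k, f k / (N : ℝ) ^ (2 * k)| ≤ H) →
  (∀ k ≤ L, |f k| ≤ (C * (L : ℝ) ^ 6) ^ k * (4 * H)) ∧
  ∀ m : ℕ, 1 ≤ m → m ≤ L → ∀ N : ℕ, 1 ≤ N →
    |(∑' k, f k / (N : ℝ) ^ (2 * k)) - ∑ k ∈ Finset.range m, f k / (N : ℝ) ^ (2 * k)| ≤
      (C * (L : ℝ) ^ 6 / (N : ℝ) ^ 2) ^ m * H

/-- **TSF** (target of SpecP). Test functions of the angle. -/
def TSF_stmt : Prop := ∀ (r : ℕ) (a b : ℝ), 2 ≤ r → 0 < a → a < b → b ≤ Real.pi / 2 →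
  ∃ c : ℕ → ℝ, |c 0| ≤ 1 ∧ (∀ j, 1 ≤ j → |c j| ≤ 2 * (2 * r / ((b - a) * j)) ^ r) ∧
    ∀ θ : ℝ, 0 ≤ ∑' j, c j * Real.cos (j * θ) ∧ ∑' j, c j * Real.cos (j * θ) ≤ 1 ∧
      (b ≤ θ → θ ≤ Real.pi - b → ∑' j, c j * Real.cos (j * θ) = 0) ∧
      (0 ≤ θ → θ ≤ a → ∑' j, c j * Real.cos (j * θ) = 1) ∧
      (Real.pi - a ≤ θ → θ ≤ Real.pi → ∑' j, c j * Real.cos (j * θ) = 1)

/-- **CON** (target of SpecP). Concentration of Lipschitz functions of a Gaussian vector around an upper bound of the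
median (Maurey-Pisier). -/
def CON_stmt : Prop := ∀ (ι : Type) [Fintype ι] (F : (ι → ℝ) → ℝ) (L t s : ℝ), 0 < L → 0 ≤ s →
  (∀ x y, |F x - F y| ≤ L * Real.sqrt (∑ i, (x i - y i) ^ 2)) →
  1 / 2 ≤ (gau ι).real {x | F x ≤ t} →
    (gau ι).real {x | t + s ≤ F x} ≤ 2 * Real.exp (-(s ^ 2 / (5 * L ^ 2)))

/-- **PLY** (target of SpecP). A polynomial localised near `cos θ₀` (Fejer kernel in the angle). -/
def PLY_stmt : Prop := ∃ C : ℝ, 1 ≤ C ∧ ∀ (θ₀ : ℝ) (m : ℕ), 0 ≤ θ₀ → θ₀ ≤ Real.pi / 2 → 1 ≤ m →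
  ∃ p q : ℝ[X], p.natDegree ≤ m ∧ q.natDegree ≤ m ∧
    p = 1 + (X - Polynomial.C (Real.cos θ₀)) * q ∧
    ∀ x : ℝ, |x| ≤ 1 → |p.eval x| ≤ C ∧ |q.eval x| ≤ C * m ^ 2 ∧
      |(x - Real.cos θ₀) * p.eval x| ≤ C * (1 / (m : ℝ) ^ 2 + θ₀ / m)

/-- **SPC** (target of SpecP). Polynomials of a symmetric contraction for a positive semidefinite form. -/
def SPC_stmt : Prop := ∀ (E : Type) [AddCommGroup E] [Module ℝ E] (B : E →ₗ[ℝ] E →ₗ[ℝ] ℝ)
  (A : E →ₗ[ℝ] E), (∀ x y, B x y = B y x) → (∀ x, 0 ≤ B x x) → (∀ x y, B (A x) y = B x (A y)) →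
  (∀ x, B (A x) (A x) ≤ B x x) → ∀ (p : ℝ[X]) (M : ℝ), 0 ≤ M → (∀ t, |t| ≤ 1 → |p.eval t| ≤ M) →
    ∀ x, B (aeval A p x) (aeval A p x) ≤ M ^ 2 * B x x

/-- **SCU** (target of SpecM). Strong convergence with matrix coefficients of exponential size. -/
def SCU_stmt : Prop := ∃ c s : ℝ, 0 < s ∧ ∃ N₀ : ℕ, 1 ≤ N₀ ∧ ∀ (N : ℕ), N₀ ≤ N →
  ∀ (D q : ℕ) (P : Mat D F2) (K r δ : ℝ), 1 ≤ D → SA P → Sup P {w | w.norm ≤ q} → UnB P K →
    RegB P r → 0 ≤ r → 0 < δ → 0 < K → (q : ℝ) ≤ (N : ℝ) ^ s → K / δ ≤ (N : ℝ) ^ s →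
    (D : ℝ) ≤ Real.exp ((N : ℝ) ^ s) →
    (gau (GI N)).real {x | ¬ RepB (UR c x) P (r + δ)} ≤ Real.exp (-(N : ℝ) ^ s)

/-- **LMQ** (target of SpecC). Louder-Magee maps with explicit lengths; transfer of norms of matrices. -/
def LMQ_stmt : Prop := ∀ g : ℕ, 2 ≤ g → ∃ A : ℕ, 1 ≤ A ∧ ∀ q j : ℕ, ∃ θ : SurfGrp g →* F2,
  (∀ n : ℕ, ∀ γ ∈ SLen g n, (θ γ).norm ≤ A * (2 ^ j * q + 1) * n) ∧
  ∀ (D : ℕ) (P : Mat D (SurfGrp g)) (r r' : ℝ), SA P → Sup P (SLen g q) → 0 ≤ r → 0 ≤ r' →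
    RegB P r →
    (D : ℝ) * (((A * (2 ^ j * q + 1) * (2 ^ j * q) : ℕ) : ℝ) + 1) ^ 2 * r ^ (2 ^ j) ≤ r' ^ (2 ^ j) →
    RegB (pushM θ P) r'

/-- **KLU** (target of SpecA). Key inequality, uniform in the eigenvalue parameter. -/
def KLU_stmt : Prop := ∀ (Γ : Subgroup SL(2, ℝ)) (F : Set ℍ) (h : ℍ → ℝ), SurfaceGroup Γ →
  NiceDom Γ F → Inv Γ h → (∫ z in F, h z) = 0 → ∀ δ : ℝ, 0 < δ → ∃ C : ℝ, 0 ≤ C ∧
  ∀ (μ : ℝ) (u : ℍ → ℝ), 0 ≤ μ → CD ∞ u → HasCompactSupport u →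
    ∫ z : ℍ, h z * u z ^ 2 ≤ δ * (∫ z : ℍ, u z ^ 2) +
      C * (Real.log (2 + μ)) ^ 2 / (1 + μ) * ∫ z : ℍ, (lap u z - μ * u z) ^ 2

end Pool.Agent.QX
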