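import Pool.Agent.helper4.QX.Defs

set_option autoImplicit false

/-!
# Project QX (MP_07c750), part D: transfer and the final theorem. Rows `qd:X`

Prove `X_stmt` in `Pool/Agent/<seat>/QX/X.lean`, namespace `Pool.Agent.QX`, auxiliary lemmas prefixed `X_`.
The theorem has the rows listed after the word from as hypotheses, in this order. Finished rows of helper62's
projects (theorems `Pool.Agent.QU.A_XXX : XXX_stmt` of `Pool.Agent.helper62.QU.All`) may be used freely.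

Plan. `A = conv (fm τ)` (contraction, `1 - A ≈ ct(τ) Δ`), `Q = conv (fm η)`, `W = p(A)` with `p` localised at
`1 - ct(τ) μ₀`. The kernel `a` of `QQW (h - δ) WQQ - C w ((Δ - μ₀) WQQ)²` is negative on `L²(ℍ)` (NEG), its form is
bounded in all flat bundles by a constant independent of `μ₀ ≤ b` (WBA), it has propagation `≤ A log(2+b)`, and it is
an element of `M_k(ℂ[Γ])`, `log k ≤ A log(2+b)` (DSC). Random representations make it almost negative (PRB).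
-/

open scoped MatrixGroups ContDiff Topology UpperHalfPlane
open UpperHalfPlane MeasureTheory ProbabilityTheory Filter Set Polynomial
open Pool.Agent.QU Pool.Agent.RP

namespace Pool.Agent.QX

/-- `κ₁(t/η)/η` -/
noncomputable def fm (κ₁ : ℝ → ℝ) (η t : ℝ) : ℝ := κ₁ (t / η) / η

/-- the bump family with the properties of row BMP -/
structure BF (κ₁ : ℝ → ℝ) (C : ℝ) : Prop where
  one : 1 ≤ C
  smooth : ContDiff ℝ ∞ κ₁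
  nonneg : ∀ t, 0 ≤ κ₁ t
  supp : ∀ t, 1 ≤ t → κ₁ t = 0
  fam : Fam (fm κ₁)
  lap1 : ∀ η, 0 < η → η ≤ 1 → ∀ z : ℍ, ∫ w : ℍ, |LL (fm κ₁ η) (tt z w)| ≤ C / η
  lap2 : ∀ η, 0 < η → η ≤ 1 → ∀ z : ℍ, ∫ w : ℍ, |LL (LL (fm κ₁ η)) (tt z w)| ≤ C / η ^ 2

/-- `p(conv κ) φ` -/
noncomputable def pA {E : Type} [NormedAddCommGroup E] [NormedSpace ℝ E] (κ : ℝ → ℝ) (p : ℝ[X])
    (φ : ℍ → E) (z : ℍ) : E :=
  ∑ j ∈ Finset.range (p.natDegree + 1), p.coeff j • (conv κ)^[j] φ z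

section sections

variable {Γ : Subgroup SL(2, ℝ)} {V : Type} [NormedAddCommGroup V] [InnerProductSpace ℂ V]

/-- bounded measurable sections of the flat bundle of `ρ` -/
structure SecB (ρ : Γ →* (V ≃ₗᵢ[ℂ] V)) (φ : ℍ → V) : Prop where
  meas : StronglyMeasurable φ
  bdd : ∃ m : ℝ, ∀ z, ‖φ z‖ ≤ m
  eqv : ∀ (γ : Γ) (z : ℍ), φ (γ • z) = ρ γ (φ z)

/-- continuous sections -/
structure SecC (ρ : Γ →* (V ≃ₗᵢ[ℂ] V)) (φ : ℍ → V) : Prop where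
  cont : Continuous φ
  eqv : ∀ (γ : Γ) (z : ℍ), φ (γ • z) = ρ γ (φ z)

end sections

/-- the weight `(log(2+μ))²/(1+μ)` -/
noncomputable def wt (μ : ℝ) : ℝ := (Real.log (2 + μ)) ^ 2 / (1 + μ)

/-- the kernel of `p(conv κ) conv κa conv κb` -/
noncomputable def Sk (κ : ℝ → ℝ) (p : ℝ[X]) (κa κb : ℝ → ℝ) (z v : ℍ) : ℝ :=
  pA κ p (conv κa (fun w => κb (tt z w))) v

/-- the kernel `∫ H(v) S(z,v) S(w,v) dv` -/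
noncomputable def aS (H : ℍ → ℝ) (S : ℍ → ℍ → ℝ) (z w : ℍ) : ℝ := ∫ v : ℍ, H v * (S z v * S w v)

/-- the matrix of the kernel `a` for the cells `c` -/
noncomputable def mI {Γ : Subgroup SL(2, ℝ)} (a : ℍ → ℍ → ℝ) (S : Finset Γ) {k : ℕ}
    (c : Fin k → Set ℍ) : Mat k Γ := fun i j =>
  ∑ γ ∈ S, MonoidAlgebra.single γ ((((Real.sqrt (volume (c i)).toReal)⁻¹ *
    (Real.sqrt (volume (c j)).toReal)⁻¹ * ∫ z in c i, ∫ w in c j, a z (γ • w) : ℝ)) : ℂ)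

/-! ### Group N: calculus of sections -/

/-- **Row BMP** (medium), from MAS, KFM, ROD (of QU). Take a smooth `κ₁ ≥ 0`, `κ₁ > 0` on `(-1,1)`, `κ₁ = 0` on `[1,∞)` with
`c₀ ∫_0^1 κ₁ = 1` (`c₀` of MAS), as in the proof of KFM (there `fam η t = κ₁(t/η)/η`, reuse that proof; make `κ₁ = 0` also on
`(-∞,-1]`). `LL (fm η)(t) = -(t(t+2) κ₁''(t/η)/η³ + 2(t+1) κ₁'(t/η)/η²)` is `≤ C/η²` in absolute value and vanishes for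
`t ≥ η`; `∫ |κ(t(z,w))| dw` is at most `c₀ ∫_0^η` of any smooth majorant (MAS), e.g. `|κ| ≤ (C/η²) κ₂(t/η)` for a
smooth `κ₂ ≥ 0` with `κ₂ = 1` on `[0,1]`, `κ₂ = 0` on `[2,∞)`: this gives `C'/η`. In the same way `|LL (LL (fm η))| ≤ C/η³`. -/
def BMP_stmt : Prop := ∃ (κ₁ : ℝ → ℝ) (C : ℝ), BF κ₁ C

/-- **Row CVI** (short-medium), from CVS. Induction on `n : ℕ`: for all `κ` in `RK` and all continuous `f`, `CD n (conv κ f)`. With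
`t = t(z,w)`, `z = x + iy`, `w = a + ib`: `t_x = (x-a)/(yb)`, `t_y = (y-b)/(yb) - t/y`. So by CVS (derivative under the
integral) `∂_x conv κ f = y⁻¹ (x conv κ' (f/b) - conv κ' (a f/b))` and `∂_y conv κ f = y⁻¹ (y conv κ' (f/b) - conv κ' f - conv (t κ') f)`, where
`κ' = deriv κ` and `t κ'(t)` are in `RK`; the functions `f/b`, `a f/b` are continuous. Products with the
smooth functions `x`, `y`, `y⁻¹`. -/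
def CVI_stmt : Prop := ∀ (E : Type) [NormedAddCommGroup E] [NormedSpace ℝ E] [CompleteSpace E]
  (κ : ℝ → ℝ) (f : ℍ → E), RK κ → Continuous f → CD ∞ (conv κ f)

/-- **Row YNM** (medium; Young's inequality for signed kernels and bounded measurable sections). `conv κ φ` is
continuous (dominated convergence), equivariant (as in EQV). `‖conv κ φ z‖² ≤ (∫ |κ(t(z,w))| dw) ∫ |κ(t(z,w))| ‖φ(w)‖² dw`; integrate over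
`F`, unfold as in SYM/YNG of QU: for bounded measurable invariant `g ≥ 0` `∫_F ∫_ℍ |κ(t(z,w))| g(w) dw dz = ∫_F g(w) ∫_ℍ |κ(t(z,w))| dz dw`. -/
def YNM_stmt : Prop := ∀ (Γ : Subgroup SL(2, ℝ)) (F : Set ℍ) (V : Type) [NormedAddCommGroup V]
  [InnerProductSpace ℂ V] [CompleteSpace V] (ρ : Γ →* (V ≃ₗᵢ[ℂ] V)) (κ : ℝ → ℝ) (φ : ℍ → V) (m : ℝ),
  SurfaceGroup Γ → NiceDom Γ F → RK κ → SecB ρ φ → (∀ z : ℍ, ∫ w : ℍ, |κ (tt z w)| ≤ m) →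
    SecC ρ (conv κ φ) ∧ ∫ z in F, ‖conv κ φ z‖ ^ 2 ≤ m ^ 2 * ∫ z in F, ‖φ z‖ ^ 2

/-- **Row GKL** (medium), from YNM, CVI. Let `κ ≥ 0` in `RK`, `κ = 0` on `[s,∞)`, of mass `m`. For small `η'` the function
`θ = κ - m fm η'` has `∫_0^t θ ≤ 0` for all `t ≥ 0` and `≥ -m/c₀` (`κ₁ ≥ const > 0` near `0`, `κ` is bounded), so ROD gives
`ψ ≥ 0` in `RK` with `LL ψ = -θ`, mass `≤ m s/2`. Thus `conv κ φ - m conv (fm η') φ = -conv ψ (Δφ)` for `φ` of class `C²` (COM), norm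
`≤ (m s/2) ‖Δφ‖` (YNM); `η' → 0`, `conv (fm η') φ → φ` uniformly on `F` (APX). (`F` has finite measure; continuous
sections are bounded.) -/
def GKL_stmt : Prop := ∀ (κ₁ : ℝ → ℝ) (C : ℝ), BF κ₁ C → ∀ (Γ : Subgroup SL(2, ℝ)) (F : Set ℍ) (V : Type)
  [NormedAddCommGroup V] [InnerProductSpace ℂ V] [CompleteSpace V] (ρ : Γ →* (V ≃ₗᵢ[ℂ] V))
  (κ : ℝ → ℝ) (φ : ℍ → V) (m s : ℝ), SurfaceGroup Γ → NiceDom Γ F → 0 < s → RK κ → (∀ t, 0 ≤ t → 0 ≤ κ t) →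
  (∀ t, s ≤ t → κ t = 0) → (∀ z : ℍ, ∫ w : ℍ, κ (tt z w) = m) → SecC ρ φ → CD 2 φ →
    ∫ z in F, ‖conv κ φ z - m • φ z‖ ^ 2 ≤ (m * s / 2) ^ 2 * ∫ z in F, ‖lap φ z‖ ^ 2

/-- **Row SEC** (medium), from GKL. `Q(x) = ∫_0^x κ₁`, `Q = 1/c₀` on `[1,∞)`. For `0 < τ' < τ ≤ 1` let `ψ = ψ_{τ,τ'}` be the function of ROD for
`θ = fm τ - fm τ'`: `ψ ≥ 0`, `ψ = 0` on `[τ,∞)`, `LL ψ = -θ`, mass
`m(τ,τ') = c₀ ∫_0^τ (Q(r/τ') - Q(r/τ))/(r+2) dr ≤ τ/2` (integrate `∫_0^s ψ = ∫_0^s r|ψ'|`, `ψ' = P/(t(t+2))`). So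
`conv (fm τ') φ - conv (fm τ) φ = conv ψ (Δφ)`, and `‖conv ψ (Δφ) - m(τ,τ') Δφ‖ ≤ (τ²/4) ‖Δ²φ‖` by GKL. Let `τ' → 0`:
`m(τ,τ') → ct τ = c₀ ∫_0^τ (1/c₀ - Q(r/τ))/(r+2) dr = τ c₀ ∫_0^1 (1/c₀ - Q(x))/(τx+2) dx ≥ a τ` with `a = (c₀/3) ∫_0^1 (1/c₀ - Q) > 0`. -/
def SEC_stmt : Prop := ∀ (κ₁ : ℝ → ℝ) (C : ℝ), BF κ₁ C → ∃ (a : ℝ) (ct : ℝ → ℝ), 0 < a ∧
  ∀ τ : ℝ, 0 < τ → τ ≤ 1 → a * τ ≤ ct τ ∧ ct τ ≤ τ / 2 ∧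
  ∀ (Γ : Subgroup SL(2, ℝ)) (F : Set ℍ) (V : Type) [NormedAddCommGroup V] [InnerProductSpace ℂ V]
    [CompleteSpace V] (ρ : Γ →* (V ≃ₗᵢ[ℂ] V)) (φ : ℍ → V), SurfaceGroup Γ → NiceDom Γ F →
    SecC ρ φ → CD 2 φ → CD 2 (lap φ) →
    ∫ z in F, ‖φ z - conv (fm κ₁ τ) φ z - ct τ • lap φ z‖ ^ 2 ≤
      (τ ^ 2 / 4) ^ 2 * ∫ z in F, ‖lap (lap φ) z‖ ^ 2

/-- **Row PAN** (medium), from SPC, YNM, CVI. The continuous sections form a real vector space `E` with the form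
`B(φ,ψ) = Re ∫_F ⟪φ, ψ⟫`; `conv κ` is symmetric (SYM of QU for `G(z,w) = κ(t(z,w)) Re⟪φ(z), ψ(w)⟫`) and a
contraction (YNM). `pA κ p = aeval (conv κ) p`. The last two clauses: `Δ conv κ φ = conv (LL κ) φ = conv κ Δφ` for `C²` functions (CVS, COM of
QU), induction on the number of factors (`conv κ` of a continuous function is `C²`). -/
def PAN_stmt : Prop := ∀ (Γ : Subgroup SL(2, ℝ)) (F : Set ℍ) (V : Type) [NormedAddCommGroup V]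
  [InnerProductSpace ℂ V] [CompleteSpace V] (ρ : Γ →* (V ≃ₗᵢ[ℂ] V)) (κ : ℝ → ℝ) (p : ℝ[X]),
  SurfaceGroup Γ → NiceDom Γ F → RK κ → (∀ t, 0 ≤ t → 0 ≤ κ t) → (∀ z : ℍ, ∫ w : ℍ, κ (tt z w) ≤ 1) →
  (∀ φ : ℍ → V, SecC ρ φ → SecC ρ (pA κ p φ)) ∧
  (∀ (φ : ℍ → V) (M : ℝ), SecC ρ φ → 0 ≤ M → (∀ t, |t| ≤ 1 → |p.eval t| ≤ M) →
    ∫ z in F, ‖pA κ p φ z‖ ^ 2 ≤ M ^ 2 * ∫ z in F, ‖φ z‖ ^ 2) ∧
  (∀ (q : ℝ[X]) (x₀ : ℝ) (φ : ℍ → V), SecC ρ φ → q = (X - Polynomial.C x₀) * p →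
    ∀ z, pA κ q φ z = pA κ p (fun w => conv κ φ w - x₀ • φ w) z) ∧
  (∀ (q : ℝ[X]) (φ : ℍ → V), SecC ρ φ → q = 1 + p → ∀ z, pA κ q φ z = φ z + pA κ p φ z) ∧
  (∀ (φ ψ : ℍ → V) (t : ℝ), SecC ρ φ → SecC ρ ψ → ∀ z,
    pA κ p (fun w => φ w + t • ψ w) z = pA κ p φ z + t • pA κ p ψ z) ∧
  (∀ φ : ℍ → V, SecC ρ φ → CD ∞ φ → CD ∞ (pA κ p φ)) ∧
  ∀ φ : ℍ → V, SecC ρ φ → CD 2 φ → ∀ z, lap (pA κ p φ) z = pA κ p (lap φ) z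

/-- **Row WBA** (medium-long; the bounds in flat bundles), from BMP, YNM, GKL, SEC, PAN, PLY. `T = log(2+b)`, `η = δ'/(2+b)²`, `τ = η³`,
`m = ⌈T/√τ⌉` (so `T/√τ ≥ 1`, `m ≤ 2T/√τ`), `cos θ₀ = 1 - ct(τ) μ₀` (`ct(τ) μ₀ ≤ τ b/2 ≤ 1`, `θ₀ ∈ [0,π/2]`, `1 - cos θ₀ ≥ (4/π²) θ₀²` so
`θ₀ ≤ 2√(τ μ₀)`), `p, q` of PLY with constant `C_P`. `A = conv (fm τ)`, `Q = conv (fm η)`, `W = pA (fm τ) p`, norms over `F`.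
[A] `‖WQχ‖ ≤ C_P ‖χ‖`. [B] `(Δ-μ₀)WQχ = W(Δ-μ₀)Qχ` and
`ct (Δ-μ₀) Qχ = -(Qχ - AQχ - ct ΔQχ) + (cos θ₀ - A) Qχ`; first term `≤ (τ²/4) ‖Δ²Qχ‖ ≤ (τ²/4)(C/η²) ‖χ‖` (SEC; `Δ²Qχ = conv (LL LL fm η) χ`,
YNM, BF.lap2), `‖W(cos θ₀ - A) Qχ‖ ≤ C_P (1/m² + θ₀/m) ‖χ‖` (PAN with the polynomial `(X - cos θ₀) p`). As `ct ≥ aτ`, `1/m ≤ √τ/T`:
`‖(Δ-μ₀)WQχ‖ ≤ C' (η + 1/T² + √μ₀/T) ‖χ‖`, and `√wt(μ₀) ≤ T`, `√(wt(μ₀) μ₀) ≤ T`, `√wt ≤ 2`, `T ≥ 1/2`.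
[C] `u = WQQφ`. `‖Qφ - φ‖ ≤ (η/2) μ ‖φ‖ ≤ δ'‖φ‖` (GKL with `m = 1`, `s = η`), so `‖QQφ - φ‖ ≤ 2δ'‖φ‖`; `‖Wφ - φ‖ = ‖q(A)(A - cos θ₀)φ‖ ≤
C_P m² ‖(A - cos θ₀)φ‖`, `(A - cos θ₀) φ = -(φ - Aφ - ct Δφ) + ct (μ₀ - μ) φ`, norm `≤ (τ² μ²/4 + (τ/2) δ'/T²) ‖φ‖`, `m² ≤ 4T²/τ`:
`‖Wφ - φ‖ ≤ C_P (T² τ μ² + 2δ') ‖φ‖ ≤ 3 C_P δ' ‖φ‖`. `Δu - μ₀u = (μ - μ₀) u` (lap commutes with everything), `|μ - μ₀| ≤ δ'/T²`. -/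
def WBA_stmt : Prop := ∀ (κ₁ : ℝ → ℝ) (C₁ : ℝ), BF κ₁ C₁ → ∃ C : ℝ, 1 ≤ C ∧ ∀ b δ' : ℝ, 0 ≤ b → 0 < δ' →
  δ' ≤ 1 → ∀ μ₀ : ℝ, 0 ≤ μ₀ → μ₀ ≤ b → ∃ p : ℝ[X],
  let η := δ' / (2 + b) ^ 2
  let τ := η ^ 3
  (p.natDegree : ℝ) * Real.sqrt τ ≤ C * Real.log (2 + b) ∧
  ∀ (Γ : Subgroup SL(2, ℝ)) (F : Set ℍ) (V : Type) [NormedAddCommGroup V] [InnerProductSpace ℂ V]
    [CompleteSpace V] (ρ : Γ →* (V ≃ₗᵢ[ℂ] V)), SurfaceGroup Γ → NiceDom Γ F →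
  (∀ χ : ℍ → V, SecC ρ χ →
    ∫ z in F, ‖pA (fm κ₁ τ) p (conv (fm κ₁ η) χ) z‖ ^ 2 ≤ C ^ 2 * (∫ z in F, ‖χ z‖ ^ 2) ∧
    wt μ₀ * (∫ z in F, ‖lap (pA (fm κ₁ τ) p (conv (fm κ₁ η) χ)) z -
      μ₀ • pA (fm κ₁ τ) p (conv (fm κ₁ η) χ) z‖ ^ 2) ≤ C ^ 2 * ∫ z in F, ‖χ z‖ ^ 2) ∧
  ∀ (φ : ℍ → V) (μ : ℝ), IsEigensection ρ μ φ → 0 ≤ μ → μ ≤ b →
    |μ - μ₀| ≤ δ' / (Real.log (2 + b)) ^ 2 →
    let u := pA (fm κ₁ τ) p (conv (fm κ₁ η) (conv (fm κ₁ η) φ))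
    ∫ z in F, ‖u z - φ z‖ ^ 2 ≤ (C * δ') ^ 2 * (∫ z in F, ‖φ z‖ ^ 2) ∧
    wt μ₀ * (∫ z in F, ‖lap u z - μ₀ • u z‖ ^ 2) ≤ (C * δ') ^ 2 * ∫ z in F, ‖φ z‖ ^ 2

/-! ### Group K: kernels and matrices -/

/-- **Row SRK** (medium), from YNM, CVI. `Sk z` is the function `pA κ p (conv κa g)` for `g = κb(t(z,·))`, everything has compact
support. Invariance: CVB (1). Support: if `κ = 0` on `[τ,∞)`, `τ ≤ 1`, then `κ(t(v,w)) ≠ 0` implies `cosh d - 1 < τ`, `d < 1.5√τ`. Representation: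
`conv κb f (v) = ∫ κb(t(z,v)) f(z) dz` and Fubini for every factor `conv κ`, `conv κa` (bounded, supported in compact sets for
`v` fixed). Continuity in both variables: dominated convergence, induction on the number of factors. -/
def SRK_stmt : Prop := ∀ (κ κa κb : ℝ → ℝ) (p : ℝ[X]), RK κ → RK κa → RK κb →
  Continuous (Function.uncurry (Sk κ p κa κb)) ∧
  (∀ (g : SL(2, ℝ)) (z v : ℍ), Sk κ p κa κb (g • z) (g • v) = Sk κ p κa κb z v) ∧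
  (∀ τ η : ℝ, 0 ≤ τ → τ ≤ 1 → 0 ≤ η → η ≤ 1 → (∀ t, τ ≤ t → κ t = 0) → (∀ t, η ≤ t → κa t = 0) →
    (∀ t, η ≤ t → κb t = 0) → ∀ z v, Sk κ p κa κb z v ≠ 0 →
      dist z v ≤ 2 * (p.natDegree * Real.sqrt τ + 2)) ∧
  ∀ (E : Type) [NormedAddCommGroup E] [NormedSpace ℝ E] [CompleteSpace E] (f : ℍ → E),
    StronglyMeasurable f → (∃ m : ℝ, ∀ z, ‖f z‖ ≤ m) →
    Continuous (conv κb f) ∧ ∀ v, pA κ p (conv κa (conv κb f)) v = ∫ z : ℍ, Sk κ p κa κb z v • f z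

/-- **Row LPA** (short), from CVI. `Δ(conv κa χ) - μ₀ conv κa χ = conv (LL κa - μ₀ κa) χ` for continuous `χ` (CVS of QU), and
`lap` commutes with `pA κ p` on functions of class `C²` (CVS, COM; induction). -/
def LPA_stmt : Prop := ∀ (E : Type) [NormedAddCommGroup E] [NormedSpace ℝ E] [CompleteSpace E]
  (κ κa : ℝ → ℝ) (p : ℝ[X]) (μ₀ : ℝ) (χ : ℍ → E), RK κ → RK κa → Continuous χ →
  CD ∞ (pA κ p (conv κa χ)) ∧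
  (HasCompactSupport χ → HasCompactSupport (pA κ p (conv κa χ))) ∧
  ∀ z, lap (pA κ p (conv κa χ)) z - μ₀ • pA κ p (conv κa χ) z =
    pA κ p (conv (fun t => LL κa t - μ₀ * κa t) χ) z

/-- **Row AKR** (medium), from SRK. `aS H S` is continuous (dominated convergence), symmetric, invariant, proper. Forms:
Fubini (SYM-type unfolding as in KER of QU, for bounded measurable sections):
`∫_{z∈F} ∫_w a(z,w) Re⟪f(z), f(w)⟫ = ∫_{v∈F} H(v) ‖∫ S(z,v) f(z) dz‖²`. -/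
def AKR_stmt : Prop := ∀ (Γ : Subgroup SL(2, ℝ)) (F : Set ℍ) (H : ℍ → ℝ) (S : ℍ → ℍ → ℝ) (R : ℝ),
  SurfaceGroup Γ → NiceDom Γ F → Inv Γ H → Continuous (Function.uncurry S) →
  (∀ (γ : Γ) (z v : ℍ), S (γ • z) (γ • v) = S z v) → (∀ z v, S z v ≠ 0 → dist z v ≤ R) →
  PKer Γ (aS H S) ∧ (∀ z w, aS H S z w ≠ 0 → dist z w ≤ 2 * R) ∧
  (∀ (V : Type) [NormedAddCommGroup V] [InnerProductSpace ℂ V] [CompleteSpace V]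
    (ρ : Γ →* (V ≃ₗᵢ[ℂ] V)) (φ : ℍ → V), SecB ρ φ →
    (∫ z in F, ∫ w : ℍ, aS H S z w * (inner ℂ (φ z) (φ w)).re) =
      ∫ v in F, H v * ‖∫ z : ℍ, S z v • φ z‖ ^ 2) ∧
  ∀ f : ℍ → ℝ, StronglyMeasurable f → (∃ m : ℝ, ∀ z, |f z| ≤ m) → HasCompactSupport f →
    (∫ z : ℍ, ∫ w : ℍ, aS H S z w * (f z * f w)) = ∫ v : ℍ, H v * (∫ z : ℍ, S z v * f z) ^ 2

/-- **Row DSC** (medium-long; discretisation), from UTR. Put `ν_i = (√vol c_i)⁻¹` (`0` if the volume is `0`). (1) symmetry and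
invariance of `a`. (2) For `v : Fin k → V` let `φ_v(γ⁻¹ z) = ρ(γ)⁻¹ (∑_i 1_{c_i}(z) ν_i v_i)` for `z ∈ F`; then `∫_F ‖φ_v‖² ≤ ∑‖v_i‖²` and
`∑_{ij} ⟪v_i, rep ρ (m_ij) v_j⟫ = ∑_γ ∑_{ij} ν_i ν_j ∫_{c_i} ∫_{c_j} a(z,γw) ⟪v_i, ρ(γ) v_j⟫ = ∫_F ∫_ℍ a(z,w) ⟪φ_v(z), φ_v(w)⟫` (unfolding
`w = γw'`; only `γ ∈ S` contribute). (3) For a section `φ` constant on the cells, `v_i = √vol(c_i) φ(c_i)`: the same identity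
(null cells do not matter). (4) regular representation: `e_i = ∑ e_i(γ) γ`; with `f(γ⁻¹z) = ∑_i 1_{c_i}(z) ν_i e_i(γ)` for `z ∈ F` (compactly
supported, complex valued) one has `∑ ip (e_i) (m_ij e_j) = ∫∫ a(z,w) conj f(z) f(w)`, the real part is the sum of the forms of `Re f`
and `Im f`. Compare TR2, TR3 of QU. -/
def DSC_stmt : Prop := ∀ (Γ : Subgroup SL(2, ℝ)) (F : Set ℍ) (a : ℍ → ℍ → ℝ) (S : Finset Γ) (k : ℕ)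
  (c : Fin k → Set ℍ), SurfaceGroup Γ → NiceDom Γ F → PKer Γ a → (∀ γ ∈ S, γ⁻¹ ∈ S) →
  (∀ (γ : Γ) (z w : ℍ), z ∈ F → w ∈ F → a z (γ • w) ≠ 0 → γ ∈ S) →
  (∀ i, MeasurableSet (c i)) → (⋃ i, c i) = F → (∀ i j, i ≠ j → Disjoint (c i) (c j)) →
  SA (mI a S c) ∧ Sup (mI a S c) (S : Set Γ) ∧
  (∀ (V : Type) [NormedAddCommGroup V] [InnerProductSpace ℂ V] [CompleteSpace V]
    (ρ : Γ →* (V ≃ₗᵢ[ℂ] V)),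
    (∀ v : Fin k → V, ∃ φ : ℍ → V, SecB ρ φ ∧ ∫ z in F, ‖φ z‖ ^ 2 ≤ ∑ i, ‖v i‖ ^ 2 ∧
      (∑ i, ∑ j, inner ℂ (v i) (rep ρ (mI a S c i j) (v j))).re =
        ∫ z in F, ∫ w : ℍ, a z w * (inner ℂ (φ z) (φ w)).re) ∧
    ∀ φ : ℍ → V, SecB ρ φ → (∀ i, ∀ z ∈ c i, ∀ w ∈ c i, φ z = φ w) →
      ∃ v : Fin k → V, ∑ i, ‖v i‖ ^ 2 = (∫ z in F, ‖φ z‖ ^ 2) ∧
        (∑ i, ∑ j, inner ℂ (v i) (rep ρ (mI a S c i j) (v j))).re =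
          ∫ z in F, ∫ w : ℍ, a z w * (inner ℂ (φ z) (φ w)).re) ∧
  ∀ e : Fin k → MonoidAlgebra ℂ Γ, ∃ f₁ f₂ : ℍ → ℝ, StronglyMeasurable f₁ ∧ StronglyMeasurable f₂ ∧
    (∃ m : ℝ, ∀ z, |f₁ z| ≤ m ∧ |f₂ z| ≤ m) ∧ HasCompactSupport f₁ ∧ HasCompactSupport f₂ ∧
    (∑ i, ∑ j, ip (e i) (mI a S c i j * e j)).re =
      (∫ z : ℍ, ∫ w : ℍ, a z w * (f₁ z * f₁ w)) + ∫ z : ℍ, ∫ w : ℍ, a z w * (f₂ z * f₂ w)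

/-- **Row UTR** (short-medium). Let `V = lp (fun _ : G => ℂ) 2` with the left regular representation
`(λ(γ) f)(x) = f(γ⁻¹ x)`; an element `e` of the group algebra is a vector of `V`, `rep λ a e = a * e`, `⟪e, e'⟫ = ip e e'`,
`‖e‖ = l2 e`. Second clause: `0 ≤ ⟨e, P e⟩ ≤ K ‖e‖²` for a self-adjoint `P` gives `‖P e‖ ≤ K ‖e‖` (Cauchy-Schwarz for the
form `⟨e, P f⟩`; compare SCM of QU). -/
def UTR_stmt : Prop := ∀ (G : Type) [Group G] (D : ℕ) (P : Mat D G) (K : ℝ), SA P → UnB P K → 0 ≤ K →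
  (∀ e : Fin D → MonoidAlgebra ℂ G, |(∑ i, ∑ j, ip (e i) (P i j * e j)).re| ≤ K * ∑ i, l2 (e i) ^ 2) ∧
  ((∀ e : Fin D → MonoidAlgebra ℂ G, (∑ i, ∑ j, ip (e i) (P i j * e j)).re ≤ 0) →
    RegB (P + K • (1 : Mat D G)) K ∧ SA (P + K • (1 : Mat D G)) ∧ UnB (P + K • (1 : Mat D G)) (2 * K))

/-- **Row NEG** (short-medium), from KLU, SRK, LPA, AKR. `κ = fm κ₁ τ`, `κa = fm κ₁ η`. `u = pA κ p (conv κa (conv κa f))` is `CD ∞` with compact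
support (LPA; `conv κa f` is continuous (SRK) with compact support), `lap u - μ₀ u = pA κ p (conv (LL κa - μ₀ κa) (conv κa f))` (LPA);
representation by `Sk` (SRK), AKR (last clause, `SurfaceGroup`, `Inv`) for both terms, and KLU. (`LL κa = 0` on `[η,∞)`.) -/
def NEG_stmt : Prop := ∀ (κ₁ : ℝ → ℝ) (C₁ : ℝ), BF κ₁ C₁ → ∀ (Γ : Subgroup SL(2, ℝ)) (F : Set ℍ)
  (h : ℍ → ℝ), SurfaceGroup Γ → NiceDom Γ F → Inv Γ h → (∫ z in F, h z) = 0 → ∀ δ : ℝ, 0 < δ →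
  ∃ C : ℝ, 0 ≤ C ∧ ∀ (μ₀ τ η : ℝ) (p : ℝ[X]), 0 ≤ μ₀ → 0 < τ → τ ≤ 1 → 0 < η → η ≤ 1 →
  ∀ f : ℍ → ℝ, StronglyMeasurable f → (∃ m : ℝ, ∀ z, |f z| ≤ m) → HasCompactSupport f →
    (∫ z : ℍ, ∫ w : ℍ, (aS (fun v => h v - δ) (Sk (fm κ₁ τ) p (fm κ₁ η) (fm κ₁ η)) z w -
      C * wt μ₀ * aS (fun _ => 1)
        (Sk (fm κ₁ τ) p (fun t => LL (fm κ₁ η) t - μ₀ * fm κ₁ η t) (fm κ₁ η)) z w) * (f z * f w)) ≤ 0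

/-- **Row PTN** (short-medium). `F ⊆ K` compact, `K ⊆ {|x| ≤ a, b ≤ y ≤ c}`; intersect `F` with the half-open squares of side `ζ b/4`, drop the
empty ones (`dist z w ≤ 2|z-w|/(2√(Im z Im w))`-type bound, `UpperHalfPlane.dist` and `arsinh`). -/
def PTN_stmt : Prop := ∀ (Γ : Subgroup SL(2, ℝ)) (F : Set ℍ), NiceDom Γ F → ∃ A : ℝ, 1 ≤ A ∧
  ∀ ζ : ℝ, 0 < ζ → ζ ≤ 1 → ∃ (k : ℕ) (c : Fin k → Set ℍ) (p : Fin k → ℍ), (k : ℝ) ≤ A / ζ ^ 2 ∧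
    (∀ i, MeasurableSet (c i)) ∧ (∀ i, p i ∈ c i) ∧ (⋃ i, c i) = F ∧
    (∀ i j, i ≠ j → Disjoint (c i) (c j)) ∧ ∀ i, ∀ z ∈ c i, ∀ w ∈ c i, dist z w ≤ ζ

/-- **Row LIQ** (short-medium). `|fm η (t(z,v)) - fm η (t(w,v))| ≤ (sup|κ₁'|/η²) |t(z,v) - t(w,v)|`, it vanishes unless `v` is at distance `≤ 3` of
`z`, and there `|t(z,v) - t(w,v)| = |cosh d(z,v) - cosh d(w,v)| ≤ C dist z w` (`dist z w ≤ 1`). `∫_{B(z,3)} ‖φ‖ ≤ C (∫_{B(z,3)} ‖φ‖²)^{1/2}` and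
`B(z,3)`, `z ∈ F`, meets only boundedly many translates of `F` (DOB). For general `z` translate. -/
def LIQ_stmt : Prop := ∀ (κ₁ : ℝ → ℝ) (C : ℝ), BF κ₁ C → ∀ (Γ : Subgroup SL(2, ℝ)) (F : Set ℍ),
  SurfaceGroup Γ → NiceDom Γ F → ∃ A : ℝ, 1 ≤ A ∧
  ∀ (V : Type) [NormedAddCommGroup V] [InnerProductSpace ℂ V] [CompleteSpace V]
    (ρ : Γ →* (V ≃ₗᵢ[ℂ] V)) (φ : ℍ → V) (η : ℝ) (z w : ℍ), 0 < η → η ≤ 1 → SecB ρ φ → dist z w ≤ 1 →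
    ‖conv (fm κ₁ η) φ z - conv (fm κ₁ η) φ w‖ ≤
      A / η ^ 2 * dist z w * Real.sqrt (∫ z in F, ‖φ z‖ ^ 2)

/-- **Row DET** (medium-long; deterministic part), from BMP, YNM, GKL, WBA, SRK, LPA, AKR, DSC, UTR, NEG, PTN, LIQ.
Constants: `C_W ≥ 1` of WBA, `|h| ≤ m`, `δ₁ = min(1, ε)/(26 C_W² (1+m))`, `C_N` of NEG for `δ₁`, `δ' = δ₁/(C_W² (C_N+1))`, `K = (m+1) C_W² + C_N C_W² + 1`
(so `K`, `δ'` do not depend on `b`, `μ₀`); the `δ` of the statement is `δ'`. Fix `b`, `μ₀`; `η, τ, p` of WBA for `δ'`; `Q = conv (fm η)`, `W = pA (fm τ) p`.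
`S₁ = Sk (fm τ) p (fm η) (fm η)`, `S₂ = Sk (fm τ) p (LL (fm η) - μ₀ fm η) (fm η)`, `a = aS (h - δ₁) S₁ - C_N wt(μ₀) aS 1 S₂`: `PKer`, propagation
`≤ 4(C_W log(2+b) + 2) ≤ A log(2+b)`, and by AKR, SRK, LPA for a bounded section `f`, `χ = Q f` (`‖χ‖ ≤ ‖f‖`, YNM), `u = WQχ`:
form of `a` at `f` `= ∫_F (h-δ₁)‖u‖² - C_N wt(μ₀) ∫_F ‖Δu - μ₀u‖²`, of absolute value `≤ K ‖f‖²` (WBA [A], [B]). Cells of PTN with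
`ζ = δ₁ η²/(4 K A' (1+√vol F))` (`A'` of LIQ), `S` = the finite set (DOB of QU) of the `γ` with `dist z (γw) ≤ ...` for some `z, w ∈ F`, `P = mI a S c + K • 1`:
DSC (2), (4), NEG and UTR: `SA P`, `UnB P (2K)`, `RegB P K`; `k ≤ A''/ζ² ≤ A (2+b)^8` (`ζ` is a constant times `(2+b)^{-4}`).
Let `RepB ρ P (K+δ')`; then the form of `mI a S c` in `ρ` is `≤ δ' ∑‖v_i‖²`. Let `φ` be an eigensection, `|μ-μ₀| ≤ δ'/log²(2+b)`, `N = ‖φ‖`, `φ' = Qφ`, `Eφ'` the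
section with the value `φ'(p_i)` on `c_i`: `|φ' - Eφ'| ≤ (A'/η²) ζ N` on `F` (LIQ), so `‖φ' - Eφ'‖ ≤ (δ₁/(4K)) N`. The form of `a` is symmetric and bounded by
`K`, so its values at `φ'` and `Eφ'` differ by `≤ K ‖φ' - Eφ'‖ (‖φ'‖ + ‖Eφ'‖) ≤ δ₁ N²`; by DSC (3) its value at `Eφ'` is `≤ δ' ‖Eφ'‖² ≤ 4 δ₁ N²`.
So with `u = WQQφ' = WQQ(Qφ)`: `∫_F (h-δ₁)‖u‖² - C_N wt ∫‖Δu - μ₀u‖² ≤ 5 δ₁ N²`. By WBA [C] for `WQQφ`, [A], [B] for `WQ(Q(Qφ - φ))` and `‖Qφ - φ‖ ≤ δ'N` (GKL with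
`m = 1`, `s = η`; `ημ/2 ≤ δ'`): `‖u - φ‖ ≤ 2 C_W δ' N`, `wt ∫‖Δu - μ₀u‖² ≤ (2 C_W δ')² N²`. Hence `∫ h‖u‖² ≤ 5δ₁N² + 4δ₁N² + δ₁ (3C_W)² N²` and
`∫ h‖φ‖² ≤ ∫ h‖u‖² + m ‖u-φ‖ (‖u‖+‖φ‖) ≤ 26 C_W² (1+m) δ₁ N² ≤ ε N²`. -/
def DET_stmt : Prop := ∀ (Γ : Subgroup SL(2, ℝ)) (F : Set ℍ) (h : ℍ → ℝ), SurfaceGroup Γ →
  NiceDom Γ F → Inv Γ h → (∫ z in F, h z) = 0 → ∀ ε : ℝ, 0 < ε → ∃ K δ A : ℝ, 1 ≤ K ∧ 0 < δ ∧ 1 ≤ A ∧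
  ∀ b μ₀ : ℝ, 0 ≤ b → 0 ≤ μ₀ → μ₀ ≤ b → ∃ (k : ℕ) (P : Mat k Γ), 1 ≤ k ∧
    (k : ℝ) ≤ A * (2 + b) ^ 8 ∧ SA P ∧ UnB P (2 * K) ∧ RegB P K ∧
    Sup P {γ : Γ | ∃ z ∈ F, ∃ w ∈ F, dist z (γ • w) ≤ A * Real.log (2 + b)} ∧
    ∀ (V : Type) [NormedAddCommGroup V] [InnerProductSpace ℂ V] [CompleteSpace V]
      (ρ : Γ →* (V ≃ₗᵢ[ℂ] V)), RepB ρ P (K + δ) →
      ∀ (φ : ℍ → V) (μ : ℝ), IsEigensection ρ μ φ → 0 ≤ μ → μ ≤ b →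
        |μ - μ₀| ≤ δ / (Real.log (2 + b)) ^ 2 →
        ∫ z in F, h z * ‖φ z‖ ^ 2 ≤ ε * ∫ z in F, ‖φ z‖ ^ 2

/-! ### Group F: the theorem -/

/-- **Row SVM** (medium; Svarc-Milnor). `F ⊆ K`, `K` compact. `S₀ = {γ : dist(K, γK) ≤ 1}` is finite (properness). If `z, w ∈ F`,
`dist z (γw) ≤ R`: choose points `z = z_0, z_1, ..., z_n = γw` on the geodesic (or any path: `ℍ` is a geodesic space; e.g. by `SL(2,ℝ)`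
`z = i`, `γw = i e^d` up to an isometry) with `dist z_i z_{i+1} ≤ 1/3`, `n ≤ 3R + 1`, `z_i ∈ γ_i F`, `γ_0 = 1`, `γ_n = γ`; then
`γ_i⁻¹ γ_{i+1} ∈ S₀`. Every element of `S₀` is mapped by `e` to a word of bounded length. -/
def SVM_stmt : Prop := ∀ (Γ : Subgroup SL(2, ℝ)) (F : Set ℍ) (g : ℕ) (e : Γ ≃* SurfGrp g),
  SurfaceGroup Γ → NiceDom Γ F → ∃ A : ℕ, 1 ≤ A ∧ ∀ (R : ℝ) (n : ℕ), 0 ≤ R → R ≤ n →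
    ∀ γ : Γ, (∃ z ∈ F, ∃ w ∈ F, dist z (γ • w) ≤ R) → e γ ∈ SLen g (A * (n + 1))

/-- the good event: all eigensections with eigenvalue at most `exp(N^s)` of the flat bundle given by `x` are
nearly equidistributed for `h` -/
def Good (Γ : Subgroup SL(2, ℝ)) (F : Set ℍ) (h : ℍ → ℝ) (ε s : ℝ) (N : ℕ) (ρ : Γ →* (EuclideanSpace ℂ (Fin N) ≃ₗᵢ[ℂ] EuclideanSpace ℂ (Fin N))) : Prop :=
  ∀ (φ : ℍ → EuclideanSpace ℂ (Fin N)) (μ : ℝ), IsEigensection ρ μ φ → 0 ≤ μ →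
    μ ≤ Real.exp ((N : ℝ) ^ s) → ∫ z in F, h z * ‖φ z‖ ^ 2 ≤ ε * ∫ z in F, ‖φ z‖ ^ 2

/-- **Row PRB** (medium-long), from SCU, LMQ, DET, SVM. Let `s₀` of SCU, `s = s₀/16`. `θ N` is the map of LMQ composed with `e`, for
`q = q_N = ⌈N^{2s}⌉`, `j = j_N` with `N^{4s} ≤ 2^j ≤ 2 N^{4s}` (they do not depend on `h`, `ε`). Given `h`, `ε`: `b = exp(N^s)`, `T = log(2+b) ≤ 2N^s` (large `N`).
For the grid points `μ₀ = min(i δ/T², b)`, `i ≤ b T²/δ + 1`, take `P_{μ₀}` of DET. By SVM `pushM e P` has support in `SLen g (A'(⌈A T⌉+1)) ⊆ SLen g q` for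
large `N`. `k (ℓ+1)² K^{2^j} ≤ (K + δ/2)^{2^j}`, `ℓ = A''(2^j q + 1) 2^j q`, since `k ≤ A (2+b)^8` and `2^j log(1 + δ/(2K)) ≥ log A + 8 T + 2 log(ℓ+1)` for large `N`.
`P' = pushM θ (pushM e P)`: `SA`, degree `≤ A''(2^j q+1) q ≤ C N^{8s} ≤ N^{s₀}`, `UnB P' (2K)` (a representation of `F2` composed with `θ N` is one of `Γ`),
`RegB P' (K + δ/2)` (LMQ; `RegB` of `pushM e P` since `e` is an isomorphism, SUB of RP or directly). By SCU (`r = K + δ/2`, `δ/2`) the event `¬ RepB (UR c x) P' (K + δ)` has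
probability `≤ exp(-N^{s₀})`; there are at most `exp(4 N^s)` grid points; `B` = union. Outside `B` `ρ = (UR c x).comp (θ N)` satisfies
`RepB ρ P_{μ₀} (K+δ)` for all grid points (PUS of RP), so `Good` holds by DET. The constants `c`, `s` do not depend on `Γ`, `h`, `ε`. -/
def PRB_stmt : Prop := ∃ c s : ℝ, 0 < s ∧ ∀ (Γ : Subgroup SL(2, ℝ)) (g : ℕ) (_ : Γ ≃* SurfGrp g), 2 ≤ g →
  SurfaceGroup Γ → ∃ θ : ℕ → (Γ →* F2), ∀ (F : Set ℍ) (h : ℍ → ℝ), NiceDom Γ F → Inv Γ h →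
  (∫ z in F, h z) = 0 → ∀ ε : ℝ, 0 < ε → ∃ N₀ : ℕ, ∀ N : ℕ, N₀ ≤ N → ∃ B : Set (GI N → ℝ),
    (gau (GI N)).real B ≤ Real.exp (-(N : ℝ) ^ s) ∧ ∀ x : GI N → ℝ, x ∉ B →
      Good Γ F h ε s N ((UR c x).comp (θ N))

/-- **Row SEP** (short-medium). `K` compact with `Γ K = ℍ`; the restrictions of the functions in `Inv Γ` to `K` are a subset of
the separable metric space `C(K, ℝ)`, so there is a countable dense subset; `sup_ℍ |h - h'| = sup_K |h - h'|`. -/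
def SEP_stmt : Prop := ∀ Γ : Subgroup SL(2, ℝ), SurfaceGroup Γ → ∃ H : ℕ → ℍ → ℝ, (∀ i, Inv Γ (H i)) ∧
  ∀ h : ℍ → ℝ, Inv Γ h → ∀ ε : ℝ, 0 < ε → ∃ i, ∀ z, |h z - H i z| ≤ ε

/-- **The theorem** (row FBE; medium), from PRB, SEP. Fix a nice domain `F` (DOM of QU), the functions `± (H i - mean)` and `ε = 1/(l+1)`, enumerated as `(h_i, ε_i)`. By
PRB there are `N_i` such that for `N ≥ N_i` the set `B_{i,N}` exists and `exp(-N^s) ≤ 2^{-i-2}`. For every `N` the union of the `B_{i,N}`, `N_i ≤ N`, has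
measure `≤ 1/2`; take `x_N` outside and `ρ_N = (UR c x_N).comp (θ N)`. Given `h`, `ε` take `i` with `|h - H i| ≤ ε/4`. Other fundamental domains: DOB of QU
(`h ‖φ‖²` and `‖φ‖²` are invariant). -/
def FBE_stmt : Prop := ∃ s : ℝ, 0 < s ∧ ∀ Γ : Subgroup SL(2, ℝ), SurfaceGroup Γ → ∀ g : ℕ, 2 ≤ g →
  Nonempty (Γ ≃* SurfGrp g) →
  ∃ ρ : ∀ n : ℕ, Γ →* (EuclideanSpace ℂ (Fin n) ≃ₗᵢ[ℂ] EuclideanSpace ℂ (Fin n)),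
    ∀ h : ℍ → ℝ, IsTest Γ h → ∀ ε : ℝ, 0 < ε → ∀ᶠ n in atTop,
      ∀ (μ : ℝ) (φ : ℍ → EuclideanSpace ℂ (Fin n)), 0 ≤ μ → μ ≤ Real.exp ((n : ℝ) ^ s) →
        IsEigensection (ρ n) μ φ → Equidist Γ h (fun z => ‖φ z‖ ^ 2) ε

end Pool.Agent.QX
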