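import Pool.Agent.helper4.QX.SpecD
import Pool.Agent.helper62.QX.SpecT
import Pool.Agent.helper10.QU.FI2

set_option autoImplicit false

/-!
# Project QX (MP_07c750), part E: covers with windows `[0, n^c]` (theorem T1). Rows `qe:X`

Prove `X_stmt` in `Pool/Agent/<seat>/QX/X.lean`, namespace `Pool.Agent.QX`, auxiliary lemmas prefixed `X_`.
-/

open scoped MatrixGroups ContDiff Topology UpperHalfPlane
open UpperHalfPlane MeasureTheory ProbabilityTheory Filter Set Polynomial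
open Pool.Agent.QU Pool.Agent.RP

namespace Pool.Agent.QX

/-- all new eigenfunctions with eigenvalue at most `N^c` of the cover given by `σ` are nearly equidistributed
for `h` -/
def GoodP (Γ : Subgroup SL(2, ℝ)) (F : Set ℍ) (h : ℍ → ℝ) (ε c : ℝ) (N : ℕ)
    (σ : Γ →* Equiv.Perm (Fin N)) : Prop :=
  ∀ (μ : ℝ) (φ : ℍ → Fin N → ℂ), 0 ≤ μ → μ ≤ (N : ℝ) ^ c → IsNewEigenfunction σ μ φ →
    ∫ z in F, h z * ∑ i, ‖φ z i‖ ^ 2 ≤ ε * ∫ z in F, ∑ i, ‖φ z i‖ ^ 2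

/-- **Row ZRP** (short-medium). `FI2_S N` is the space of vectors of sum zero, `FI2_rho σ` the restriction of `permRep σ`
(Pool/Agent/helper10/QU/FI2.lean, see also helper62/QU/FI4.lean for the second clause: `ψ z = ⟨φ z, sum zero⟩`). First clause:
`rep (FI2_rho σ) a v` is the restriction (FI2_rep). -/
def ZRP_stmt : Prop := ∀ (N : ℕ),
  (∀ (G : Type) [Group G] (f : G →* F2) (D : ℕ) (P : Mat D G) (r : ℝ) (σ : F2 →* Equiv.Perm (Fin N)),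
    RepZ σ (pushM f P) r → RepB (V := FI2_S N) (FI2_rho (σ.comp f)) P r) ∧
  ∀ (Γ : Subgroup SL(2, ℝ)) (σ : Γ →* Equiv.Perm (Fin N)) (μ : ℝ) (φ : ℍ → Fin N → ℂ),
    IsNewEigenfunction σ μ φ → ∃ ψ : ℍ → FI2_S N, IsEigensection (V := FI2_S N) (FI2_rho σ) μ ψ ∧
      ∀ z, ‖ψ z‖ ^ 2 = ∑ i, ‖φ z i‖ ^ 2

/-- **Row PRT** (medium-long), from SCP, LMQ, DET, SVM, ZRP. As PRB (Pool/Agent/helper13/QX/PRB.lean) with `b = N^c`, `c = s₀/16`, `s₀` of SCP: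
`θ N` is the map of LMQ composed with `e` for `q = ⌈N^{2s}⌉`, `N^{4s} ≤ 2^j ≤ 2 N^{4s}`, `s = s₀/16`. The matrices `P_{μ₀}` of DET have size `k ≤ A (2+b)^8 ≤ N^{s₀}`
for large `N` (`8c < s₀`), there are at most `N^{2c}` grid points, every bad event of SCP (`r = K + δ/2`, `δ/2`) has
`≤ N^{-s₀} (N!)²` elements; so `|B| ≤ N^{2c - s₀} (N!)² ≤ N^{-s₀/2} (N!)²`. ZRP to pass from `RepZ` to `RepB` and from `φ` to `ψ`. The element `a` (transitivity): a given self-adjoint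
`a` in `ℂ[Γ]` is treated as a `1 × 1` matrix (`UnB` with `∑‖a γ‖`, `RegB` with `regNorm a`): the last clause. -/
def PRT_stmt : Prop := ∃ c t : ℝ, 0 < c ∧ 0 < t ∧ ∀ (Γ : Subgroup SL(2, ℝ)) (g : ℕ) (_ : Γ ≃* SurfGrp g), 2 ≤ g →
  SurfaceGroup Γ → ∃ θ : ℕ → (Γ →* F2),
  (∀ (F : Set ℍ) (h : ℍ → ℝ), NiceDom Γ F → Inv Γ h → (∫ z in F, h z) = 0 → ∀ ε : ℝ, 0 < ε →
    ∃ N₀ : ℕ, ∀ N : ℕ, N₀ ≤ N → ∃ B : Finset (Fin 2 → Equiv.Perm (Fin N)),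
      (B.card : ℝ) ≤ (N : ℝ) ^ (-t) * (N.factorial : ℝ) ^ 2 ∧ ∀ σ, σ ∉ B →
        GoodP Γ F h ε c N ((FreeGroup.lift σ).comp (θ N))) ∧
  ∀ (a : MonoidAlgebra ℂ Γ) (ε : ℝ), adj a = a → 0 < ε → ∃ N₀ : ℕ, ∀ N : ℕ, N₀ ≤ N →
    ∃ B : Finset (Fin 2 → Equiv.Perm (Fin N)), (B.card : ℝ) ≤ (N : ℝ) ^ (-t) * (N.factorial : ℝ) ^ 2 ∧
      ∀ σ, σ ∉ B → ∀ v : EuclideanSpace ℂ (Fin N), ∑ i, v i = 0 →
        ‖rep (permRep ((FreeGroup.lift σ).comp (θ N))) a v‖ ≤ (regNorm a + ε) * ‖v‖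

/-- **The theorem** (row FBC; medium), from PRT, SEP. As FBE (Pool/Agent/helper52/QX/FBE.lean). Countably many events: the functions `± (H i - mean)`
with `ε = 1/(l+1)`, and one more: transitivity. For it take `s : F2 → SurfGrp g` injective (SGF of RP, `Pool.Agent.RP.A_SGF`), `TRA` of RP (`A_TRA`) for `Γ` gives `a`, `ε`; in the
proof of TRA `a = push s f`, `f` not self-adjoint: apply the last clause of PRT to `adj a * a` (`regNorm (adj a * a) ≤ (regNorm a)²`, REP, ADJ of RP: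
`‖rep a v‖² ≤ ‖rep (adj a * a) v‖ ‖v‖`). For large `N` (`∑_i` of the measures `< 1`; `N^{-t} ≤ 2^{-i-2}` for `N ≥ N_i`) choose `σ` outside all `B_i`. For the finitely many other
`N` (and whenever no condition is imposed) take the transitive `σ` of SGF. -/
def FBC_stmt : Prop := ∃ c : ℝ, 0 < c ∧ ∀ Γ : Subgroup SL(2, ℝ), SurfaceGroup Γ → ∀ g : ℕ, 2 ≤ g →
  Nonempty (Γ ≃* SurfGrp g) →
  ∃ σ : ∀ n : ℕ, Γ →* Equiv.Perm (Fin n), (∀ n i j, ∃ γ, σ n γ i = j) ∧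
    ∀ h : ℍ → ℝ, IsTest Γ h → ∀ ε : ℝ, 0 < ε → ∀ᶠ n in atTop,
      ∀ (μ : ℝ) (φ : ℍ → Fin n → ℂ), 0 ≤ μ → μ ≤ (n : ℝ) ^ c →
        IsNewEigenfunction (σ n) μ φ → Equidist Γ h (fun z => ∑ i, ‖φ z i‖ ^ 2) ε

end Pool.Agent.QX
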