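import Pool.Agent.helper4.QX.Defs
import Pool.Agent.helper62.RP.Spec

set_option autoImplicit false

/-!
# Project QX (MP_07c750), part M: strong convergence with matrix coefficients of exponential size. Rows `qm:X`

Prove `X_stmt` in `Pool/Agent/<seat>/QX/X.lean`, namespace `Pool.Agent.QX`, auxiliary lemmas prefixed `X_`.
The theorem has the rows listed after the word from as hypotheses, in this order (`h1 : EXWc c C` etc. are part of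
the statements). Finished rows of helper62's projects (`Pool.Agent.helper62.RP.All`, `...QU.All`) may be used.

Plan. `P` self-adjoint in `M_D(ℂ[F2])`, of degree `q`, bounded by `K` in all unitary representations and by `r` in the
regular one. `E tr h(P(U)/K)` is a power series in `1/N²` (EXH). (1) first order: probability of a norm
`> r + δ` tends to zero (SF1), hence by concentration it is `O(N^-k)` for all `k` (SUP). (2) for a test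
function `G` which vanishes on the spectrum, `E tr G` has an expansion to order `m` with explicit remainder (GEX),
by (1) all its coefficients vanish (VAN), so `E tr G` is bounded by the remainder (SCU).
-/

open scoped MatrixGroups ContDiff Topology UpperHalfPlane
open UpperHalfPlane MeasureTheory ProbabilityTheory Filter Set Polynomial
open Pool.Agent.QU Pool.Agent.RP

namespace Pool.Agent.QX

/-- the statement of `EXW` for given constants -/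
def EXWc (c C : ℝ) : Prop := 0 < c ∧ c ≤ 2 ∧ 1 ≤ C ∧ ∀ w : F2, ∃ f : ℕ → ℂ,
  Summable (fun k => ‖f k‖) ∧ ∑' k, ‖f k‖ ≤ Real.exp (C * ((w.norm : ℝ) + 1) ^ 2) ∧
  f 0 = (if w = 1 then 1 else 0) ∧ ∀ N : ℕ, 1 ≤ N →
    ∫ x, Matrix.trace ((UG c x w : Matrix.unitaryGroup (Fin N) ℂ) : Matrix (Fin N) (Fin N) ℂ)
      ∂(gau (GI N)) = N * ∑' k, f k / (N : ℂ) ^ (2 * k)

/-- the matrix of `P` in the representation given by `x` -/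
noncomputable def RM {D N : ℕ} (c : ℝ) (x : GI N → ℝ) (P : Mat D F2) :
    Matrix (Fin D × Fin N) (Fin D × Fin N) ℂ :=
  fun s t => ∑ w ∈ (P s.1 t.1).coeff.support, (P s.1 t.1).coeff w *
    ((UG c x w : Matrix.unitaryGroup (Fin N) ℂ) : Matrix (Fin N) (Fin N) ℂ) s.2 t.2

/-- the norm of `P` in the representation given by `x` -/
noncomputable def opn {D N : ℕ} (c : ℝ) (x : GI N → ℝ) (P : Mat D F2) : ℝ :=
  ‖Matrix.toEuclideanCLM (n := Fin D × Fin N) (𝕜 := ℂ) (RM c x P)‖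

/-- normalised trace of `h(P(U)/K)` -/
noncomputable def nt {D N : ℕ} (c K : ℝ) (P : Mat D F2) (h : ℝ[X]) (x : GI N → ℝ) : ℝ :=
  (Matrix.trace (RM c x (aeval (K⁻¹ • P) h))).re / (D * N)

/-- `y(x) = ∑_j c_j nt(T_j)`, the normalised trace of `G(arccos(P(U)/K))` -/
noncomputable def yG {D N : ℕ} (c K : ℝ) (P : Mat D F2) (g : ℕ → ℝ) (x : GI N → ℝ) : ℝ :=
  ∑' j : ℕ, g j * nt c K P (Polynomial.Chebyshev.T ℝ (j : ℤ)) x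

/-- **Row MRA** (medium). `P ↦ RM c x P` is the `*`-homomorphism `M_D(ℂ[F2]) → M_D(M_N(ℂ))` given by
`w ↦ UG c x w`. -/
def MRA_stmt : Prop := ∀ (D N : ℕ) (c : ℝ) (x : GI N → ℝ),
  (∀ P Q : Mat D F2, RM c x (P * Q) = RM c x P * RM c x Q ∧ RM c x (P + Q) = RM c x P + RM c x Q) ∧
  (∀ (t : ℝ) (P : Mat D F2), RM c x (t • P) = t • RM c x P) ∧ RM c x (1 : Mat D F2) = 1 ∧
  (∀ (P : Mat D F2) (h : ℝ[X]), RM c x (aeval P h) = aeval (RM c x P) h) ∧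
  (∀ P : Mat D F2, SA P → (RM c x P).IsHermitian) ∧
  ∀ (P : Mat D F2) (S : Finset F2), Sup P (S : Set F2) → Matrix.trace (RM c x P) =
    ∑ w ∈ S, (∑ i, (P i i).coeff w) *
      Matrix.trace ((UG c x w : Matrix.unitaryGroup (Fin N) ℂ) : Matrix (Fin N) (Fin N) ℂ)

/-- **Row MRB** (short-medium). `EuclideanSpace ℂ (Fin D × Fin N)` is `(Fin D → EuclideanSpace ℂ (Fin N))` with the
norm `(∑ ‖v i‖²)^(1/2)`; use `isoU_apply`. Second clause: `A = RM c x P` is self-adjoint (as an operator) and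
`|⟪v, A v⟫| ≤ K ‖v‖²` (`UnB` for the representation `UR c x`), so `‖A‖ ≤ K`. -/
def MRB_stmt : Prop := ∀ (D N : ℕ) (c : ℝ) (x : GI N → ℝ) (P : Mat D F2) (r : ℝ), 0 ≤ r →
  (RepB (UR c x) P r ↔ opn c x P ≤ r) ∧ (SA P → UnB P r → opn c x P ≤ r)

/-- **Row MRC** (medium; spectral theorem for Hermitian matrices). `ev` = eigenvalues. -/
def MRC_stmt : Prop := ∀ (n : Type) [Fintype n] [DecidableEq n] (A : Matrix n n ℂ) (K : ℝ),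
  A.IsHermitian → ‖Matrix.toEuclideanCLM (n := n) (𝕜 := ℂ) A‖ ≤ K → ∃ ev : n → ℝ,
  (∀ i, |ev i| ≤ K) ∧ (∀ h : ℝ[X], Matrix.trace (aeval A h) = ((∑ i, h.eval (ev i) : ℝ) : ℂ)) ∧
  ∀ m : ℝ, 0 ≤ m → (∀ i, |ev i| ≤ m) → ‖Matrix.toEuclideanCLM (n := n) (𝕜 := ℂ) A‖ ≤ m

/-- **Row MRD** (short-medium). `RegB (P ^ p) (r ^ p)` by induction; apply it to `u = e_k` (`1` at place `k`):
`∑_i l2((P^p)_ik)² ≤ r^{2p}`. Second clause: supports of products. -/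
def MRD_stmt : Prop := ∀ (D q : ℕ) (P : Mat D F2) (r : ℝ), 0 ≤ r → RegB P r →
  (∀ (p : ℕ) (i k : Fin D) (w : F2), ‖((P ^ p) i k).coeff w‖ ≤ r ^ p) ∧
  (Sup P {w | w.norm ≤ q} → ∀ p : ℕ, Sup (P ^ p) {w | w.norm ≤ q * p})

/-- **Row EXH** (medium), from BAL (of RP), MRA, MRD. `b = aeval (K⁻¹ • P) h = ∑ h_i K^{-i} P^i`, with support in the ball of
radius `q d`; `β(w) = (1/D) ∑_i b_ii(w)`, `|β(w)| ≤ maj h (r/K)` (MRD). By MRA `nt = Re ∑_w β(w) tr(U_w)/N`; integrate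
(the traces are bounded and continuous in `x`) with `EXWc`: `φ_k = Re ∑_w β(w) f_k(w)`. `φ_0 = Re β(1)`. -/
def EXH_stmt : Prop := ∀ (c C : ℝ), EXWc c C → ∀ (D q d : ℕ) (P : Mat D F2) (K r : ℝ) (h : ℝ[X]),
  1 ≤ D → 0 < K → 0 ≤ r → RegB P r → Sup P {w | w.norm ≤ q} → h.natDegree ≤ d →
  ∃ φ : ℕ → ℝ, Summable (fun k => |φ k|) ∧
    ∑' k, |φ k| ≤ maj h (r / K) * (ball (q * d)).card * Real.exp (C * ((q * d : ℕ) + 1 : ℝ) ^ 2) ∧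
    |φ 0| ≤ maj h (r / K) ∧
    ∀ N : ℕ, 1 ≤ N → Integrable (fun x : GI N → ℝ => nt c K P h x) (gau (GI N)) ∧
      ∫ x, nt c K P h x ∂(gau (GI N)) = ∑' k, φ k / (N : ℝ) ^ (2 * k)

/-- **Row TCH** (short). Induction with `T_{j+2} = 2 X T_{j+1} - T_j` (`maj` is subadditive, `maj (X p) ρ = ρ maj p ρ`). The
number of words of length `≤ n` in 4 letters is `≤ 4^(n+1)`. `Real.cos` and `Chebyshev.T`: Mathlib
`Polynomial.Chebyshev.T_real_cos`; `|x| ≤ 1` is `x = cos θ`. -/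
def TCH_stmt : Prop := (∀ (j : ℕ) (ρ : ℝ), 0 ≤ ρ → ρ ≤ 1 →
    maj (Polynomial.Chebyshev.T ℝ (j : ℤ)) ρ ≤ 3 ^ j) ∧
  (∀ j : ℕ, (Polynomial.Chebyshev.T ℝ (j : ℤ)).natDegree ≤ j) ∧
  (∀ (j : ℕ) (θ : ℝ), (Polynomial.Chebyshev.T ℝ (j : ℤ)).eval (Real.cos θ) = Real.cos (j * θ)) ∧
  (∀ n : ℕ, (ball n).card ≤ 4 ^ (n + 1))

/-- **Row NTP** (medium), from MRA, MRB, MRC. `A = RM c x P`, eigenvalues `ev` (MRC, at most `K` in absolute value), number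
`D N`; `RM c x (aeval (K⁻¹ • P) h) = aeval (K⁻¹ • A) h`, trace `∑ h(ev_i / K)`. So `nt = (1/(DN)) ∑ h(ev_i/K)`. If
`opn > t` some `|ev_i| > t`. Last clause: with `ev_i/K = cos θ_i`, `θ_i ∈ [0, π]`, and `∑|g_j| < ∞`:
`yG = (1/(DN)) ∑_i G(θ_i)`, `G(θ) = ∑ g_j cos(jθ)`. If `opn ≤ K cos b` then all `|cos θ_i| ≤ cos b`, i.e. `θ_i ∈ [b, π - b]`. If
`opn > K cos a` some `|cos θ_i| > cos a`, i.e. `θ_i ∈ [0, a]` or `[π - a, π]`. -/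
def NTP_stmt : Prop := ∀ (D N : ℕ) (c K : ℝ) (x : GI N → ℝ) (P : Mat D F2), 1 ≤ D → 1 ≤ N → 0 < K →
  SA P → UnB P K →
  (∀ (h : ℝ[X]) (m M : ℝ), (∀ t, |t| ≤ 1 → m ≤ h.eval t ∧ h.eval t ≤ M) →
    m ≤ nt c K P h x ∧ nt c K P h x ≤ M) ∧
  (∀ (h : ℝ[X]) (t : ℝ), 0 ≤ t → (∀ s, |s| ≤ 1 → 0 ≤ h.eval s) →
    (∀ s, t ≤ |s| → |s| ≤ 1 → 1 ≤ h.eval s) → K * t < opn c x P → 1 / (D * N : ℝ) ≤ nt c K P h x) ∧
  ∀ (g : ℕ → ℝ) (a b : ℝ), Summable (fun j => |g j|) → 0 < a → a < b → b ≤ Real.pi / 2 →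
    (∀ θ : ℝ, 0 ≤ ∑' j, g j * Real.cos (j * θ) ∧ ∑' j, g j * Real.cos (j * θ) ≤ 1 ∧
      (b ≤ θ → θ ≤ Real.pi - b → ∑' j, g j * Real.cos (j * θ) = 0) ∧
      (0 ≤ θ → θ ≤ a → ∑' j, g j * Real.cos (j * θ) = 1) ∧
      (Real.pi - a ≤ θ → θ ≤ Real.pi → ∑' j, g j * Real.cos (j * θ) = 1)) →
    0 ≤ yG c K P g x ∧ yG c K P g x ≤ 1 ∧ (opn c x P ≤ K * Real.cos b → yG c K P g x = 0) ∧
    (K * Real.cos a < opn c x P → 1 / (D * N : ℝ) ≤ yG c K P g x)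

/-- **Row SF1** (medium; first order), from TST (of RP), REM, EXH, TCH, NTP, MRB. If `K ≤ r + δ` the norm is never
larger (MRB). Otherwise `h` of TST for `ρ = r/K`, `r' = (r+δ)/K`, `K' = 1`, `s = Nat.log 4 N`, degree `≤ D₀ s`. The bad event has
`1/(DN) ≤ nt` (NTP), always `0 ≤ nt ≤ 2^s`, so its probability is `≤ DN ∫ nt`. EXH: `∑|φ_k| ≤ 4^L 2^s` for
`L = C' (q D₀ s + 1)²`, `|φ_0| ≤ 64^{-s}`; REM with `H = 2^s`, `m = 1`: `∫ nt ≤ 64^{-s} + C_R L^6 2^s / N²`. Since `4^s ≤ N < 4^{s+1}`,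
`N 64^{-s} → 0` and `L^6 2^s / N → 0`. -/
def SF1_stmt : Prop := ∀ (c C : ℝ), EXWc c C → ∀ (D q : ℕ) (P : Mat D F2) (K r δ ε : ℝ), 1 ≤ D → 0 < K →
  0 ≤ r → 0 < δ → 0 < ε → SA P → UnB P K → RegB P r → Sup P {w | w.norm ≤ q} →
  ∀ᶠ N : ℕ in atTop, (gau (GI N)).real {x | r + δ < opn c x P} ≤ ε

/-- **Row LPN** (short-medium), from MRB, ULP. `opn` is the operator norm; the difference of the two operators
maps `v` to `∑_j ∑_w (P i j)(w) (U_w(x) - U_w(y)) v_j`. Any bound of the form (constant depending on `P`, `c`) is fine. -/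
def LPN_stmt : Prop := ∀ (D : ℕ) (P : Mat D F2) (c : ℝ), ∃ L : ℝ, 0 < L ∧ ∀ (N : ℕ) (x y : GI N → ℝ),
  1 ≤ N → |opn c x P - opn c y P| ≤ L / Real.sqrt N * Real.sqrt (∑ i, (x i - y i) ^ 2)

/-- **Row SUP** (short-medium), from CON, SF1, LPN. For `N ≥ N₁` the set `{opn ≤ r + δ/2}` has measure `≥ 1/2` (SF1 with
`δ/2`, `ε = 1/2`); CON with `t = r + δ/2`, `s = δ/2`: the measure of `{r + δ ≤ opn}` is `≤ 2 exp(-δ² N/(20 L²))`. -/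
def SUP_stmt : Prop := ∀ (c C : ℝ), EXWc c C → ∀ (D q : ℕ) (P : Mat D F2) (K r δ : ℝ), 1 ≤ D → 0 < K →
  0 ≤ r → 0 < δ → SA P → UnB P K → RegB P r → Sup P {w | w.norm ≤ q} →
  ∀ k : ℕ, ∃ A : ℝ, ∀ N : ℕ, 1 ≤ N → (gau (GI N)).real {x | r + δ < opn c x P} ≤ A / (N : ℝ) ^ k

/-- **Row GEX** (medium), from REM, EXH, TCH, NTP. There is a numerical `C'` (depending on the constants `C` of
EXWc and of REM) such that, for `j ≥ 1`, `L_j = C'' q² j² m` (`C'' ∈ ℕ`), `4^{q j + 1} 3^j exp(C (q j + 1)²) ≤ 4^{L_j}` and `m ≤ L_j`. `φ^{(j)}` from EXH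
for `h = T_j`, `d = j` (`maj T_j (r/K) ≤ 3^j`), `|∫ nt(T_j)| ≤ 1` by NTP. REM with `H = 1`:
`|∫ nt(T_j) - ∑_{k<m} φ^{(j)}_k N^{-2k}| ≤ (C_R L_j^6/N²)^m`. `nt(T_0) = 1`. `∫ yG = g_0 + ∑_{j≥1} g_j ∫ nt(T_j)` (uniformly convergent since
`|nt(T_j)| ≤ 1` and `∑|g_j| < ∞`). `ν_k = ∑_{j≥1} g_j φ^{(j)}_k (+ g_0 if k = 0)`, convergent since
`|φ^{(j)}_k| ≤ 4 (C_R L_j^6)^k` (REM) and `|g_j| ≤ 2(2R/((b-a)j))^R`, `R = 12m+2`. Remainder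
`≤ ∑_{j≥1} 2(2R/((b-a)j))^R (C_R C''^6 q^12 m^6 j^12/N²)^m ≤ 4 (2R/(b-a))^R (C_R C''^6 q^12 m^6)^m N^{-2m}`. -/
def GEX_stmt : Prop := ∀ (c C : ℝ), EXWc c C → ∃ C' : ℝ, 1 ≤ C' ∧
  ∀ (D q m : ℕ) (P : Mat D F2) (K r a b : ℝ) (g : ℕ → ℝ),
  1 ≤ D → 1 ≤ q → 1 ≤ m → 0 < K → 0 ≤ r → r ≤ K → SA P → UnB P K → RegB P r → Sup P {w | w.norm ≤ q} →
  0 < a → a < b → |g 0| ≤ 1 →
  (∀ j : ℕ, 1 ≤ j → |g j| ≤ 2 * (2 * ((12 * m + 2 : ℕ) : ℝ) / ((b - a) * j)) ^ (12 * m + 2)) →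
  ∃ ν : ℕ → ℝ, ∀ N : ℕ, 1 ≤ N → Integrable (fun x : GI N → ℝ => yG c K P g x) (gau (GI N)) ∧
    |(∫ x, yG c K P g x ∂(gau (GI N))) - ∑ k ∈ Finset.range m, ν k / (N : ℝ) ^ (2 * k)| ≤
      4 * (2 * ((12 * m + 2 : ℕ) : ℝ) / (b - a)) ^ (12 * m + 2) * (C' * (q : ℝ) ^ 12 * (m : ℝ) ^ 6) ^ m /
        (N : ℝ) ^ (2 * m)

/-- **Row VAN** (short). By induction on `k < m` all `ν_k = 0`: `N^{2k}` times the difference tends to `ν_k` and to `0`. -/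
def VAN_stmt : Prop := ∀ (e ν : ℕ → ℝ) (m : ℕ) (A B : ℝ),
  (∀ N : ℕ, 1 ≤ N → |e N - ∑ k ∈ Finset.range m, ν k / (N : ℝ) ^ (2 * k)| ≤ B / (N : ℝ) ^ (2 * m)) →
  (∀ N : ℕ, 1 ≤ N → |e N| ≤ A / (N : ℝ) ^ (2 * m)) →
  ∀ N : ℕ, 1 ≤ N → |e N| ≤ B / (N : ℝ) ^ (2 * m)

/-- **Row NUM** (medium; numbers). `m = ⌊N^{1/50}⌋`. `2(12m+2) ≤ 28 m`, `1/(b-a) ≤ 2 N^{1/100}`, `q ≤ N^{1/100}`, `m ≤ N^{1/50}`: the
left-hand side is at most `4 exp(N^{1/100}) N (56 m N^{1/100})² (C₁ N^{60/100 - 2})^m` with `C₁ = 56^12 C'`, and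
`C₁ N^{-1.4} ≤ N^{-1}` for large `N`; `N^{-m} = exp(-m log N)`, `m ≥ N^{1/50}/2`. -/
def NUM_stmt : Prop := ∀ C' : ℝ, 1 ≤ C' → ∃ N₀ : ℕ, 1 ≤ N₀ ∧ ∀ N : ℕ, N₀ ≤ N → ∃ m : ℕ, 1 ≤ m ∧
  ∀ (D q : ℕ) (κ : ℝ), 0 < κ → (q : ℝ) ≤ (N : ℝ) ^ (1 / 100 : ℝ) → 1 / κ ≤ 2 * (N : ℝ) ^ (1 / 100 : ℝ) →
    (D : ℝ) ≤ Real.exp ((N : ℝ) ^ (1 / 100 : ℝ)) →
    (D * N : ℝ) * (4 * (2 * ((12 * m + 2 : ℕ) : ℝ) / κ) ^ (12 * m + 2) *
      (C' * (q : ℝ) ^ 12 * (m : ℝ) ^ 6) ^ m / (N : ℝ) ^ (2 * m)) ≤ Real.exp (-(N : ℝ) ^ (1 / 100 : ℝ))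

/-- **Row SCA** (medium; assembly), from EXW, TSF, MRB, NTP, SUP, GEX, VAN, NUM. `s = 1/100`. Let `c, C` of EXW. We may assume
`q ≥ 1` and `r + δ < K` (if `K ≤ r + δ` the bad event is empty, MRB). `cos a = (r+δ)/K`, `cos b = (r+δ/2)/K`, so `0 < a < b ≤ π/2` and
`b - a ≥ cos a - cos b = δ/(2K)`. `g` of TSF for the order `12m+2`, `m` of NUM. The expectation `e_N = ∫ yG` satisfies `|e_N| ≤ A/N^{2m}` (NTP:
`0 ≤ yG ≤ 1`, `yG = 0` unless `opn > r + δ/2`; SUP), and GEX, VAN give the explicit bound for `|e_N|`. The bad event has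
`1/(DN) ≤ yG` (NTP, MRB), Markov's inequality, NUM with `κ = b - a`. (`m` depends on `N`: for the given `N` take its `m` and `g`, then apply
GEX, SUP, VAN for this `m` and all `N'`.) -/
def SCA_stmt : Prop := SCU_stmt

end Pool.Agent.QX
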