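import Pool.Agent.helper4.QX.Defs
import Pool.Agent.helper62.RP.Spec

set_option autoImplicit false

/-!
# Project QX (MP_07c750), part P: polynomials, test functions, concentration. Rows `qp:X`

Prove the targets `REM_stmt`, `TSF_stmt`, `CON_stmt`, `PLY_stmt`, `SPC_stmt` of `Defs` via these rows, in
`Pool/Agent/<seat>/QX/X.lean`, namespace `Pool.Agent.QX`, auxiliary lemmas prefixed `X_`.
-/

open scoped MatrixGroups ContDiff Topology UpperHalfPlane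
open UpperHalfPlane MeasureTheory ProbabilityTheory Filter Set Polynomial
open Pool.Agent.QU Pool.Agent.RP

namespace Pool.Agent.QX

/-! ### REM -/

/-- **Row DSQ** (short-medium), from MKV (of RP: `Pool.Agent.RP.MKV_stmt`, proved). The points `1/N²`. Put `x₀ = 1/M²`, `M = 16 L²`,
`S = max_{[0,x₀]} |p|`, attained at `x`. If `x = 0`: `S ≤ 2H` by continuity. Otherwise `1/(n+1)² < x ≤ 1/n²` with `n ≥ M`,
`|x - 1/n²| ≤ 1/n² - 1/(n+1)² ≤ 2/n³ ≤ 2/M³`; by MKV (with `a = x₀`) `|p'| ≤ 4 L² M² S` on `[0,x₀]`, so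
`S ≤ 2H + 8 L² S/M ≤ 2H + S/2`. Hence `S ≤ 4H`. Iterating MKV (the derivatives have degree `≤ L`):
`|p^(k)| ≤ (4 L²/x₀)^k 4H = (1024 L⁶)^k 4H` on `[0, x₀]`, for all `k`. -/
def DSQ_stmt : Prop := MKV_stmt → ∀ (p : ℝ[X]) (L : ℕ) (H : ℝ), 1 ≤ L → p.natDegree ≤ L →
  (∀ N : ℕ, 2 ≤ N → |p.eval (1 / (N : ℝ) ^ 2)| ≤ 2 * H) →
  ∀ (k : ℕ) (x : ℝ), 0 ≤ x → x ≤ 1 / (256 * (L : ℝ) ^ 4) →
    |(derivative^[k] p).eval x| ≤ (1024 * (L : ℝ) ^ 6) ^ k * (4 * H)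

/-- **Row REM** (medium), from DSQ. `C = 10240`. `p = ∑_{k ≤ L} f_k x^k`; for `N ≥ 2` the tail satisfies
`∑_{k>L} |f_k| N^{-2k} ≤ 4^{-L-1} 4^L H ≤ H`, so `|p(1/N²)| ≤ 2H`. `f_k = p^(k)(0)/k!` gives the first claim. Let `x = 1/N²`,
`1 ≤ m ≤ L`. If `x ≤ 1/(256 L⁴)`: Taylor (Lagrange remainder, `taylor_mean_remainder_lagrange`, or induct on the
derivative): `|p(x) - ∑_{k<m} f_k x^k| ≤ (1024 L⁶ x)^m 4H/m!`, and the tail is at most `x^{L+1} 4^L H ≤ (4x)^m H`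
(`N ≥ 2`, `4x ≤ 1`). If `x > 1/(256 L⁴)`: with `y = 1024 L⁶ x > 1` the difference is at most
`H + ∑_{k<m} (1024 L⁶ x)^k 4H ≤ H + 4 m y^m H ≤ 5 (2y)^m H ≤ (10 y)^m H`. -/
def REM_row : Prop := DSQ_stmt → MKV_stmt → REM_stmt

/-! ### TSF -/

/-- **Row TS1** (medium). The averaged functions. `G_0 = 1` on `{θ : dist(θ, πℤ) ≤ (a+b)/2}` and `0` elsewhere,
`G_{k+1}(θ) = (1/(2δ)) ∫_{-δ}^{δ} G_k(θ+s) ds` with `δ = (b-a)/(2r)`. By induction: `G_k` is measurable, even, `π`-periodic, `0 ≤ G_k ≤ 1`,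
`G_k = 1` where `dist(θ, πℤ) ≤ (a+b)/2 - kδ`, `G_k = 0` where `dist(θ, πℤ) ≥ (a+b)/2 + kδ`; it is continuous for `k ≥ 1`. The real
Fourier coefficients `g_k(j) = (1/(2π)) ∫_{-π}^{π} G_k(θ) cos(jθ) dθ` satisfy `g_{k+1}(j) = g_k(j) sin(jδ)/(jδ)` (Fubini, evenness:
`∫ G_k(θ+s) cos(jθ) dθ = cos(js) ∫ G_k cos(jθ)`), so `|g_r(j)| ≤ (1/(jδ))^r` for `j ≥ 1`. Statement for `G = G_r`. -/
def TS1_stmt : Prop := ∀ (r : ℕ) (a b : ℝ), 2 ≤ r → 0 < a → a < b → b ≤ Real.pi / 2 →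
  ∃ G : ℝ → ℝ, Continuous G ∧ (∀ θ, G (-θ) = G θ) ∧ (∀ θ, G (θ + 2 * Real.pi) = G θ) ∧
    (∀ θ, 0 ≤ G θ ∧ G θ ≤ 1) ∧ (∀ θ, b ≤ θ → θ ≤ Real.pi - b → G θ = 0) ∧
    (∀ θ, 0 ≤ θ → θ ≤ a → G θ = 1) ∧ (∀ θ, Real.pi - a ≤ θ → θ ≤ Real.pi → G θ = 1) ∧
    ∀ j : ℕ, 1 ≤ j → |(2 * Real.pi)⁻¹ * ∫ θ in (-Real.pi)..Real.pi, G θ * Real.cos (j * θ)| ≤
      (2 * r / ((b - a) * j)) ^ r

/-- **Row TSF** (short-medium), from TS1. `c_0` = mean of `G`, `c_j = 2 g(j)`: `G` is continuous, `2π`-periodic and even with absolutely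
summable Fourier coefficients (`r ≥ 2`), so `G(θ) = ∑ c_j cos(jθ)` (`has_pointwise_sum_fourier_series_of_summable` on the circle
`AddCircle (2π)`; the coefficients for `±j` are equal). -/
def TSF_row : Prop := TS1_stmt → TSF_stmt

/-! ### CON -/

/-- **Row ROT** (short-medium). Rotation invariance of the product of two standard Gaussian vectors. By `Measure.pi` it is enough to
consider one coordinate, i.e. `gaussianReal 0 1 × gaussianReal 0 1` (or compare characteristic functions; see also the rotation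
lemma in Mathlib's Fernique file `Mathlib/Probability/Distributions/Fernique.lean`). -/
def ROT_stmt : Prop := ∀ (ι : Type) [Fintype ι] (θ : ℝ),
  ((gau ι).prod (gau ι)).map (fun p : (ι → ℝ) × (ι → ℝ) =>
    ((fun i => Real.cos θ * p.1 i + Real.sin θ * p.2 i), fun i => -Real.sin θ * p.1 i + Real.cos θ * p.2 i)) =
  (gau ι).prod (gau ι)

/-- **Row MPI** (medium; Maurey-Pisier for smooth functions), from ROT. `X_θ = cos θ X + sin θ Y`, so `F(Y) - F(X) = ∫_0^{π/2} F'(X_θ)(X_θ') dθ`,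
`X_θ' = -sin θ X + cos θ Y`. Jensen (convexity of `exp` for the probability `(2/π) dθ`):
`exp(λ(F(Y) - F(X))) ≤ (2/π) ∫_0^{π/2} exp(λ (π/2) F'(X_θ)(X_θ')) dθ`. By ROT `(X_θ, X_θ')` has the law of `(X, Y)`, and for fixed `X` the number
`F'(X)(Y) = ∑ ∂_iF(X) Y_i` is a centred Gaussian of variance `≤ L²`: `E exp(μ ·) ≤ exp(μ² L²/2)`, `μ = λπ/2`. Fubini: all functions are
nonnegative and continuous, use lower Lebesgue integrals or bounds by `exp(C ∑|x_i|)`. -/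
def MPI_stmt : Prop := ∀ (ι : Type) [Fintype ι] [DecidableEq ι] (F : (ι → ℝ) → ℝ) (L t : ℝ), 0 ≤ L → ContDiff ℝ 1 F →
  (∀ x, ∑ i : ι, (fderiv ℝ F x (Pi.single i 1)) ^ 2 ≤ L ^ 2) →
  ∫⁻ p : (ι → ℝ) × (ι → ℝ), ENNReal.ofReal (Real.exp (t * (F p.2 - F p.1))) ∂((gau ι).prod (gau ι)) ≤
    ENNReal.ofReal (Real.exp (Real.pi ^ 2 * t ^ 2 * L ^ 2 / 8))

/-- **Row CON** (medium), from MPI. (1) Mollify: for `ε > 0` there is a `C^∞` function `F_ε` with `|F_ε - F| ≤ ε`, `L`-Lipschitz for the Euclidean norm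
(convolution with a bump; work in `EuclideanSpace`), so its gradient has Euclidean norm `≤ L`. By MPI and `ε → 0` (Fatou, or
`exp(tF) ≤ e^{2|t|ε} exp(tF_ε)`) the bound of MPI holds for `F`. (2) Markov with `t = 4s/(π² L²)`: the probability of `F(Y) - F(X) ≥ s` is
`≤ exp(π² t² L²/8 - ts) = exp(-2s²/(π² L²)) ≤ exp(-s²/(5L²))` (`2/π² ≥ 1/5`). It is at least `P(F(Y) ≥ t₀+s) P(F(X) ≤ t₀)`, and the last factor is `≥ 1/2`. -/
def CON_row : Prop := MPI_stmt → CON_stmt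

/-! ### PLY, SPC -/

/-- **Row FEJ** (short-medium). The Fejer kernel `F_m(θ) = (1/m) ∑_{|k|<m} (1 - |k|/m) cos(kθ)` satisfies
`F_m(θ) (2 - 2cos θ) m² = 2 - 2 cos(mθ)` (multiply out, telescoping; or `F_m = (1/m²) |∑_{k<m} e^{ikθ}|²`), `F_m ≥ 0`, `F_m(0) = 1`, `F_m ≤ 1`. The function
`θ ↦ F_m(θ-θ₀) + F_m(θ+θ₀)` is `p₀(cos θ)` for the polynomial `p₀ = (2/m) ∑_{|k|<m} (1-|k|/m) cos(kθ₀) T_{|k|}`
(`cos(k(θ-θ₀)) + cos(k(θ+θ₀)) = 2 cos(kθ₀) cos(kθ)`). -/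
def FEJ_stmt : Prop := ∀ m : ℕ, 1 ≤ m → ∃ Fm : ℝ → ℝ, (∀ θ, 0 ≤ Fm θ ∧ Fm θ ≤ 1) ∧ Fm 0 = 1 ∧
  (∀ θ, Fm θ * Real.sin (θ / 2) ^ 2 * (m : ℝ) ^ 2 = Real.sin (m * θ / 2) ^ 2) ∧
  ∀ θ₀ : ℝ, ∃ p : ℝ[X], p.natDegree ≤ m - 1 ∧ ∀ θ : ℝ, p.eval (Real.cos θ) = Fm (θ - θ₀) + Fm (θ + θ₀)

/-- **Row PLY** (medium), from FEJ, MKV (of RP). `p = p₀ / (1 + F_m(2θ₀))`, `p(cos θ₀) = 1`, `|p| ≤ 2` on `[-1,1]`. `q = (p - 1)/(X - cos θ₀)` (`Polynomial.divByMonic` / `dvd_iff_isRoot`).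
`|q| ≤ sup|p'| ≤ C m²` on `[-1,1]` (mean value theorem; MKV on `[-1,0]` and `[0,1]`). Last bound: with `φ = (θ-θ₀)/2`, `ψ = (θ+θ₀)/2`
`|cos θ - cos θ₀| = 2|sin φ||sin ψ|`, `|sin ψ| ≤ |sin φ| + θ₀` and `|sin φ| ≤ |sin ψ| + θ₀` (`ψ = φ + θ₀`); so
`F_m(2φ) |cos θ - cos θ₀| ≤ 2 sin²(mφ)/(m² |sin φ|) (|sin φ| + θ₀) ≤ 2/m² + 2θ₀/m` (`|sin mφ| ≤ m |sin φ|`), the same for `F_m(2ψ)`. -/
def PLY_row : Prop := FEJ_stmt → MKV_stmt → PLY_stmt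

/-- **Row SP1** (short-medium). Finite dimensional case: `E` a finite dimensional real inner product space, `A` symmetric with `‖Ax‖ ≤ ‖x‖`:
orthonormal basis of eigenvectors (`LinearMap.IsSymmetric.eigenvectorBasis`), eigenvalues in `[-1,1]`, `p(A) e_i = p(λ_i) e_i`. -/
def SP1_stmt : Prop := ∀ (E : Type) [NormedAddCommGroup E] [InnerProductSpace ℝ E] [FiniteDimensional ℝ E]
  (A : E →ₗ[ℝ] E), A.IsSymmetric → (∀ x, ‖A x‖ ≤ ‖x‖) → ∀ (p : ℝ[X]) (M : ℝ), 0 ≤ M →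
  (∀ t, |t| ≤ 1 → |p.eval t| ≤ M) → ∀ x, ‖aeval A p x‖ ≤ M * ‖x‖

/-- **Row SPC** (medium), from SP1. Let `K = span {x, Ax, ..., A^n x}`, `n = deg p`, finite dimensional, `N = {y ∈ K : B y y = 0}` = `{y ∈ K : B y z = 0 for all z}`
(Cauchy-Schwarz for the semidefinite form), `Q = K/N` with the inner product induced by `B` (`InnerProductSpace.ofCore`; or choose a
complement of `N` in `K`). The compression of `A` to `Q`: `A_Q y =` the element of `Q` with `B (A_Q y) z = B (A y) z` for all `z ∈ K` (Riesz in `Q`); it is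
symmetric and `B(A_Q y, A_Q y) ≤ B(Ay, Ay) ≤ B(y,y)`, and `A_Q^j [x] = [A^j x]` for `j ≤ n` (induction: `A^{j+1}x ∈ K` for `j < n`). So
`p(A_Q)[x] = [p(A)x]`, SP1. -/
def SPC_row : Prop := SP1_stmt → SPC_stmt

end Pool.Agent.QX
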